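import Pool.Agent.P.MP_c5202f_co.Defs

-- part Pool.Agent.P.MP_c5202f_co.Star
section

/-! A memoryless reply function induces an involution of the squares. -/

namespace Pool.Agent.P.MP_c5202f_co

abbrev C := ℤ × ℤ

def Adj (u v : C) : Prop :=
  (u.1 = v.1 ∧ (u.2 = v.2 + 1 ∨ v.2 = u.2 + 1)) ∨ (u.2 = v.2 ∧ (u.1 = v.1 + 1 ∨ v.1 = u.1 + 1))

theorem Adj.symm {u v : C} (h : Adj u v) : Adj v u := by unfold Adj at *; omega

theorem cext {u v : C} (h1 : u.1 = v.1) (h2 : u.2 = v.2) : u = v := Prod.ext h1 h2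

theorem ne_iff {u v : C} : u ≠ v ↔ u.1 ≠ v.1 ∨ u.2 ≠ v.2 := by
  rw [Ne, Prod.ext_iff, not_and_or]

theorem Adj.cases {u v : C} (h : Adj u v) :
    v = (u.1 + 1, u.2) ∨ v = (u.1 - 1, u.2) ∨ v = (u.1, u.2 + 1) ∨ v = (u.1, u.2 - 1) := by
  simp only [Prod.ext_iff, Adj] at *
  omega

theorem dis {s t : Finset C} (h : Disjoint s t) (a : C) (h1 : a ∈ s) (h2 : a ∈ t) : False :=
  Finset.disjoint_left.1 h h1 h2

theorem legal_iff {F d : Finset C} :
    Legal F d ↔ ∃ u v, Adj u v ∧ u ∈ F ∧ v ∈ F ∧ d = {u, v} := by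
  constructor
  · rintro ⟨hs, x, y, rfl | rfl⟩
    · exact ⟨_, _, by simp [Adj], hs (by simp), hs (by simp), rfl⟩
    · exact ⟨_, _, by simp [Adj], hs (by simp), hs (by simp), rfl⟩
  · rintro ⟨⟨u1, u2⟩, ⟨v1, v2⟩, h, hu, hv, rfl⟩
    refine ⟨by intro z hz; simp only [Finset.mem_insert, Finset.mem_singleton] at hz
               rcases hz with rfl | rfl <;> assumption, ?_⟩
    simp only [Adj] at h
    rcases h with ⟨rfl, rfl | rfl⟩ | ⟨rfl, rfl | rfl⟩
    · exact ⟨u1, v2, Or.inr (Finset.pair_comm _ _)⟩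
    · exact ⟨u1, u2, Or.inr rfl⟩
    · exact ⟨v1, u2, Or.inl (Finset.pair_comm _ _)⟩
    · exact ⟨u1, u2, Or.inl rfl⟩

theorem legal_pair {F : Finset C} {u v : C} (h : Adj u v) (hu : u ∈ F) (hv : v ∈ F) :
    Legal F {u, v} := legal_iff.2 ⟨u, v, h, hu, hv, rfl⟩

theorem Legal.at {F d : Finset C} (h : Legal F d) {w : C} (hw : w ∈ d) :
    ∃ b, Adj w b ∧ w ∈ F ∧ b ∈ F ∧ d = {w, b} := by
  obtain ⟨u, v, huv, hu, hv, rfl⟩ := legal_iff.1 h
  simp only [Finset.mem_insert, Finset.mem_singleton] at hw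
  rcases hw with rfl | rfl
  · exact ⟨v, huv, hu, hv, rfl⟩
  · exact ⟨u, huv.symm, hv, hu, Finset.pair_comm _ _⟩

theorem Legal.par {F d : Finset C} (h : Legal F d) {b z z' : C} (hz : z ∈ d) (hz' : z' ∈ d)
    (h1 : Adj b z) (h2 : Adj b z') : z = z' := by
  obtain ⟨c, hc, -, -, rfl⟩ := h.at hz
  simp only [Finset.mem_insert, Finset.mem_singleton] at hz'
  rcases hz' with rfl | rfl
  · rfl
  · exfalso; unfold Adj at *; omega

/-- the replies are legal in the first two rounds -/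
structure Rep (F : Finset C) (r : Finset C → Finset C) : Prop where
  one : ∀ d, Legal F d → Legal F (r d) ∧ Disjoint d (r d)
  two : ∀ e d, Legal F e → Legal F d → Disjoint d e → Disjoint d (r e) →
    Disjoint (r d) e ∧ Disjoint (r d) (r e)

/-- at most one neighbour is not empty -/
def Deg3 (F : Finset C) (b : C) : Prop :=
  ∀ z z', Adj b z → Adj b z' → z ∉ F → z' ∉ F → z = z'

variable {F : Finset C} {r : Finset C → Finset C}

theorem Deg3.pick {b : C} (h : Deg3 F b) (w : C) {g : Finset C} (hg : Legal F g) :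
    ∃ z, Adj b z ∧ z ∈ F ∧ z ≠ w ∧ z ∉ g := by
  by_contra hc
  have key : ∀ z, Adj b z → z ∉ F ∨ z = w ∨ z ∈ g := fun z hz => by
    by_contra h'
    push Not at h'
    exact hc ⟨z, hz, h'.1, h'.2.1, h'.2.2⟩
  have a1 : Adj b (b.1 + 1, b.2) := by simp [Adj]
  have a2 : Adj b (b.1 - 1, b.2) := by simp [Adj]
  have a3 : Adj b (b.1, b.2 + 1) := by simp [Adj]
  have a4 : Adj b (b.1, b.2 - 1) := by simp [Adj]
  have two : ∀ z z', Adj b z → Adj b z' → z ≠ z' →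
      ¬ (z ∉ F ∧ z' ∉ F) ∧ ¬ (z = w ∧ z' = w) ∧ ¬ (z ∈ g ∧ z' ∈ g) := fun z z' hz hz' hne =>
    ⟨fun hh => hne (h z z' hz hz' hh.1 hh.2), fun hh => hne (hh.1.trans hh.2.symm),
      fun hh => hne (hg.par hh.1 hh.2 hz hz')⟩
  have t12 := two _ _ a1 a2 (by rw [ne_iff]; simp only; omega)
  have t13 := two _ _ a1 a3 (by rw [ne_iff]; simp only; omega)
  have t14 := two _ _ a1 a4 (by rw [ne_iff]; simp only; omega)
  have t23 := two _ _ a2 a3 (by rw [ne_iff]; simp only; omega)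
  have t24 := two _ _ a2 a4 (by rw [ne_iff]; simp only; omega)
  have t34 := two _ _ a3 a4 (by rw [ne_iff]; simp only; omega)
  have k1 := key _ a1
  have k2 := key _ a2
  have k3 := key _ a3
  have k4 := key _ a4
  rcases k1 with k1 | k1 | k1 <;> rcases k2 with k2 | k2 | k2 <;> rcases k3 with k3 | k3 | k3 <;>
    rcases k4 with k4 | k4 | k4 <;>
    first
    | exact t12.1 ⟨k1, k2⟩ | exact t12.2.1 ⟨k1, k2⟩ | exact t12.2.2 ⟨k1, k2⟩
    | exact t13.1 ⟨k1, k3⟩ | exact t13.2.1 ⟨k1, k3⟩ | exact t13.2.2 ⟨k1, k3⟩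
    | exact t14.1 ⟨k1, k4⟩ | exact t14.2.1 ⟨k1, k4⟩ | exact t14.2.2 ⟨k1, k4⟩
    | exact t23.1 ⟨k2, k3⟩ | exact t23.2.1 ⟨k2, k3⟩ | exact t23.2.2 ⟨k2, k3⟩
    | exact t24.1 ⟨k2, k4⟩ | exact t24.2.1 ⟨k2, k4⟩ | exact t24.2.2 ⟨k2, k4⟩
    | exact t34.1 ⟨k3, k4⟩ | exact t34.2.1 ⟨k3, k4⟩ | exact t34.2.2 ⟨k3, k4⟩

theorem Rep.rr (h : Rep F r) {d : Finset C} (hd : Legal F d)
    (h3 : ∀ w ∈ d, ∀ b, Adj w b → b ∈ F → Deg3 F b) : r (r d) = d := by
  obtain ⟨hg, hdg⟩ := h.one d hd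
  obtain ⟨hh, hgh⟩ := h.one _ hg
  have hm : ¬ Disjoint d (r (r d)) := fun hc => by
    have := (h.two _ _ hg hd hdg hc).1
    obtain ⟨u, v, -, -, -, e⟩ := legal_iff.1 hg
    exact dis this u (by simp [e]) (by simp [e])
  obtain ⟨w, hw, hw'⟩ := Finset.not_disjoint_iff.1 hm
  obtain ⟨b, hwb, -, hb, e⟩ := hh.at hw'
  obtain ⟨c, hwc, -, -, e'⟩ := hd.at hw
  by_cases hbc : b = c
  · rw [e, hbc, ← e']
  exfalso
  obtain ⟨z, hbz, hz, hzw, hzg⟩ := (h3 w hw b hwb hb).pick w hg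
  have hx : Legal F {b, z} := legal_pair hbz hb hz
  have hbg : b ∉ r d := fun hc => Finset.disjoint_left.1 hgh hc (by simp [e])
  have d1 : Disjoint ({b, z} : Finset C) d := by
    rw [e']
    simp only [Finset.disjoint_insert_left, Finset.disjoint_singleton_left, Finset.mem_insert,
      Finset.mem_singleton, not_or]
    refine ⟨⟨?_, hbc⟩, hzw, ?_⟩
    · rintro rfl; unfold Adj at hwb; omega
    · rintro rfl; unfold Adj at *; omega
  have d2 : Disjoint ({b, z} : Finset C) (r d) := by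
    simp only [Finset.disjoint_insert_left, Finset.disjoint_singleton_left]
    exact ⟨hbg, hzg⟩
  have k := h.two _ _ hd hx d1 d2
  have k' := (h.two _ _ hx hg d2.symm k.2.symm).1
  exact dis k' b (by simp [e]) (by simp)

/-- squares whose four dominoes are legal and fixed by `r ∘ r` -/
def Good (F : Finset C) (r : Finset C → Finset C) (v : C) : Prop :=
  v ∈ F ∧ ∀ w, Adj v w → w ∈ F ∧ r (r {v, w}) = {v, w}

theorem Good.leg {v w : C} (hv : Good F r v) (hw : Adj v w) : Legal F {v, w} :=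
  legal_pair hw hv.1 (hv.2 w hw).1

theorem Good.inj {v w w' : C} (hv : Good F r v) (hw : Adj v w) (hw' : Adj v w')
    (e : r {v, w} = r {v, w'}) : w = w' := by
  have e' : ({v, w} : Finset C) = {v, w'} := by rw [← (hv.2 w hw).2, e, (hv.2 w' hw').2]
  have : w ∈ ({v, w'} : Finset C) := by rw [← e']; simp
  simp only [Finset.mem_insert, Finset.mem_singleton] at this
  rcases this with rfl | rfl
  · exfalso; unfold Adj at hw; omega
  · rfl

theorem Rep.meet (h : Rep F r) {v w w' : C} (hv : Good F r v) (hw : Adj v w) (hw' : Adj v w') :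
    w' ∈ r {v, w} ∨ ∃ p, p ∈ r {v, w} ∧ p ∈ r {v, w'} := by
  by_contra hc
  push Not at hc
  obtain ⟨hg, hdg⟩ := h.one _ (hv.leg hw)
  have d1 : Disjoint (r {v, w}) {v, w'} := by
    simp only [Finset.disjoint_insert_right, Finset.disjoint_singleton_right]
    exact ⟨fun hh => Finset.disjoint_left.1 hdg (by simp) hh, hc.1⟩
  have k := (h.two _ _ (hv.leg hw') hg d1 (Finset.disjoint_left.2 hc.2)).1
  rw [(hv.2 w hw).2] at k
  exact dis k v (by simp) (by simp)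

theorem others {v w1 w2 : C} (h1 : Adj v w1) (h2 : Adj v w2) (hne : w1 ≠ w2) :
    ∃ w3 w4, Adj v w3 ∧ Adj v w4 ∧ w3 ≠ w1 ∧ w3 ≠ w2 ∧ w4 ≠ w1 ∧ w4 ≠ w2 ∧ w3 ≠ w4 := by
  by_cases hs : w1.1 + w2.1 = 2 * v.1 ∧ w1.2 + w2.2 = 2 * v.2
  · refine ⟨(v.1 + (w1.2 - v.2), v.2 + (w1.1 - v.1)), (v.1 - (w1.2 - v.2), v.2 - (w1.1 - v.1)),
      ?_, ?_, ?_, ?_, ?_, ?_, ?_⟩ <;>
    rcases h1.cases with rfl | rfl | rfl | rfl <;> rcases h2.cases with rfl | rfl | rfl | rfl <;>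
    simp only [ne_iff, Adj] at hs hne ⊢ <;> omega
  · refine ⟨(2 * v.1 - w1.1, 2 * v.2 - w1.2), (2 * v.1 - w2.1, 2 * v.2 - w2.2),
      ?_, ?_, ?_, ?_, ?_, ?_, ?_⟩ <;>
    rcases h1.cases with rfl | rfl | rfl | rfl <;> rcases h2.cases with rfl | rfl | rfl | rfl <;>
    simp only [ne_iff, Adj] at hs hne ⊢ <;> omega

theorem three {v a b w1 w2 : C} (hne : w1 ≠ w2) (hav : a ≠ v) (hbv : b ≠ v) (hab : a ≠ b)
    (h1 : Adj v w1) (h2 : Adj v w2) (ha : Adj w2 a) (hb : Adj w1 b) (x : Adj w2 b)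
    (y : Adj a w1) : False := by
  rcases h1.cases with rfl | rfl | rfl | rfl <;> rcases h2.cases with rfl | rfl | rfl | rfl <;>
    rcases ha.cases with rfl | rfl | rfl | rfl <;> rcases hb.cases with rfl | rfl | rfl | rfl <;>
    simp only [ne_iff, Adj] at hne hav hbv hab x y <;> omega

theorem Rep.meet' (h : Rep F r) {v w1 w2 : C} (hv : Good F r v) (h1 : Adj v w1) (h2 : Adj v w2) :
    ∃ p, p ∈ r {v, w1} ∧ p ∈ r {v, w2} := by
  by_contra hc
  have hc' : ¬ ∃ p, p ∈ r {v, w2} ∧ p ∈ r {v, w1} := fun ⟨p, a, b⟩ => hc ⟨p, b, a⟩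
  have l1 := h.one _ (hv.leg h1)
  have l2 := h.one _ (hv.leg h2)
  have m1 := (h.meet hv h1 h2).resolve_right hc
  have m2 := (h.meet hv h2 h1).resolve_right hc'
  have hne : w1 ≠ w2 := by
    rintro rfl
    exact hc ⟨_, m1, m1⟩
  obtain ⟨a, ha, -, -, ea⟩ := l1.1.at m1
  obtain ⟨b, hb, -, -, eb⟩ := l2.1.at m2
  have hav : a ≠ v := by
    rintro rfl
    exact dis l1.2 a (by simp) (by simp [ea])
  have hbv : b ≠ v := by
    rintro rfl
    exact dis l2.2 b (by simp) (by simp [eb])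
  have hab : a ≠ b := by
    rintro rfl
    exact hc ⟨a, by simp [ea], by simp [eb]⟩
  have key : ∀ w, Adj v w → w ≠ w1 → w ≠ w2 →
      (Adj w2 b ∧ r {v, w} = {w2, b}) ∨ (Adj a w1 ∧ r {v, w} = {a, w1}) := by
    intro w hw n1 n2
    obtain ⟨p, p1, p2⟩ := (h.meet hv h1 hw).resolve_left fun hh => n2 (l1.1.par hh m1 hw h2)
    obtain ⟨q, q1, q2⟩ := (h.meet hv h2 hw).resolve_left fun hh => n1 (l2.1.par hh m2 hw h1)
    have hpq : p ≠ q := by
      rintro rfl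
      exact hc ⟨p, p1, q1⟩
    obtain ⟨c, hpc, -, -, e⟩ := (h.one _ (hv.leg hw)).1.at p2
    rw [e] at q2
    rw [ea] at p1
    rw [eb] at q1
    simp only [Finset.mem_insert, Finset.mem_singleton] at p1 q1 q2
    obtain rfl : q = c := q2.resolve_left hpq.symm
    rcases p1 with rfl | rfl <;> rcases q1 with rfl | rfl
    · exfalso; unfold Adj at *; omega
    · exact Or.inl ⟨hpc, e⟩
    · exact Or.inr ⟨hpc, e⟩
    · exfalso; unfold Adj at *; omega
  obtain ⟨w3, w4, a3, a4, n31, n32, n41, n42, n34⟩ := others h1 h2 hne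
  have fin : Adj w2 b → Adj a w1 → False := by
    intro x y
    exact three hne hav hbv hab h1 h2 ha hb x y
  rcases key w3 a3 n31 n32 with k3 | k3 <;> rcases key w4 a4 n41 n42 with k4 | k4
  · exact n34 (hv.inj a3 a4 (k3.2.trans k4.2.symm))
  · exact fin k3.1 k4.1
  · exact fin k4.1 k3.1
  · exact n34 (hv.inj a3 a4 (k3.2.trans k4.2.symm))

theorem Legal.eq_pair {d : Finset C} (h : Legal F d) {p q : C} (hp : p ∈ d) (hq : q ∈ d)
    (hne : p ≠ q) : Adj p q ∧ d = {p, q} := by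
  obtain ⟨c, hc, -, -, rfl⟩ := h.at hp
  simp only [Finset.mem_insert, Finset.mem_singleton] at hq
  obtain rfl : q = c := hq.resolve_left hne.symm
  exact ⟨hc, rfl⟩

theorem Rep.uniq (h : Rep F r) {v w w' p q : C} (hv : Good F r v) (hw : Adj v w) (hw' : Adj v w')
    (hne : w ≠ w') (p1 : p ∈ r {v, w}) (p2 : p ∈ r {v, w'}) (q1 : q ∈ r {v, w})
    (q2 : q ∈ r {v, w'}) : p = q := by
  by_contra hc
  exact hne (hv.inj hw hw' (((h.one _ (hv.leg hw)).1.eq_pair p1 q1 hc).2.trans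
    ((h.one _ (hv.leg hw')).1.eq_pair p2 q2 hc).2.symm))

theorem Rep.common (h : Rep F r) {v : C} (hv : Good F r v) :
    ∃ p, ∀ w, Adj v w → p ∈ r {v, w} := by
  have a1 : Adj v (v.1 + 1, v.2) := by simp [Adj]
  have a2 : Adj v (v.1 - 1, v.2) := by simp [Adj]
  have n12 : ((v.1 + 1, v.2) : C) ≠ (v.1 - 1, v.2) := by rw [ne_iff]; simp only; omega
  obtain ⟨p, p1, p2⟩ := h.meet' hv a1 a2
  refine ⟨p, fun w hw => ?_⟩
  by_contra hc
  obtain ⟨x, x1, x2⟩ := h.meet' hv a1 hw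
  obtain ⟨y, y1, y2⟩ := h.meet' hv a2 hw
  have hx : p ≠ x := fun e => hc (e ▸ x2)
  have hy : p ≠ y := fun e => hc (e ▸ y2)
  have ex := (h.one _ (hv.leg a1)).1.eq_pair p1 x1 hx
  have ey := (h.one _ (hv.leg a2)).1.eq_pair p2 y1 hy
  have := (h.one _ (hv.leg hw)).1.par x2 y2 ex.1 ey.1
  subst this
  exact n12 (hv.inj a1 a2 (ex.2.trans ey.2.symm))

/-- an involution without fixed point of a set of squares that preserves adjacency -/
structure Inv (G : C → Prop) (σ : C → C) : Prop where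
  mem : ∀ v, G v → G (σ v)
  inv : ∀ v, G v → σ (σ v) = v
  ne : ∀ v, G v → σ v ≠ v
  adj : ∀ u v, G u → G v → Adj u v → Adj (σ u) (σ v)

theorem four {p q q1 q2 q3 q4 : C} (h : Adj p q) (h1 : Adj p q1) (h2 : Adj p q2) (h3 : Adj p q3)
    (h4 : Adj p q4) (n12 : q1 ≠ q2) (n13 : q1 ≠ q3) (n14 : q1 ≠ q4) (n23 : q2 ≠ q3)
    (n24 : q2 ≠ q4) (n34 : q3 ≠ q4) : q = q1 ∨ q = q2 ∨ q = q3 ∨ q = q4 := by
  rcases h.cases with rfl | rfl | rfl | rfl <;> rcases h1.cases with rfl | rfl | rfl | rfl <;>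
    rcases h2.cases with rfl | rfl | rfl | rfl <;> rcases h3.cases with rfl | rfl | rfl | rfl <;>
    rcases h4.cases with rfl | rfl | rfl | rfl <;>
    first
    | exact Or.inl rfl | exact Or.inr (Or.inl rfl) | exact Or.inr (Or.inr (Or.inl rfl))
    | exact Or.inr (Or.inr (Or.inr rfl)) | exact absurd rfl n12 | exact absurd rfl n13
    | exact absurd rfl n14 | exact absurd rfl n23 | exact absurd rfl n24 | exact absurd rfl n34

theorem Rep.exists_inv (h : Rep F r) : ∃ σ, Inv (Good F r) σ ∧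
    ∀ u v, Good F r u → Good F r v → Adj u v → r {u, v} = {σ u, σ v} := by
  classical
  have h0 : ∀ v, ∃ p, Good F r v → ∀ w, Adj v w → p ∈ r {v, w} := fun v => by
    by_cases hv : Good F r v
    · exact (h.common hv).imp fun p hp _ => hp
    · exact ⟨v, fun hh => absurd hh hv⟩
  choose σ hσ using h0
  have sur : ∀ v, Good F r v → σ v ∈ F ∧
      ∀ q, Adj (σ v) q → q ∈ F ∧ ∃ w, Adj v w ∧ r {v, w} = {σ v, q} := by
    intro v hv
    have k : ∀ w, Adj v w → ∃ b, Adj (σ v) b ∧ σ v ∈ F ∧ b ∈ F ∧ r {v, w} = {σ v, b} :=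
      fun w hw => (h.one _ (hv.leg hw)).1.at (hσ v hv w hw)
    have a1 : Adj v (v.1 + 1, v.2) := by simp [Adj]
    have a2 : Adj v (v.1 - 1, v.2) := by simp [Adj]
    obtain ⟨w3, w4, a3, a4, n31, n32, n41, n42, n34⟩ :=
      others a1 a2 (by rw [ne_iff]; simp only; omega)
    obtain ⟨q1, b1, hp, c1, e1⟩ := k _ a1
    obtain ⟨q2, b2, -, c2, e2⟩ := k _ a2
    obtain ⟨q3, b3, -, c3, e3⟩ := k _ a3
    obtain ⟨q4, b4, -, c4, e4⟩ := k _ a4
    have n : ∀ {w w' q q' : C}, Adj v w → Adj v w' → w ≠ w' → r {v, w} = {σ v, q} →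
        r {v, w'} = {σ v, q'} → q ≠ q' := fun x y z e e' hq =>
      z (hv.inj x y (by rw [e, e', hq]))
    refine ⟨hp, fun q hq => ?_⟩
    rcases four hq b1 b2 b3 b4 (n a1 a2 (by rw [ne_iff]; simp only; omega) e1 e2)
      (n a1 a3 n31.symm e1 e3) (n a1 a4 n41.symm e1 e4) (n a2 a3 n32.symm e2 e3)
      (n a2 a4 n42.symm e2 e4) (n a3 a4 n34 e3 e4) with rfl | rfl | rfl | rfl
    exacts [⟨c1, _, a1, e1⟩, ⟨c2, _, a2, e2⟩, ⟨c3, _, a3, e3⟩, ⟨c4, _, a4, e4⟩]
  have mem : ∀ v, Good F r v → Good F r (σ v) := fun v hv =>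
    ⟨(sur v hv).1, fun q hq => by
      obtain ⟨c, w, hw, e⟩ := (sur v hv).2 q hq
      exact ⟨c, by rw [← e, (hv.2 w hw).2]⟩⟩
  have inv : ∀ v, Good F r v → σ (σ v) = v := by
    intro v hv
    have k : ∀ q, Adj (σ v) q → v ∈ r {σ v, q} := fun q hq => by
      obtain ⟨-, w, hw, e⟩ := (sur v hv).2 q hq
      rw [← e, (hv.2 w hw).2]; simp
    have a1 : Adj (σ v) ((σ v).1 + 1, (σ v).2) := by simp [Adj]
    have a2 : Adj (σ v) ((σ v).1 - 1, (σ v).2) := by simp [Adj]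
    exact h.uniq (mem v hv) a1 a2 (by rw [ne_iff]; simp only; omega) (hσ _ (mem v hv) _ a1)
      (hσ _ (mem v hv) _ a2) (k _ a1) (k _ a2)
  have pr : ∀ u v, Good F r u → Good F r v → Adj u v →
      Adj (σ u) (σ v) ∧ r {u, v} = {σ u, σ v} := by
    intro u v hu hv huv
    refine (h.one _ (hu.leg huv)).1.eq_pair (hσ u hu v huv) ?_ fun e => ?_
    · rw [Finset.pair_comm]; exact hσ v hv u huv.symm
    · have : u = v := by rw [← inv u hu, e, inv v hv]
      subst this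
      unfold Adj at huv; omega
  refine ⟨σ, ⟨mem, inv, fun v hv e => ?_, fun u v hu hv huv => (pr u v hu hv huv).1⟩,
    fun u v hu hv huv => (pr u v hu hv huv).2⟩
  have a1 : Adj v (v.1 + 1, v.2) := by simp [Adj]
  have := hσ v hv _ a1
  rw [e] at this
  exact Finset.disjoint_left.1 (h.one _ (hv.leg a1)).2 (by simp) this

end Pool.Agent.P.MP_c5202f_co
end

-- part Pool.Agent.P.MP_c5202f_co.Geo
section

/-! The involution is the central symmetry on empty rows and columns. -/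

namespace Pool.Agent.P.MP_c5202f_co

theorem par4 {p s q1 q2 : C} (h1 : Adj p q1) (h2 : Adj p q2) (h3 : Adj s q1) (h4 : Adj s q2)
    (n : q1 ≠ q2) (n' : p ≠ s) : q1.1 + q2.1 = p.1 + s.1 ∧ q1.2 + q2.2 = p.2 + s.2 := by
  rcases h1.cases with rfl | rfl | rfl | rfl <;> rcases h2.cases with rfl | rfl | rfl | rfl <;>
    simp only [ne_iff, Adj] at h3 h4 n n' ⊢ <;> omega

theorem opp {p x x' y y' : C} (h1 : Adj p x) (h2 : Adj p x') (h3 : Adj p y) (h4 : Adj p y')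
    (n1 : x ≠ x') (n2 : x ≠ y) (n3 : x ≠ y') (n4 : x' ≠ y) (n5 : x' ≠ y') (n6 : y ≠ y')
    (m1 : ¬ (x.1 + y.1 = 2 * p.1 ∧ x.2 + y.2 = 2 * p.2))
    (m2 : ¬ (x.1 + y'.1 = 2 * p.1 ∧ x.2 + y'.2 = 2 * p.2)) :
    x.1 + x'.1 = 2 * p.1 ∧ x.2 + x'.2 = 2 * p.2 := by
  have h5 : Adj p (2 * p.1 - x.1, 2 * p.2 - x.2) := by simp only [Adj] at h1 ⊢; omega
  rcases four h5 h1 h2 h3 h4 n1 n2 n3 n4 n5 n6 with h | h | h | h <;>
    simp only [Prod.ext_iff] at h
  · simp only [Adj] at h1; omega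
  · omega
  · omega
  · omega

variable {G : C → Prop} {σ : C → C}

theorem Inv.inj (h : Inv G σ) {u v : C} (hu : G u) (hv : G v) (n : u ≠ v) : σ u ≠ σ v :=
  fun e => n (by rw [← h.inv u hu, e, h.inv v hv])

theorem Inv.straight (h : Inv G σ) {v x x' y y' c c' : C} (gv : G v) (gx : G x) (gx' : G x')
    (gy : G y) (gy' : G y') (gc : G c) (gc' : G c') (h1 : Adj v x) (h2 : Adj v x') (h3 : Adj v y)
    (h4 : Adj v y') (n1 : x ≠ x') (n2 : x ≠ y) (n3 : x ≠ y') (n4 : x' ≠ y) (n5 : x' ≠ y')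
    (n6 : y ≠ y') (c1 : Adj c x) (c2 : Adj c y) (c3 : v ≠ c) (d1 : Adj c' x) (d2 : Adj c' y')
    (d3 : v ≠ c') :
    (σ x).1 + (σ x').1 = 2 * (σ v).1 ∧ (σ x).2 + (σ x').2 = 2 * (σ v).2 := by
  have p1 := par4 (h.adj _ _ gv gx h1) (h.adj _ _ gv gy h3) (h.adj _ _ gc gx c1)
    (h.adj _ _ gc gy c2) (h.inj gx gy n2) (h.inj gv gc c3)
  have p2 := par4 (h.adj _ _ gv gx h1) (h.adj _ _ gv gy' h4) (h.adj _ _ gc' gx d1)
    (h.adj _ _ gc' gy' d2) (h.inj gx gy' n3) (h.inj gv gc' d3)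
  have q1 := ne_iff.1 (h.inj gv gc c3)
  have q2 := ne_iff.1 (h.inj gv gc' d3)
  exact opp (h.adj _ _ gv gx h1) (h.adj _ _ gv gx' h2) (h.adj _ _ gv gy h3) (h.adj _ _ gv gy' h4)
    (h.inj gx gx' n1) (h.inj gx gy n2) (h.inj gx gy' n3) (h.inj gx' gy n4) (h.inj gx' gy' n5)
    (h.inj gy gy' n6) (by omega) (by omega)

theorem lin (f : ℤ → ℤ) (x1 x2 : ℤ)
    (h : ∀ x, x1 < x → x < x2 → f (x + 1) + f (x - 1) = 2 * f x) :
    ∃ α β : ℤ, ∀ x, x1 ≤ x → x ≤ x2 → f x = α + β * x := by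
  refine ⟨f x1 - (f (x1 + 1) - f x1) * x1, f (x1 + 1) - f x1, ?_⟩
  have key : ∀ n : ℕ, x1 + n + 1 ≤ x2 →
      f (x1 + n) = f x1 + (f (x1 + 1) - f x1) * n ∧
      f (x1 + n + 1) = f x1 + (f (x1 + 1) - f x1) * (n + 1) := by
    intro n
    induction n with
    | zero => intro _; simp
    | succ n ih =>
      intro hn
      push_cast at hn ⊢
      obtain ⟨i1, i2⟩ := ih (by omega)
      have := h (x1 + n + 1) (by omega) (by omega)
      rw [show x1 + n + 1 - 1 = x1 + n by ring] at this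
      rw [show x1 + (n + 1) = x1 + n + 1 by ring]
      exact ⟨i2, by linarith⟩
  intro x h1 h2
  rcases h1.eq_or_lt with rfl | h1
  · ring
  · obtain ⟨n, rfl⟩ : ∃ n : ℕ, x = x1 + n + 1 := ⟨(x - x1 - 1).toNat, by omega⟩
    rw [(key n h2).2]; ring

theorem Inv.row (h : Inv G σ) {x1 x2 y : ℤ}
    (hG : ∀ x y', x1 ≤ x → x ≤ x2 → y - 1 ≤ y' → y' ≤ y + 1 → G (x, y')) :
    ∃ α β γ δ : ℤ, ∀ x, x1 ≤ x → x ≤ x2 → σ (x, y) = (α + β * x, γ + δ * x) := by
  have st : ∀ x, x1 < x → x < x2 →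
      (σ (x + 1, y)).1 + (σ (x - 1, y)).1 = 2 * (σ (x, y)).1 ∧
      (σ (x + 1, y)).2 + (σ (x - 1, y)).2 = 2 * (σ (x, y)).2 := by
    intro x h1 h2
    refine h.straight (y := (x, y + 1)) (y' := (x, y - 1)) (c := (x + 1, y + 1))
      (c' := (x + 1, y - 1)) ?_ ?_ ?_ ?_ ?_ ?_ ?_ ?_ ?_ ?_ ?_ ?_ ?_ ?_ ?_ ?_ ?_ ?_ ?_ ?_ ?_ ?_ ?_ <;>
    first
    | exact hG _ _ (by omega) (by omega) (by omega) (by omega)
    | (simp only [ne_iff, Adj]; omega)
    | simp [Adj]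
  obtain ⟨α, β, h1⟩ := lin (fun x => (σ (x, y)).1) x1 x2 fun x a b => (st x a b).1
  obtain ⟨γ, δ, h2⟩ := lin (fun x => (σ (x, y)).2) x1 x2 fun x a b => (st x a b).2
  exact ⟨α, β, γ, δ, fun x a b => cext (h1 x a b) (h2 x a b)⟩

theorem Inv.col (h : Inv G σ) {y1 y2 x : ℤ}
    (hG : ∀ x' y, y1 ≤ y → y ≤ y2 → x - 1 ≤ x' → x' ≤ x + 1 → G (x', y)) :
    ∃ α β γ δ : ℤ, ∀ y, y1 ≤ y → y ≤ y2 → σ (x, y) = (α + β * y, γ + δ * y) := by
  have st : ∀ y, y1 < y → y < y2 →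
      (σ (x, y + 1)).1 + (σ (x, y - 1)).1 = 2 * (σ (x, y)).1 ∧
      (σ (x, y + 1)).2 + (σ (x, y - 1)).2 = 2 * (σ (x, y)).2 := by
    intro y h1 h2
    refine h.straight (y := (x + 1, y)) (y' := (x - 1, y)) (c := (x + 1, y + 1))
      (c' := (x - 1, y + 1)) ?_ ?_ ?_ ?_ ?_ ?_ ?_ ?_ ?_ ?_ ?_ ?_ ?_ ?_ ?_ ?_ ?_ ?_ ?_ ?_ ?_ ?_ ?_ <;>
    first
    | exact hG _ _ (by omega) (by omega) (by omega) (by omega)
    | (simp only [ne_iff, Adj]; omega)
    | simp [Adj]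
  obtain ⟨α, β, h1⟩ := lin (fun y => (σ (x, y)).1) y1 y2 fun x a b => (st x a b).1
  obtain ⟨γ, δ, h2⟩ := lin (fun y => (σ (x, y)).2) y1 y2 fun x a b => (st x a b).2
  exact ⟨α, β, γ, δ, fun x a b => cext (h1 x a b) (h2 x a b)⟩

theorem unit {α β γ δ x : ℤ} (h : Adj (α + β * x, γ + δ * x) (α + β * (x + 1), γ + δ * (x + 1))) :
    (β = 1 ∧ δ = 0) ∨ (β = -1 ∧ δ = 0) ∨ (β = 0 ∧ δ = 1) ∨ (β = 0 ∧ δ = -1) := by
  simp only [Adj, mul_add, mul_one] at h
  omega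

theorem Inv.cross (h : Inv G σ) {a b x0 y0 : ℤ}
    (hb : ∀ v, G v → -a < v.1 ∧ v.1 < a ∧ -b < v.2 ∧ v.2 < b)
    (hx : -a + 1 < x0 ∧ x0 < a - 1) (hy : -b + 1 < y0 ∧ y0 < b - 1)
    (hr : ∀ x y, -a + 1 ≤ x → x ≤ a - 1 → y0 - 1 ≤ y → y ≤ y0 + 1 → G (x, y))
    (hc : ∀ x y, -b + 1 ≤ y → y ≤ b - 1 → x0 - 1 ≤ x → x ≤ x0 + 1 → G (x, y)) :
    ∀ y, -b + 1 ≤ y → y ≤ b - 1 → σ (x0, y) = (-x0, -y) := by
  obtain ⟨α, β, γ, δ, R⟩ := h.row hr
  obtain ⟨α', β', γ', δ', K⟩ := h.col hc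
  have gr : ∀ x, -a + 1 ≤ x → x ≤ a - 1 → G (x, y0) :=
    fun x h1 h2 => hr x y0 h1 h2 (by omega) (by omega)
  have gc : ∀ y, -b + 1 ≤ y → y ≤ b - 1 → G (x0, y) :=
    fun y h1 h2 => hc x0 y h1 h2 (by omega) (by omega)
  have u1 := h.adj _ _ (gr x0 (by omega) (by omega)) (gr (x0 + 1) (by omega) (by omega))
    (by simp [Adj])
  rw [R _ (by omega) (by omega), R _ (by omega) (by omega)] at u1
  have u2 := h.adj _ _ (gc y0 (by omega) (by omega)) (gc (y0 + 1) (by omega) (by omega))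
    (by simp [Adj])
  rw [K _ (by omega) (by omega), K _ (by omega) (by omega)] at u2
  have e0 := (R x0 (by omega) (by omega)).symm.trans (K y0 (by omega) (by omega))
  have n1 := h.inj (gr (x0 + 1) (by omega) (by omega)) (gc (y0 + 1) (by omega) (by omega))
    (by simp)
  have n2 := h.inj (gr (x0 + 1) (by omega) (by omega)) (gc (y0 - 1) (by omega) (by omega))
    (by simp)
  rw [R _ (by omega) (by omega), K _ (by omega) (by omega)] at n1 n2
  have b1 := hb _ (h.mem _ (gr (a - 1) (by omega) (by omega)))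
  have b2 := hb _ (h.mem _ (gr (-a + 1) (by omega) (by omega)))
  have b3 := hb _ (h.mem _ (gc (b - 1) (by omega) (by omega)))
  have b4 := hb _ (h.mem _ (gc (-b + 1) (by omega) (by omega)))
  rw [R _ (by omega) (by omega)] at b1 b2
  rw [K _ (by omega) (by omega)] at b3 b4
  have fr : ∀ x, -a + 1 ≤ x → x ≤ a - 1 → α + β * x ≠ x ∨ γ + δ * x ≠ y0 := fun x h1 h2 => by
    have := h.ne _ (gr x h1 h2)
    rwa [R _ h1 h2, ne_iff] at this
  have fc := h.ne _ (gc 0 (by omega) (by omega))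
  rw [K _ (by omega) (by omega)] at fc
  have rot : ∀ x x', -a + 1 ≤ x → x ≤ a - 1 → -a + 1 ≤ x' → x' ≤ a - 1 → α + β * x = x' →
      γ + δ * x = y0 → γ + δ * x' = y0 := fun x x' h1 h2 h3 h4 e1 e2 => by
    have := h.inv _ (gr x h1 h2)
    rw [R _ h1 h2, e1, e2, R _ h3 h4] at this
    exact congrArg Prod.snd this
  have f0 := fr 0 (by omega) (by omega)
  have f1 := fr x0 (by omega) (by omega)
  have f2 := fr y0
  have f3 := fr (-y0)
  have r1 := rot y0 (-y0)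
  have r2 := rot (-y0) y0
  intro y h1 h2
  rw [K y h1 h2]
  simp only [ne_iff, Prod.ext_iff] at n1 n2 fc e0 b1 b2 b3 b4 ⊢
  clear R K hr hc gr gc fr rot hb
  rcases unit u1 with ⟨rfl, rfl⟩ | ⟨rfl, rfl⟩ | ⟨rfl, rfl⟩ | ⟨rfl, rfl⟩ <;>
    rcases unit u2 with ⟨rfl, rfl⟩ | ⟨rfl, rfl⟩ | ⟨rfl, rfl⟩ | ⟨rfl, rfl⟩ <;>
    clear u1 u2 <;>
    first
    | (clear f0 f1 f2 f3 r1 r2 fc b1 b2 b3 b4; omega)
    | (clear n1 n2 f2 f3 r1 r2; omega)
    | (have hab : a = b := by clear f0 f1 f2 f3 r1 r2 fc n1 n2; omega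
       subst hab
       have g2 := f2 (by omega) (by omega)
       have g3 := f3 (by omega) (by omega)
       have s1 := r1 (by omega) (by omega) (by omega) (by omega)
       have s2 := r2 (by omega) (by omega) (by omega) (by omega)
       clear n1 n2 f1 f2 f3 r1 r2 fc
       omega)

theorem Inv.line (h : Inv G σ) {x0 x1 x2 y : ℤ}
    (hG : ∀ x y', x1 ≤ x → x ≤ x2 → y - 1 ≤ y' → y' ≤ y + 1 → G (x, y')) (h1 : x1 ≤ x0)
    (h2 : x0 + 1 ≤ x2) (e1 : σ (x0, y) = (-x0, -y)) (e2 : σ (x0 + 1, y) = (-(x0 + 1), -y)) :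
    ∀ x, x1 ≤ x → x ≤ x2 → σ (x, y) = (-x, -y) := by
  obtain ⟨α, β, γ, δ, R⟩ := h.row hG
  rw [R _ (by omega) (by omega)] at e1 e2
  simp only [Prod.ext_iff, mul_add, mul_one] at e1 e2
  obtain rfl : β = -1 := by omega
  obtain rfl : δ = 0 := by omega
  intro x a b
  rw [R x a b]
  simp only [Prod.ext_iff]
  omega

theorem mem_board {a b : ℕ} {v : C} :
    v ∈ board a b ↔ -(a : ℤ) ≤ v.1 ∧ v.1 ≤ a ∧ -(b : ℤ) ≤ v.2 ∧ v.2 ≤ b := by
  simp only [board, Finset.mem_product, Finset.mem_Icc, and_assoc]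

variable {F : Finset C} {r : Finset C → Finset C} {a b : ℕ}

theorem Good.bound (hF : F ⊆ board a b) {v : C} (hv : Good F r v) :
    -(a : ℤ) < v.1 ∧ v.1 < a ∧ -(b : ℤ) < v.2 ∧ v.2 < b := by
  have h1 := mem_board.1 (hF (hv.2 (v.1 + 1, v.2) (by simp [Adj])).1)
  have h2 := mem_board.1 (hF (hv.2 (v.1 - 1, v.2) (by simp [Adj])).1)
  have h3 := mem_board.1 (hF (hv.2 (v.1, v.2 + 1) (by simp [Adj])).1)
  have h4 := mem_board.1 (hF (hv.2 (v.1, v.2 - 1) (by simp [Adj])).1)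
  simp only at h1 h2 h3 h4
  omega

theorem Rep.good (h : Rep F r) (hF : F ⊆ board a b) {x y : ℤ}
    (hv : -(a : ℤ) < x ∧ x < a ∧ -(b : ℤ) < y ∧ y < b)
    (hc : (-(a : ℤ) + 1 < x ∧ x < a - 1) ∨ (-(b : ℤ) + 1 < y ∧ y < b - 1))
    (hf : ∀ u ∈ board a b, x - 3 ≤ u.1 → u.1 ≤ x + 3 → y - 3 ≤ u.2 → u.2 ≤ y + 3 → u ∈ F) :
    Good F r (x, y) := by
  have h0 : (x, y) ∈ F :=
    hf _ (mem_board.2 (by simp only; omega)) (by simp) (by simp) (by simp) (by simp)
  refine ⟨h0, fun w hw => ?_⟩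
  have hw' := hw
  simp only [Adj] at hw'
  have h1 : w ∈ F :=
    hf _ (mem_board.2 (by omega)) (by omega) (by omega) (by omega) (by omega)
  refine ⟨h1, h.rr (legal_pair hw h0 h1) fun w' hm c hc' hcF z z' a1 a2 n1 n2 => ?_⟩
  have hcb := mem_board.1 (hF hcF)
  have near : x - 2 ≤ c.1 ∧ c.1 ≤ x + 2 ∧ y - 2 ≤ c.2 ∧ c.2 ≤ y + 2 ∧
      ((-(a : ℤ) < c.1 ∧ c.1 < a) ∨ (-(b : ℤ) < c.2 ∧ c.2 < b)) := by
    simp only [Finset.mem_insert, Finset.mem_singleton] at hm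
    rcases hm with rfl | rfl <;> simp only [Adj] at hc' <;> omega
  have off : ∀ z, Adj c z → z ∉ F → ¬ (-(a : ℤ) ≤ z.1 ∧ z.1 ≤ a ∧ -(b : ℤ) ≤ z.2 ∧ z.2 ≤ b) :=
    fun z hz hn hb => by
      simp only [Adj] at hz
      exact hn (hf z (mem_board.2 hb) (by omega) (by omega) (by omega) (by omega))
  have o1 := off z a1 n1
  have o2 := off z' a2 n2
  clear hw' hc' off hf
  rcases a1.cases with rfl | rfl | rfl | rfl <;> rcases a2.cases with rfl | rfl | rfl | rfl <;>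
    first | rfl | (exfalso; simp only at o1 o2; omega)

end Pool.Agent.P.MP_c5202f_co
end

-- part Pool.Agent.P.MP_c5202f_co.Thin
section

/-! On a long block of empty columns the replies are given by an isometry of the strip. -/

namespace Pool.Agent.P.MP_c5202f_co

theorem adj_mk {x y x' y' : ℤ} : Adj (x, y) (x', y') ↔
    (x = x' ∧ (y = y' + 1 ∨ y' = y + 1)) ∨ (y = y' ∧ (x = x' + 1 ∨ x' = x + 1)) := Iff.rfl

structure Blk (F : Finset C) (b x1 x2 : ℤ) : Prop where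
  b1 : 1 ≤ b
  row : ∀ u ∈ F, -b ≤ u.2 ∧ u.2 ≤ b
  fr : ∀ u : C, x1 ≤ u.1 → u.1 ≤ x2 → -b ≤ u.2 → u.2 ≤ b → u ∈ F

variable {F : Finset C} {r : Finset C → Finset C} {b x1 x2 : ℤ}

theorem Blk.rr (B : Blk F b x1 x2) (h : Rep F r) {u v : C} (ha : Adj u v) (hu : u ∈ F)
    (hv : v ∈ F) (h1 : x1 + 3 ≤ u.1) (h2 : u.1 + 3 ≤ x2) : r (r {u, v}) = {u, v} := by
  refine h.rr (legal_pair ha hu hv) fun w hw c hc hcF z z' a1 a2 n1 n2 => ?_
  have b1 := B.b1
  have hcb := B.row c hcF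
  have near : x1 + 1 ≤ c.1 ∧ c.1 + 1 ≤ x2 := by
    simp only [Finset.mem_insert, Finset.mem_singleton] at hw
    rcases hw with rfl | rfl <;> simp only [Adj] at hc ha <;> omega
  have off : ∀ z, Adj c z → z ∉ F → ¬ (-b ≤ z.2 ∧ z.2 ≤ b) := fun z hz hn hb => by
    simp only [Adj] at hz
    exact hn (B.fr z (by omega) (by omega) hb.1 hb.2)
  have o1 := off z a1 n1
  have o2 := off z' a2 n2
  clear hc off ha
  rcases a1.cases with rfl | rfl | rfl | rfl <;> rcases a2.cases with rfl | rfl | rfl | rfl <;>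
    first | rfl | (exfalso; simp only at o1 o2; omega)

theorem Rep.meet2 (h : Rep F r) {v w w' : C} (hw : Adj v w) (hw' : Adj v w') (m : v ∈ F)
    (m1 : w ∈ F) (m2 : w' ∈ F) (e : r (r {v, w}) = {v, w}) :
    w' ∈ r {v, w} ∨ ∃ p, p ∈ r {v, w} ∧ p ∈ r {v, w'} := by
  by_contra hc
  push Not at hc
  obtain ⟨hg, hdg⟩ := h.one _ (legal_pair hw m m1)
  have d1 : Disjoint (r {v, w}) {v, w'} := by
    simp only [Finset.disjoint_insert_right, Finset.disjoint_singleton_right]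
    exact ⟨fun hh => Finset.disjoint_left.1 hdg (by simp) hh, hc.1⟩
  have k := (h.two _ _ (legal_pair hw' m m2) hg d1 (Finset.disjoint_left.2 hc.2)).1
  rw [e] at k
  exact dis k v (by simp) (by simp)

theorem Rep.sur (h : Rep F r) {v p q : C} (hv : Good F r v) (hp : ∀ w, Adj v w → p ∈ r {v, w})
    (hq : Adj p q) : q ∈ F := by
  have k : ∀ w, Adj v w → ∃ b, Adj p b ∧ p ∈ F ∧ b ∈ F ∧ r {v, w} = {p, b} :=
    fun w hw => (h.one _ (hv.leg hw)).1.at (hp w hw)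
  have a1 : Adj v (v.1 + 1, v.2) := by simp [Adj]
  have a2 : Adj v (v.1 - 1, v.2) := by simp [Adj]
  obtain ⟨w3, w4, a3, a4, n31, n32, n41, n42, n34⟩ :=
    others a1 a2 (by rw [ne_iff]; simp only; omega)
  obtain ⟨q1, b1, -, c1, e1⟩ := k _ a1
  obtain ⟨q2, b2, -, c2, e2⟩ := k _ a2
  obtain ⟨q3, b3, -, c3, e3⟩ := k _ a3
  obtain ⟨q4, b4, -, c4, e4⟩ := k _ a4
  have n : ∀ {w w' q q' : C}, Adj v w → Adj v w' → w ≠ w' → r {v, w} = {p, q} →
      r {v, w'} = {p, q'} → q ≠ q' := fun x y z e e' hq =>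
    z (hv.inj x y (by rw [e, e', hq]))
  rcases four hq b1 b2 b3 b4 (n a1 a2 (by rw [ne_iff]; simp only; omega) e1 e2)
    (n a1 a3 n31.symm e1 e3) (n a1 a4 n41.symm e1 e4) (n a2 a3 n32.symm e2 e3)
    (n a2 a4 n42.symm e2 e4) (n a3 a4 n34 e3 e4) with rfl | rfl | rfl | rfl
  exacts [c1, c2, c3, c4]

theorem tri {d1 d2 d3 : Finset C} (l1 : Legal F d1) (l2 : Legal F d2) (l3 : Legal F d3)
    (n : d1 ≠ d2) {p x y : C} (p1 : p ∈ d1) (p2 : p ∈ d2) (x1 : x ∈ d1) (x3 : x ∈ d3)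
    (y2 : y ∈ d2) (y3 : y ∈ d3) : p ∈ d3 := by
  by_contra hc
  have hx : p ≠ x := fun e => hc (e ▸ x3)
  have hy : p ≠ y := fun e => hc (e ▸ y3)
  have ex := l1.eq_pair p1 x1 hx
  have ey := l2.eq_pair p2 y2 hy
  have := l3.par x3 y3 ex.1 ey.1
  subst this
  exact n (ex.2.trans ey.2.symm)

theorem Blk.good (B : Blk F b x1 x2) (h : Rep F r) {v : C} (h1 : x1 + 3 ≤ v.1)
    (h2 : v.1 + 3 ≤ x2) (h3 : -b < v.2) (h4 : v.2 < b) : Good F r v := by
  have m := B.fr v (by omega) (by omega) (by omega) (by omega)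
  refine ⟨m, fun w hw => ?_⟩
  have m' : w ∈ F := by
    simp only [Adj] at hw
    exact B.fr w (by omega) (by omega) (by omega) (by omega)
  exact ⟨m', B.rr h hw m m' h1 h2⟩

theorem Blk.star3 (B : Blk F b x1 x2) (h : Rep F r) {x θ : ℤ} (h1 : x1 + 3 ≤ x) (h2 : x + 3 ≤ x2)
    (hθ : θ = 1 ∨ θ = -1) : ∃ p, ∀ w, Adj (x, θ * b) w → w ∈ F → p ∈ r {(x, θ * b), w} := by
  have b1 := B.b1
  have tb : θ * b = b ∨ θ * b = -b := by rcases hθ with rfl | rfl <;> simp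
  have tb' : (θ = 1 ∧ θ * b = b) ∨ (θ = -1 ∧ θ * b = -b) := by rcases hθ with rfl | rfl <;> simp
  generalize θ * b = y at *
  have mv : (x, y) ∈ F := B.fr _ (by simp only; omega) (by simp only; omega)
    (by simp only; omega) (by simp only; omega)
  have ad : Adj (x, y) (x, y - θ) := adj_mk.2 (by omega)
  have gd : Good F r (x, y - θ) := B.good h h1 h2 (by simp only; omega) (by simp only; omega)
  have ld := h.one _ (legal_pair ad mv gd.1)
  obtain ⟨t, ht⟩ := h.common gd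
  have tF : (t.1, t.2 + θ) ∈ F := h.sur gd ht (adj_mk.2 (by omega))
  have tr := B.row _ tF
  have td : t ∈ r {(x, y), (x, y - θ)} := by rw [Finset.pair_comm]; exact ht _ ad.symm
  have side : ∀ e : ℤ, e = 1 ∨ e = -1 → Adj (x, y) (x + e, y) ∧ (x + e, y) ∈ F ∧
      ∃ p, p ∈ r {(x, y), (x, y - θ)} ∧ p ∈ r {(x, y), (x + e, y)} := by
    intro e he
    have ae : Adj (x, y) (x + e, y) := adj_mk.2 (by omega)
    have me : (x + e, y) ∈ F := B.fr _ (by simp only; omega) (by simp only; omega)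
      (by simp only; omega) (by simp only; omega)
    refine ⟨ae, me, (h.meet2 ad ae mv gd.1 me (B.rr h ad mv gd.1 h1 h2)).resolve_left fun k => ?_⟩
    have k1 := (ld.1.eq_pair td k (by rw [ne_iff]; simp only at tr ⊢; omega)).1
    have k2 := B.row _ (ld.1.1 td)
    have k3 : t = (x + e, y - θ) := by
      simp only [Adj] at k1 tr
      exact cext (by simp only; omega) (by simp only; omega)
    have a3 : Adj (x, y - θ) t := by rw [k3]; exact adj_mk.2 (by omega)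
    exact dis (h.one _ (gd.leg a3)).2 t (by simp) (ht t a3)
  obtain ⟨a1, m1, p1, q1, r1⟩ := side 1 (Or.inl rfl)
  obtain ⟨a2, m2, p2, q2, r2⟩ := side (-1) (Or.inr rfl)
  have l1 := h.one _ (legal_pair a1 mv m1)
  have l2 := h.one _ (legal_pair a2 mv m2)
  have e1 := B.rr h a1 mv m1 h1 h2
  have e2 := B.rr h a2 mv m2 h1 h2
  obtain ⟨p, k1, k2⟩ : ∃ p, p ∈ r {(x, y), (x + 1, y)} ∧ p ∈ r {(x, y), (x + -1, y)} := by
    by_contra hc
    have u1 := (h.meet2 a1 a2 mv m1 m2 e1).resolve_right hc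
    have u2 := (h.meet2 a2 a1 mv m2 m1 e2).resolve_right fun ⟨p, a, c⟩ => hc ⟨p, c, a⟩
    have col : ∀ {d : Finset C} {s z : C}, Legal F d → (x, y) ∉ d → s ∈ d → z ∈ d → s.2 = y →
        (s.1 = x + 1 → x + 1 ≤ z.1) ∧ (s.1 = x - 1 → z.1 ≤ x - 1) := by
      intro d s z hd n hs hz sy
      by_cases k : s = z
      · subst k; omega
      · have k1 := (hd.eq_pair hs hz k).1
        have k2 : z ≠ (x, y) := fun e => n (e ▸ hz)
        simp only [Adj, ne_iff] at k1 k2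
        omega
    have c1 := (col l1.1 (fun k => dis l1.2 _ (by simp) k) u1 r1 rfl).2 (by simp only; omega)
    have c2 := (col l2.1 (fun k => dis l2.2 _ (by simp) k) u2 r2 rfl).1 rfl
    have := (ld.1.eq_pair q1 q2 (by rw [ne_iff]; omega)).1
    simp only [Adj] at this
    omega
  have n12 : r {(x, y), (x + 1, y)} ≠ r {(x, y), (x + -1, y)} := fun e => by
    rw [e, e2] at e1
    have : ((x + 1, y) : C) ∈ ({(x, y), (x + -1, y)} : Finset C) := by rw [e1]; simp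
    simp only [Finset.mem_insert, Finset.mem_singleton, Prod.ext_iff] at this
    omega
  refine ⟨p, fun w hw hwF => ?_⟩
  have wr := B.row _ hwF
  have : w = (x + 1, y) ∨ w = (x + -1, y) ∨ w = (x, y - θ) := by
    simp only [Adj, Prod.ext_iff] at hw ⊢
    omega
  rcases this with rfl | rfl | rfl
  exacts [k1, k2, tri l1.1 l2.1 ld.1 n12 k1 k2 r1 q1 r2 q2]

theorem Blk.star (B : Blk F b x1 x2) (h : Rep F r) {v : C} (h1 : x1 + 3 ≤ v.1)
    (h2 : v.1 + 3 ≤ x2) (h3 : -b ≤ v.2) (h4 : v.2 ≤ b) :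
    ∃ p, ∀ w, Adj v w → w ∈ F → p ∈ r {v, w} := by
  obtain ⟨x, y⟩ := v
  simp only at h1 h2 h3 h4
  rcases h4.eq_or_lt with rfl | h4
  · simpa using B.star3 h h1 h2 (Or.inl rfl)
  rcases h3.eq_or_lt with rfl | h3
  · simpa using B.star3 h h1 h2 (Or.inr rfl)
  exact (h.common (B.good h h1 h2 h3 h4)).imp fun p hp w hw _ => hp w hw

def Inn (b x1 x2 : ℤ) (v : C) : Prop := x1 ≤ v.1 ∧ v.1 ≤ x2 ∧ -b ≤ v.2 ∧ v.2 ≤ b

theorem Blk.nb3 (B : Blk F b x1 x2) {v : C} (hv : Inn b (x1 + 3) (x2 - 3) v) :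
    ∃ w1 w2 w3, (Adj v w1 ∧ w1 ∈ F) ∧ (Adj v w2 ∧ w2 ∈ F) ∧ (Adj v w3 ∧ w3 ∈ F) ∧
      w1 ≠ w2 ∧ w1 ≠ w3 ∧ w2 ≠ w3 := by
  obtain ⟨x, y⟩ := v
  have b1 := B.b1
  simp only [Inn] at hv
  obtain ⟨y', k⟩ : ∃ y', (y' = y + 1 ∨ y = y' + 1) ∧ -b ≤ y' ∧ y' ≤ b := by
    by_cases k : y = b
    exacts [⟨y - 1, by omega⟩, ⟨y + 1, by omega⟩]
  refine ⟨(x + 1, y), (x - 1, y), (x, y'), ⟨adj_mk.2 ?_, B.fr _ ?_ ?_ ?_ ?_⟩,
    ⟨adj_mk.2 ?_, B.fr _ ?_ ?_ ?_ ?_⟩, ⟨adj_mk.2 ?_, B.fr _ ?_ ?_ ?_ ?_⟩, ?_, ?_, ?_⟩ <;>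
  first | omega | (simp only [ne_iff]; omega)

theorem Blk.tau (B : Blk F b x1 x2) (h : Rep F r) : ∃ τ : C → C,
    (∀ u v, Inn b (x1 + 3) (x2 - 3) u → Inn b (x1 + 3) (x2 - 3) v → u ≠ v → τ u ≠ τ v) ∧
    (∀ u v, Inn b (x1 + 3) (x2 - 3) u → Inn b (x1 + 3) (x2 - 3) v → Adj u v →
      Adj (τ u) (τ v) ∧ r {u, v} = {τ u, τ v}) := by
  have h0 : ∀ v, ∃ p, Inn b (x1 + 3) (x2 - 3) v → ∀ w, Adj v w → w ∈ F → p ∈ r {v, w} :=
    fun v => by
      by_cases hv : Inn b (x1 + 3) (x2 - 3) v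
      · exact (B.star h hv.1 (by have := hv.2.1; omega) hv.2.2.1 hv.2.2.2).imp fun p hp _ => hp
      · exact ⟨v, fun hh => absurd hh hv⟩
  choose τ hτ using h0
  have mem : ∀ v, Inn b (x1 + 3) (x2 - 3) v → v ∈ F := fun v hv =>
    B.fr v (by have := hv.1; omega) (by have := hv.2.1; omega) hv.2.2.1 hv.2.2.2
  have inj : ∀ u v, Inn b (x1 + 3) (x2 - 3) u → Inn b (x1 + 3) (x2 - 3) v → u ≠ v → τ u ≠ τ v := by
    intro u v hu hv n e
    have k : ∀ z w, Inn b (x1 + 3) (x2 - 3) z → τ z = τ v → Adj z w ∧ w ∈ F →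
        ∃ q, Adj (τ v) q ∧ r {τ v, q} = {z, w} := by
      intro z w hz ez hw
      obtain ⟨q, a, -, -, e'⟩ := (h.one _ (legal_pair hw.1 (mem z hz) hw.2)).1.at
        (ez ▸ hτ z hz w hw.1 hw.2)
      exact ⟨q, a, by rw [← e']; exact B.rr h hw.1 (mem z hz) hw.2 hz.1 (by have := hz.2.1; omega)⟩
    obtain ⟨a1, a2, a3, c1, c2, c3, n12, n13, n23⟩ := B.nb3 hu
    obtain ⟨a4, a5, c4, c5, n45, n4, n5⟩ : ∃ w w', (Adj v w ∧ w ∈ F) ∧ (Adj v w' ∧ w' ∈ F) ∧
        w ≠ w' ∧ u ≠ w ∧ u ≠ w' := by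
      obtain ⟨w1, w2, w3, d1, d2, d3, m12, m13, m23⟩ := B.nb3 hv
      by_cases k1 : u = w1
      · exact ⟨w2, w3, d2, d3, m23, k1 ▸ m12, k1 ▸ m13⟩
      by_cases k2 : u = w2
      · exact ⟨w1, w3, d1, d3, m13, k1, k2 ▸ m23⟩
      · exact ⟨w1, w2, d1, d2, m12, k1, k2⟩
    obtain ⟨q1, b1, e1⟩ := k u a1 hu e c1
    obtain ⟨q2, b2, e2⟩ := k u a2 hu e c2
    obtain ⟨q3, b3, e3⟩ := k u a3 hu e c3
    obtain ⟨q4, b4, e4⟩ := k v a4 hv rfl c4
    obtain ⟨q5, b5, e5⟩ := k v a5 hv rfl c5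
    have s1 : ∀ {z w w' q q' : C}, Adj z w → w ≠ w' → r {τ v, q} = {z, w} →
        r {τ v, q'} = {z, w'} → q ≠ q' := by
      rintro z w w' q _ a m f f' rfl
      have : w ∈ ({z, w'} : Finset C) := by rw [← f', f]; simp
      simp only [Finset.mem_insert, Finset.mem_singleton] at this
      rcases this with rfl | rfl
      · unfold Adj at a; omega
      · exact m rfl
    have s2 : ∀ {w w' q q' : C}, u ≠ w' → r {τ v, q} = {u, w} → r {τ v, q'} = {v, w'} →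
        q ≠ q' := by
      rintro w w' q _ m f f' rfl
      have : u ∈ ({v, w'} : Finset C) := by rw [← f', f]; simp
      simp only [Finset.mem_insert, Finset.mem_singleton] at this
      exact this.elim n m
    rcases four b5 b1 b2 b3 b4 (s1 c1.1 n12 e1 e2) (s1 c1.1 n13 e1 e3) (s2 n4 e1 e4)
      (s1 c2.1 n23 e2 e3) (s2 n4 e2 e4) (s2 n4 e3 e4) with f | f | f | f
    exacts [s2 n5 e1 e5 f.symm, s2 n5 e2 e5 f.symm, s2 n5 e3 e5 f.symm, s1 c4.1 n45 e4 e5 f.symm]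
  refine ⟨τ, inj, fun u v hu hv a => (h.one _ (legal_pair a (mem u hu) (mem v hv))).1.eq_pair
    (hτ u hu v a (mem v hv)) ?_ (inj u v hu hv ?_)⟩
  · rw [Finset.pair_comm]; exact hτ v hv u a.symm (mem u hu)
  · rintro rfl; unfold Adj at a; omega

theorem opp3 {p x x' e : C} (h1 : Adj p x) (h2 : Adj p x') (h3 : Adj p e) (n1 : x ≠ x')
    (n2 : x ≠ e) (n3 : x' ≠ e) (m1 : ¬ (x.1 + e.1 = 2 * p.1 ∧ x.2 + e.2 = 2 * p.2))
    (m2 : ¬ (x'.1 + e.1 = 2 * p.1 ∧ x'.2 + e.2 = 2 * p.2)) :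
    x.1 + x'.1 = 2 * p.1 ∧ x.2 + x'.2 = 2 * p.2 := by
  rcases h1.cases with rfl | rfl | rfl | rfl <;> rcases h2.cases with rfl | rfl | rfl | rfl <;>
    rcases h3.cases with rfl | rfl | rfl | rfl <;>
    simp only [ne_iff] at n1 n2 n3 m1 m2 ⊢ <;> omega

theorem affine {τ : C → C} (b1 : 1 ≤ b) (hx : x1 + 2 * b + 2 < x2)
    (inj : ∀ u v, Inn b x1 x2 u → Inn b x1 x2 v → u ≠ v → τ u ≠ τ v)
    (adj : ∀ u v, Inn b x1 x2 u → Inn b x1 x2 v → Adj u v → Adj (τ u) (τ v))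
    (bd : ∀ v, Inn b x1 x2 v → -b ≤ (τ v).2 ∧ (τ v).2 ≤ b) :
    ∃ α ε η : ℤ, (ε = 1 ∨ ε = -1) ∧ (η = 1 ∨ η = -1) ∧
      ∀ x y, x1 < x → x < x2 → -b ≤ y → y ≤ b → τ (x, y) = (α + ε * x, η * y) := by
  have st : ∀ v x x' e c c', Inn b x1 x2 v → Inn b x1 x2 x → Inn b x1 x2 x' → Inn b x1 x2 e →
      Inn b x1 x2 c → Inn b x1 x2 c' → Adj v x → Adj v x' → Adj v e → Adj c x → Adj c e →
      Adj c' x' → Adj c' e → x ≠ x' → x ≠ e → x' ≠ e → v ≠ c → v ≠ c' →
      (τ x).1 + (τ x').1 = 2 * (τ v).1 ∧ (τ x).2 + (τ x').2 = 2 * (τ v).2 := by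
    intro v x x' e c c' gv gx gx' ge gc gc' a1 a2 a3 a4 a5 a6 a7 n1 n2 n3 n4 n5
    have p1 := par4 (adj _ _ gv gx a1) (adj _ _ gv ge a3) (adj _ _ gc gx a4) (adj _ _ gc ge a5)
      (inj _ _ gx ge n2) (inj _ _ gv gc n4)
    have p2 := par4 (adj _ _ gv gx' a2) (adj _ _ gv ge a3) (adj _ _ gc' gx' a6)
      (adj _ _ gc' ge a7) (inj _ _ gx' ge n3) (inj _ _ gv gc' n5)
    have q1 := ne_iff.1 (inj _ _ gv gc n4)
    have q2 := ne_iff.1 (inj _ _ gv gc' n5)
    exact opp3 (adj _ _ gv gx a1) (adj _ _ gv gx' a2) (adj _ _ gv ge a3) (inj _ _ gx gx' n1)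
      (inj _ _ gx ge n2) (inj _ _ gx' ge n3) (by omega) (by omega)
  have row : ∀ y, y = 0 ∨ y = 1 → ∃ α β γ : ℤ, (β = 1 ∨ β = -1) ∧
      ∀ x, x1 ≤ x → x ≤ x2 → τ (x, y) = (α + β * x, γ) := by
    intro y hy
    have s : ∀ x, x1 < x → x < x2 →
        (τ (x + 1, y)).1 + (τ (x - 1, y)).1 = 2 * (τ (x, y)).1 ∧
        (τ (x + 1, y)).2 + (τ (x - 1, y)).2 = 2 * (τ (x, y)).2 := by
      intro x h1 h2
      refine st _ _ _ (x, y - 1) (x + 1, y - 1) (x - 1, y - 1) ?_ ?_ ?_ ?_ ?_ ?_ ?_ ?_ ?_ ?_ ?_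
        ?_ ?_ ?_ ?_ ?_ ?_ ?_ <;>
      first | exact adj_mk.2 (by omega) | (simp only [ne_iff, Inn]; omega)
    obtain ⟨α, β, h1⟩ := lin (fun x => (τ (x, y)).1) x1 x2 fun x a b => (s x a b).1
    obtain ⟨γ, δ, h2⟩ := lin (fun x => (τ (x, y)).2) x1 x2 fun x a b => (s x a b).2
    have R : ∀ x, x1 ≤ x → x ≤ x2 → τ (x, y) = (α + β * x, γ + δ * x) :=
      fun x a b => cext (h1 x a b) (h2 x a b)
    have u := adj (x1, y) (x1 + 1, y) (by simp only [Inn]; omega) (by simp only [Inn]; omega)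
      (adj_mk.2 (by omega))
    have k1 := bd (x1, y) (by simp only [Inn]; omega)
    have k2 := bd (x2, y) (by simp only [Inn]; omega)
    rw [R _ (by omega) (by omega)] at u k1 k2
    rw [R _ (by omega) (by omega)] at u
    rcases unit u with ⟨rfl, rfl⟩ | ⟨rfl, rfl⟩ | ⟨rfl, rfl⟩ | ⟨rfl, rfl⟩
    · exact ⟨α, 1, γ, Or.inl rfl, by simpa using R⟩
    · exact ⟨α, -1, γ, Or.inr rfl, by simpa using R⟩
    · simp only at k1 k2; omega
    · simp only at k1 k2; omega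
  obtain ⟨α, ε, γ, hε, R0⟩ := row 0 (Or.inl rfl)
  obtain ⟨α', ε', η, -, R1⟩ := row 1 (Or.inr rfl)
  have col : ∀ x, x1 < x → x < x2 → (η = 1 ∨ η = -1) ∧
      ∀ y, -b ≤ y → y ≤ b → τ (x, y) = (α + ε * x, η * y) := by
    intro x g1 g2
    have s : ∀ y, -b < y → y < b →
        (τ (x, y + 1)).1 + (τ (x, y - 1)).1 = 2 * (τ (x, y)).1 ∧
        (τ (x, y + 1)).2 + (τ (x, y - 1)).2 = 2 * (τ (x, y)).2 := by
      intro y h1 h2
      refine st _ _ _ (x + 1, y) (x + 1, y + 1) (x + 1, y - 1) ?_ ?_ ?_ ?_ ?_ ?_ ?_ ?_ ?_ ?_ ?_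
        ?_ ?_ ?_ ?_ ?_ ?_ ?_ <;>
      first | exact adj_mk.2 (by omega) | (simp only [ne_iff, Inn]; omega)
    obtain ⟨α1, β, h1⟩ := lin (fun y => (τ (x, y)).1) (-b) b fun x a b => (s x a b).1
    obtain ⟨γ1, δ, h2⟩ := lin (fun y => (τ (x, y)).2) (-b) b fun x a b => (s x a b).2
    have K : ∀ y, -b ≤ y → y ≤ b → τ (x, y) = (α1 + β * y, γ1 + δ * y) :=
      fun x a b => cext (h1 x a b) (h2 x a b)
    have u := adj (x, 0) (x, 0 + 1) (by simp only [Inn]; omega) (by simp only [Inn]; omega)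
      (adj_mk.2 (by omega))
    have k1 := bd (x, b) (by simp only [Inn]; omega)
    have k2 := bd (x, -b) (by simp only [Inn]; omega)
    have n1 := inj (x, 1) (x + 1, 0) (by simp only [Inn]; omega) (by simp only [Inn]; omega)
      (by simp)
    have n2 := inj (x, 1) (x - 1, 0) (by simp only [Inn]; omega) (by simp only [Inn]; omega)
      (by simp)
    have e0 := (K 0 (by omega) (by omega)).symm.trans (R0 x (by omega) (by omega))
    have e1 := (K 1 (by omega) (by omega)).symm.trans (R1 x (by omega) (by omega))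
    rw [K _ (by omega) (by omega)] at u k1 k2
    rw [K _ (by omega) (by omega)] at u
    rw [K _ (by omega) (by omega), R0 _ (by omega) (by omega)] at n1 n2
    simp only [ne_iff, Prod.ext_iff] at n1 n2 e0 e1 k1 k2
    have fin : β = 0 ∧ (η = 1 ∨ η = -1) ∧ δ = η ∧ γ1 = 0 ∧ α1 = α + ε * x := by
      rcases hε with rfl | rfl <;>
        rcases unit u with ⟨rfl, rfl⟩ | ⟨rfl, rfl⟩ | ⟨rfl, rfl⟩ | ⟨rfl, rfl⟩ <;> omega
    obtain ⟨rfl, k, rfl, rfl, rfl⟩ := fin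
    exact ⟨k, by simpa using K⟩
  exact ⟨α, ε, η, hε, (col (x1 + 1) (by omega) (by omega)).1,
    fun x y a c d e => (col x a c).2 y d e⟩

/-- the local form of the replies -/
theorem Blk.loc {c : ℤ} (B : Blk F b (c - (b + 16)) (c + (b + 16))) (h : Rep F r) :
    ∃ c' ε η : ℤ, (ε = 1 ∨ ε = -1) ∧ (η = 1 ∨ η = -1) ∧ (c' + 9 ≤ c ∨ c + 9 ≤ c') ∧
      ∀ i y i' y', Adj (i, y) (i', y') → -2 ≤ i → i ≤ 2 → -2 ≤ i' → i' ≤ 2 → -b ≤ y → y ≤ b →
        -b ≤ y' → y' ≤ b → r {(c + i, y), (c + i', y')} = {(c' + ε * i, η * y), (c' + ε * i', η * y')} ∧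
        r {(c' + ε * i, η * y), (c' + ε * i', η * y')} = {(c + i, y), (c + i', y')} ∧
        (c' + ε * i, η * y) ∈ F := by
  have b1 := B.b1
  obtain ⟨τ, inj, pr⟩ := B.tau h
  have leg : ∀ u v, Inn b (c - (b + 16) + 3) (c + (b + 16) - 3) u →
      Inn b (c - (b + 16) + 3) (c + (b + 16) - 3) v → Adj u v →
      (Legal F (r {u, v}) ∧ Disjoint {u, v} (r {u, v})) ∧ r (r {u, v}) = {u, v} := by
    intro u v hu hv a
    simp only [Inn] at hu hv
    have m1 := B.fr u (by omega) (by omega) (by omega) (by omega)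
    have m2 := B.fr v (by omega) (by omega) (by omega) (by omega)
    exact ⟨h.one _ (legal_pair a m1 m2), B.rr h a m1 m2 (by omega) (by omega)⟩
  obtain ⟨α, ε, η, hε, hη, T⟩ := affine b1 (by omega) inj (fun u v a c d => (pr u v a c d).1) (by
    rintro ⟨x, y⟩ hv
    obtain ⟨x', k⟩ : ∃ x', (x' = x + 1 ∨ x = x' + 1) ∧ c - (b + 16) + 3 ≤ x' ∧
        x' ≤ c + (b + 16) - 3 := by
      simp only [Inn] at hv
      by_cases k : x ≤ c
      exacts [⟨x + 1, by omega⟩, ⟨x - 1, by omega⟩]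
    have hv' : Inn b (c - (b + 16) + 3) (c + (b + 16) - 3) (x', y) := ⟨k.2.1, k.2.2, hv.2.2⟩
    have a : Adj (x, y) (x', y) := adj_mk.2 (by omega)
    exact B.row _ ((leg _ _ hv hv' a).1.1.1 (by rw [(pr _ _ hv hv' a).2]; simp)))
  have key : ∀ x y x' y', Adj (x, y) (x', y') → c - 12 ≤ x → x ≤ c + 12 → c - 12 ≤ x' →
      x' ≤ c + 12 → -b ≤ y → y ≤ b → -b ≤ y' → y' ≤ b →
      r {(x, y), (x', y')} = {(α + ε * x, η * y), (α + ε * x', η * y')} ∧
      r {(α + ε * x, η * y), (α + ε * x', η * y')} = {(x, y), (x', y')} ∧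
      (α + ε * x, η * y) ∈ F ∧ (α + ε * x, η * y) ∉ ({(x, y), (x', y')} : Finset C) := by
    intro x y x' y' a h1 h2 h3 h4 h5 h6 h7 h8
    have u : Inn b (c - (b + 16) + 3) (c + (b + 16) - 3) (x, y) := by simp only [Inn]; omega
    have v : Inn b (c - (b + 16) + 3) (c + (b + 16) - 3) (x', y') := by simp only [Inn]; omega
    have e := (pr _ _ u v a).2
    rw [T _ _ (by omega) (by omega) h5 h6, T _ _ (by omega) (by omega) h7 h8] at e
    have l := leg _ _ u v a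
    rw [e] at l
    exact ⟨e, l.2, l.1.1.1 (by simp), fun k => dis l.1.2 _ k (by simp)⟩
  have hor : ∀ x, c - 12 ≤ x → x + 1 ≤ c + 12 →
      r {(x, 0), (x + 1, 0)} = {(α + ε * x, 0), (α + ε * (x + 1), 0)} ∧
      r {(α + ε * x, 0), (α + ε * (x + 1), 0)} = {(x, 0), (x + 1, 0)} ∧
      α + ε * x ≠ x ∧ α + ε * x ≠ x + 1 := by
    intro x h1 h2
    have := key x 0 (x + 1) 0 (adj_mk.2 (by omega)) (by omega) (by omega) (by omega) (by omega)
      (by omega) (by omega) (by omega) (by omega)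
    simp only [mul_zero, Finset.mem_insert, Finset.mem_singleton, Prod.ext_iff, and_true,
      not_or] at this
    exact ⟨this.1, this.2.1, this.2.2.2⟩
  refine ⟨α + ε * c, ε, η, hε, hη, ?_, fun i y i' y' a h1 h2 h3 h4 h5 h6 h7 h8 => ?_⟩
  · by_contra hc
    rcases hε with rfl | rfl
    · have k1 := hor c (by omega) (by omega)
      have k2 := (hor (α + c) (by omega) (by omega)).1
      simp only [one_mul, ← add_assoc] at k1 k2
      have : ((c, 0) : C) ∈ ({(α + α + c, 0), (α + α + c + 1, 0)} : Finset C) := by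
        rw [← k2, k1.2.1]; simp
      have k3 : ((c + 1, 0) : C) ∈ ({(α + α + c, 0), (α + α + c + 1, 0)} : Finset C) := by
        rw [← k2, k1.2.1]; simp
      simp only [Finset.mem_insert, Finset.mem_singleton, Prod.ext_iff] at this k3
      omega
    · have := (hor (α / 2) (by omega) (by omega)).2.2
      omega
  · have := key (c + i) y (c + i') y' (by simp only [adj_mk] at a ⊢; omega) (by omega) (by omega)
      (by omega) (by omega) h5 h6 h7 h8
    simp only [mul_add, ← add_assoc] at this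
    exact ⟨this.1, this.2.1, this.2.2.1⟩

end Pool.Agent.P.MP_c5202f_co
end

-- part Pool.Agent.P.MP_c5202f_co.Half
section

/-! Two half strips whose first two columns are matched by the replies. -/

namespace Pool.Agent.P.MP_c5202f_co

structure HS (S : Set (Finset C)) (p : Bool → ℤ → ℤ → C) (b Λ : ℤ) : Prop where
  b1 : 1 ≤ b
  L2 : 2 ≤ Λ
  cl : ∀ P ∈ S, ∀ d, Legal P d → ∃ s, Legal (P \ d) s ∧ (P \ d) \ s ∈ S
  adj : ∀ δ l y l' y', Adj (p δ l y) (p δ l' y') ↔ Adj (l, y) (l', y')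
  nb : ∀ δ l y z, Adj (p δ l y) z →
    z = p δ (l + 1) y ∨ z = p δ (l - 1) y ∨ z = p δ l (y + 1) ∨ z = p δ l (y - 1)
  inj : ∀ δ l y l' y', p δ l y = p δ l' y' → l = l' ∧ y = y'
  ne : ∀ δ l y l' y', 0 ≤ l → l ≤ Λ → 0 ≤ l' → l' < Λ → p δ l y ≠ p (!δ) l' y'
  far : ∀ δ l y l' y', 0 ≤ l → l < Λ → 0 ≤ l' → l' < Λ → ¬ Adj (p δ l y) (p (!δ) l' y')
  row : ∀ P ∈ S, ∀ δ l y, p δ l y ∈ P → -b ≤ y ∧ y ≤ b
  tm : ∀ P ∈ S, ∀ δ l y l' y', Adj (l, y) (l', y') → 0 ≤ l → l ≤ 1 → 0 ≤ l' → l' ≤ 1 →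
    p δ l y ∈ P → p δ l' y' ∈ P → p (!δ) l y ∈ P

def Free (p : Bool → ℤ → ℤ → C) (b : ℤ) (P : Finset C) (μ : ℤ) : Prop :=
  ∀ δ l y, 0 ≤ l → l < μ → -b ≤ y → y ≤ b → p δ l y ∈ P

def Bad (p : Bool → ℤ → ℤ → C) (b : ℤ) (P : Finset C) (δ : Bool) (μ y : ℤ) : Prop :=
  Free p b P μ ∧ p δ μ y ∈ P ∧ (p (!δ) μ y ∉ P ∨ p (!δ) μ y = p δ μ y)

variable {S : Set (Finset C)} {p : Bool → ℤ → ℤ → C} {b Λ : ℤ} {P : Finset C}

theorem HS.ne' (h : HS S p b Λ) (δ : Bool) {l y l' y' : ℤ} (h1 : 0 ≤ l) (h2 : l ≤ Λ) (h3 : 0 ≤ l')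
    (h4 : l' < Λ) : p δ l' y' ≠ p (!δ) l y := by
  have := h.ne (!δ) l y l' y' h1 h2 h3 h4
  rw [Bool.not_not] at this
  exact this.symm

theorem HS.lev (h : HS S p b Λ) {δ δ' : Bool} {l y l' y' : ℤ} (h1 : 0 ≤ l) (h2 : l ≤ Λ)
    (h3 : 0 ≤ l') (h4 : l' < Λ) (e : p δ l y = p δ' l' y') : δ = δ' ∧ l = l' ∧ y = y' := by
  by_cases k : δ = δ'
  · subst k; exact ⟨rfl, h.inj _ _ _ _ _ e⟩
  · obtain rfl : δ' = !δ := by cases δ <;> cases δ' <;> simp_all
    exact absurd e (h.ne _ _ _ _ _ h1 h2 h3 h4)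

theorem HS.hit (h : HS S p b Λ) (hP : P ∈ S) {ν : ℤ} (hν : ν ≤ Λ)
    (ih : ∀ δ μ y, 1 ≤ μ → μ < ν → ¬ Bad p b P δ μ y) {q : C} {δ : Bool} {l y : ℤ}
    (ha : Adj (p δ l y) q) (hp : p δ l y ∉ P)
    (hf : ∀ δ' l' y', 0 ≤ l' → l' < ν → -b ≤ y' → y' ≤ b →
      p δ' l' y' ∈ P ∨ p δ' l' y' = p δ l y ∨ p δ' l' y' = q)
    (h1 : 0 ≤ l) (h2 : l < ν) (h3 : -b ≤ y) (h4 : y ≤ b)
    (hq : ∀ δ' l' y', q = p δ' l' y' → 0 ≤ l' → l' < l → -b ≤ y' → y' ≤ b → False) : False := by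
  have other : ∀ y', -b ≤ y' → y' ≤ b → p (!δ) l y' ∈ P := by
    intro y' a c
    rcases hf (!δ) l y' h1 h2 a c with k | k | k
    · exact k
    · exact absurd k.symm (h.ne δ l y l y' h1 (by omega) h1 (by omega))
    · exact absurd (k ▸ ha) (h.far δ l y l y' h1 (by omega) h1 (by omega))
  rcases h1.eq_or_lt with rfl | h1'
  · have b1 := h.b1
    obtain ⟨y', a1, a2, a3⟩ : ∃ y', Adj (0, y) (0, y') ∧ -b ≤ y' ∧ y' ≤ b := by
      by_cases k : y = b
      · exact ⟨y - 1, by simp [Adj], by omega, by omega⟩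
      · exact ⟨y + 1, by simp [Adj], by omega, by omega⟩
    have := h.tm P hP (!δ) 0 y 0 y' a1 le_rfl (by omega) le_rfl (by omega) (other y h3 h4)
      (other y' a2 a3)
    rw [Bool.not_not] at this
    exact hp this
  · refine ih (!δ) l y (by omega) h2 ⟨fun δ' l' y' a c d e => ?_, other y h3 h4,
      Or.inl (by rwa [Bool.not_not])⟩
    rcases hf δ' l' y' a (by omega) d e with k | k | k
    · exact k
    · have := h.lev h1 (by omega) a (by omega) k.symm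
      omega
    · exact (hq δ' l' y' k.symm a c d e).elim

theorem HS.hit' (h : HS S p b Λ) {P s : Finset C} (hP : P \ s ∈ S) (hs : Legal P s) {ν : ℤ}
    (hν : ν ≤ Λ) (ih : ∀ δ μ y, 1 ≤ μ → μ < ν → ¬ Bad p b (P \ s) δ μ y) (hf : Free p b P ν) :
    Free p b (P \ s) ν := by
  intro δ l y h1 h2 h3 h4
  refine Finset.mem_sdiff.2 ⟨hf δ l y h1 h2 h3 h4, fun hm => ?_⟩
  obtain ⟨q, ha, -, -, e⟩ := hs.at hm
  have f : ∀ δ' l' y', 0 ≤ l' → l' < ν → -b ≤ y' → y' ≤ b →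
      p δ' l' y' ∈ P \ s ∨ p δ' l' y' = p δ l y ∨ p δ' l' y' = q := by
    intro δ' l' y' a c d g
    by_cases k : p δ' l' y' ∈ s
    · rw [e] at k
      exact Or.inr (by simpa using k)
    · exact Or.inl (Finset.mem_sdiff.2 ⟨hf δ' l' y' a c d g, k⟩)
  refine h.hit hP hν ih ha (fun k => (Finset.mem_sdiff.1 k).2 hm) f h1 h2 h3 h4 ?_
  rintro δ' l' y' rfl k1 k2 k3 k4
  refine h.hit hP hν ih ha.symm (fun k => (Finset.mem_sdiff.1 k).2 (by simp [e]))
    (fun a c d e f' g i => (f a c d e f' g i).imp_right Or.symm) k1 (by omega) k3 k4 ?_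
  intro δ'' l'' y'' e' m1 m2 _ _
  have := h.lev h1 (by omega) m1 (by omega) e'
  omega

theorem HS.free_move (h : HS S p b Λ) {δ : Bool} {l y : ℤ} (h1 : 0 ≤ l) (h2 : l + 1 ≤ Λ)
    (hf : Free p b P l) : Free p b (P \ {p δ l y, p δ (l + 1) y}) l := by
  intro δ' l' y' a c d e
  simp only [Finset.mem_sdiff, Finset.mem_insert, Finset.mem_singleton, not_or]
  refine ⟨hf δ' l' y' a c d e, fun k => ?_, fun k => ?_⟩
  · have := h.lev h1 (by omega) a (by omega) k.symm; omega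
  · have := h.lev (by omega) h2 a (by omega) k.symm; omega

/-- the analysis of one reply to a horizontal move -/
theorem HS.reply (h : HS S p b Λ) {δ : Bool} {l y : ℤ} (h1 : 1 ≤ l) (h2 : l + 1 ≤ Λ)
    (hP : P ∈ S) (hf : Free p b P l) (hm : p (!δ) l y ∈ P)
    (hs' : ∀ y', p (!δ) l y' ∈ P → p δ l y' ∈ P) {s : Finset C}
    (hs : Legal (P \ {p δ l y, p δ (l + 1) y}) s) (hP' : (P \ {p δ l y, p δ (l + 1) y}) \ s ∈ S)
    (ih : ∀ δ' μ y', 1 ≤ μ → μ ≤ l → ¬ Bad p b ((P \ {p δ l y, p δ (l + 1) y}) \ s) δ' μ y') :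
    s = {p (!δ) l y, p (!δ) (l + 1) y} := by
  have fr := h.hit' hP' hs (ν := l) (by omega) (fun a c d e f => ih a c d e (by omega))
    (h.free_move (by omega) h2 hf)
  have yb := h.row P hP _ _ _ hm
  by_cases ht : p (!δ) l y ∈ s
  · obtain ⟨z, hz, -, hzP, e⟩ := hs.at ht
    have lat : ∀ y', y' ≠ y → z = p (!δ) l y' → False := by
      intro y' n k
      refine ih δ l y' h1 le_rfl ⟨fr, ?_, Or.inl fun m => (Finset.mem_sdiff.1 m).2 (by simp [e, k])⟩
      simp only [Finset.mem_sdiff, Finset.mem_insert, Finset.mem_singleton, not_or, e, k]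
      refine ⟨⟨hs' y' (k ▸ (Finset.mem_sdiff.1 hzP).1), fun m => n (h.inj _ _ _ _ _ m).2,
        fun m => ?_⟩, h.ne δ _ _ _ _ (by omega) (by omega) (by omega) (by omega),
        h.ne δ _ _ _ _ (by omega) (by omega) (by omega) (by omega)⟩
      have := h.inj _ _ _ _ _ m
      omega
    rcases h.nb _ _ _ _ hz with k | k | k | k
    · rw [e, k]
    · exact absurd (by simp [e, k]) (Finset.mem_sdiff.1
        (fr (!δ) (l - 1) y (by omega) (by omega) yb.1 yb.2)).2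
    · exact (lat _ (by omega) k).elim
    · exact (lat _ (by omega) k).elim
  · refine (ih (!δ) l y h1 le_rfl ⟨fr, ?_, Or.inl fun m => ?_⟩).elim
    · simp only [Finset.mem_sdiff, Finset.mem_insert, Finset.mem_singleton, not_or]
      exact ⟨⟨hm, (h.ne δ _ _ _ _ (by omega) (by omega) (by omega) (by omega)).symm,
        (h.ne δ _ _ _ _ (by omega) h2 (by omega) (by omega)).symm⟩, ht⟩
    · rw [Bool.not_not] at m
      exact (Finset.mem_sdiff.1 (Finset.mem_sdiff.1 m).1).2 (by simp)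

theorem HS.run (h : HS S p b Λ) (n : ℕ) :
    ∀ P ∈ S, ∀ δ μ y, 1 ≤ μ → μ ≤ Λ → μ ≤ n + 1 → ¬ Bad p b P δ μ y := by
  have top : ∀ P ∈ S, ∀ δ y, ¬ Bad p b P δ 1 y := fun P hP δ y ⟨f, m, k⟩ => by
    have := h.L2
    have yb := h.row P hP _ _ _ m
    rcases k with k | k
    · exact k (h.tm P hP δ 1 y 0 y (by simp [Adj]) (by omega) le_rfl le_rfl (by omega) m
        (f δ 0 y le_rfl (by omega) yb.1 yb.2))
    · exact h.ne δ 1 y 1 y (by omega) (by omega) (by omega) (by omega) k.symm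
  induction n with
  | zero =>
    intro P hP δ μ y h1 _ h3
    obtain rfl : μ = 1 := by omega
    exact top P hP δ y
  | succ n ih =>
    intro P hP δ μ y h1 h2 h3
    rcases h1.eq_or_lt with rfl | h1'
    · exact top P hP δ y
    obtain ⟨l, rfl⟩ : ∃ l, μ = l + 1 := ⟨μ - 1, by omega⟩
    rintro ⟨f, m, k⟩
    have yb := h.row P hP _ _ _ m
    obtain ⟨s, hs, hP'⟩ := h.cl P hP _ (legal_pair ((h.adj δ l y (l + 1) y).2 (by simp [Adj]))
      (f δ l y (by omega) (by omega) yb.1 yb.2) m)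
    have e := h.reply (by omega) h2 hP (fun a c d e g => f a c d e (by omega))
      (f (!δ) l y (by omega) (by omega) yb.1 yb.2) (fun y' hy => by
        have := h.row P hP _ _ _ hy
        exact f δ l y' (by omega) (by omega) this.1 this.2) hs hP'
      fun δ' μ y' a c => ih _ hP' δ' μ y' a (by omega) (by push_cast at h3; omega)
    have z := Finset.mem_sdiff.1 (hs.1 (show p (!δ) (l + 1) y ∈ s by simp [e]))
    rcases k with k | k
    · exact k z.1
    · exact z.2 (by simp [k])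

theorem HS.sym (h : HS S p b Λ) (hP : P ∈ S) {μ : ℤ} (h1 : 1 ≤ μ) (h2 : μ ≤ Λ)
    (hf : Free p b P μ) {δ : Bool} {y : ℤ} (hm : p δ μ y ∈ P) :
    p (!δ) μ y ∈ P ∧ p (!δ) μ y ≠ p δ μ y := by
  by_contra hc
  exact h.run μ.toNat P hP δ μ y h1 h2 (by omega) ⟨hf, hm, by tauto⟩

theorem HS.forced (h : HS S p b Λ) {δ : Bool} {l y : ℤ} (h1 : 1 ≤ l) (h2 : l + 1 ≤ Λ)
    (hP : P ∈ S) (hf : Free p b P l) (hm : p δ l y ∈ P) {s : Finset C}
    (hs : Legal (P \ {p δ l y, p δ (l + 1) y}) s) (hP' : (P \ {p δ l y, p δ (l + 1) y}) \ s ∈ S) :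
    s = {p (!δ) l y, p (!δ) (l + 1) y} :=
  h.reply h1 h2 hP hf (h.sym hP h1 (by omega) hf hm).1
    (fun y' hy => by simpa using (h.sym hP h1 (by omega) hf hy).1) hs hP'
    fun δ' μ y' a c => h.run μ.toNat _ hP' δ' μ y' a (by omega) (by omega)

theorem HS.pair (h : HS S p b Λ) {l y : ℤ} (h1 : 1 ≤ l) (h2 : l + 1 ≤ Λ) (hP : P ∈ S)
    (hf : Free p b P l) (hm : p true l y ∈ P) (hm' : p true (l + 1) y ∈ P) :
    ∃ Q ∈ S, ∀ z, z ∈ Q ↔ z ∈ P ∧ ∀ δ, z ≠ p δ l y ∧ z ≠ p δ (l + 1) y := by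
  obtain ⟨s, hs, hP'⟩ := h.cl P hP _
    (legal_pair ((h.adj true l y (l + 1) y).2 (by simp [Adj])) hm hm')
  refine ⟨_, hP', fun z => ?_⟩
  rw [h.forced h1 h2 hP hf hm hs hP']
  simp only [Finset.mem_sdiff, Finset.mem_insert, Finset.mem_singleton, not_or, Bool.not_true,
    Bool.forall_bool]
  tauto

theorem dead (cl : ∀ P ∈ S, ∀ d, Legal P d → ∃ s, Legal (P \ d) s ∧ (P \ d) \ s ∈ S) (n : ℕ) :
    ∀ X ∈ S, ∀ Y ∈ S, ∀ d, X.card ≤ n → Legal Y d → X ⊆ Y \ d →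
      (∀ s, Legal (Y \ d) s → s ⊆ X) → False := by
  induction n with
  | zero =>
    intro X _ Y hY d hn hd _ h
    obtain ⟨s, hs, -⟩ := cl Y hY d hd
    obtain ⟨u, v, -, -, -, rfl⟩ := legal_iff.1 hs
    have := h _ hs (Finset.mem_insert_self _ _)
    rw [Finset.card_eq_zero.1 (Nat.le_zero.1 hn)] at this
    simp at this
  | succ n ih =>
    intro X hX Y hY d hn hd h0 h
    obtain ⟨s, hs, hY'⟩ := cl Y hY d hd
    obtain ⟨s', hs', hX'⟩ := cl X hX s ⟨h s hs, hs.2⟩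
    refine ih _ hX' _ hY' s' ?_ ⟨hs'.1.trans (Finset.sdiff_subset_sdiff h0 subset_rfl), hs'.2⟩
      (Finset.sdiff_subset_sdiff (Finset.sdiff_subset_sdiff h0 subset_rfl) subset_rfl)
      fun t ht => ?_
    · obtain ⟨u, v, -, hu, -, rfl⟩ := legal_iff.1 hs'
      have : ((X \ s) \ {u, v}).card < X.card := Finset.card_lt_card
        ⟨Finset.sdiff_subset.trans Finset.sdiff_subset, fun k => by
          simpa using k (Finset.mem_sdiff.1 hu).1⟩
      omega
    · have k1 := Finset.subset_sdiff.1 ht.1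
      have k2 := Finset.subset_sdiff.1 k1.1
      exact Finset.subset_sdiff.2 ⟨Finset.subset_sdiff.2 ⟨h t ⟨k2.1, ht.2⟩, k2.2⟩, k1.2⟩

theorem HS.todd (h : HS S p b Λ) (h4 : 4 ≤ Λ) (hP : P ∈ S) (hf : Free p b P (Λ + 1))
    (ha : Adj (p true Λ 0) (p false Λ 0))
    (hn : ∀ y y', p true Λ y ≠ p false Λ y') : False := by
  have b1 := h.b1
  have lev : ∀ {δ δ' : Bool} {l y l' y' : ℤ}, 0 ≤ l → l ≤ Λ → 0 ≤ l' → l' ≤ Λ →
      p δ l y = p δ' l' y' → l = l' ∧ y = y' := by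
    intro δ δ' l y l' y' a c d e k
    rcases e.eq_or_lt with rfl | e
    · rcases c.eq_or_lt with rfl | c
      · cases δ <;> cases δ'
        exacts [h.inj _ _ _ _ _ k, absurd k.symm (hn _ _), absurd k (hn _ _), h.inj _ _ _ _ _ k]
      · have := h.lev d le_rfl a c k.symm; omega
    · exact (h.lev a c d e k).2
  have nn : ∀ {δ : Bool} {l y l' y' : ℤ}, 0 ≤ l → l ≤ Λ → 0 ≤ l' → l' + 1 ≤ Λ →
      (y ≠ y' ∨ (l ≠ l' ∧ l ≠ l' + 1)) → ∀ δ', p δ l y ≠ p δ' l' y' ∧ p δ l y ≠ p δ' (l' + 1) y' :=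
    fun a c d e f δ' => ⟨fun k => by have := lev a c d (by omega) k; omega,
      fun k => by have := lev a c (by omega) e k; omega⟩
  obtain ⟨l, rfl⟩ : ∃ l, Λ = l + 1 + 1 + 1 := ⟨Λ - 3, by omega⟩
  obtain ⟨P1, s1, e1⟩ := h.pair (l := l + 1 + 1) (y := 1) (by omega) le_rfl hP
    (fun a c d e g => hf a c d e (by omega))
    (hf _ _ _ (by omega) (by omega) (by omega) (by omega))
    (hf _ _ _ (by omega) (by omega) (by omega) (by omega))
  have m1 : ∀ δ l' y, 0 ≤ l' → l' ≤ l + 1 + 1 + 1 → -b ≤ y → y ≤ b → (y ≠ 1 ∨ l' < l + 1 + 1) →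
      p δ l' y ∈ P1 := fun δ l' y a c d e f => (e1 _).2
    ⟨hf _ _ _ a (by omega) d e, nn a c (by omega) (by omega) (by omega)⟩
  obtain ⟨P2, s2, e2⟩ := h.pair (l := l + 1 + 1) (y := -1) (by omega) le_rfl s1
    (fun a c d e g i j => m1 a c d e (by omega) i j (by omega))
    (m1 _ _ _ (by omega) (by omega) (by omega) (by omega) (by omega))
    (m1 _ _ _ (by omega) (by omega) (by omega) (by omega) (by omega))
  have m2 : ∀ δ l' y, 0 ≤ l' → l' ≤ l + 1 + 1 + 1 → -b ≤ y → y ≤ b → (y = 0 ∨ l' < l + 1 + 1) →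
      p δ l' y ∈ P2 := fun δ l' y a c d e f => (e2 _).2
    ⟨m1 _ _ _ a c d e (by omega), nn a c (by omega) (by omega) (by omega)⟩
  obtain ⟨P3, s3, e3⟩ := h.pair (l := l + 1 + 1) (y := 0) (by omega) le_rfl s2
    (fun a c d e g i j => m2 a c d e (by omega) i j (by omega))
    (m2 _ _ _ (by omega) (by omega) (by omega) (by omega) (by omega))
    (m2 _ _ _ (by omega) (by omega) (by omega) (by omega) (by omega))
  have m3 : ∀ δ l' y, 0 ≤ l' → l' < l + 1 + 1 → -b ≤ y → y ≤ b → p δ l' y ∈ P3 :=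
    fun δ l' y a c d e => (e3 _).2 ⟨m2 _ _ _ a (by omega) d e (by omega),
      nn a (by omega) (by omega) (by omega) (by omega)⟩
  obtain ⟨X, sX, eX⟩ := h.pair (l := l) (y := 0) (by omega) (by omega) s3
    (fun a c d e g i j => m3 a c d e (by omega) i j)
    (m3 _ _ _ (by omega) (by omega) (by omega) (by omega))
    (m3 _ _ _ (by omega) (by omega) (by omega) (by omega))
  obtain ⟨Y, sY, eY⟩ := h.pair (l := l) (y := 0) (by omega) (by omega) s2
    (fun a c d e g i j => m2 a c d e (by omega) i j (by omega))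
    (m2 _ _ _ (by omega) (by omega) (by omega) (by omega) (by omega))
    (m2 _ _ _ (by omega) (by omega) (by omega) (by omega) (by omega))
  have cY : ∀ δ, p δ (l + 1 + 1 + 1) 0 ∈ Y := fun δ => (eY _).2
    ⟨m2 _ _ _ (by omega) (by omega) (by omega) (by omega) (by omega),
      nn (by omega) (by omega) (by omega) (by omega) (by omega)⟩
  refine dead h.cl X.card X sX Y sY _ le_rfl (legal_pair ha (cY true) (cY false))
    (fun z hz => ?_) fun s hs z hz => ?_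
  · have k := (eX z).1 hz
    have k' := (e3 z).1 k.1
    simp only [Finset.mem_sdiff, Finset.mem_insert, Finset.mem_singleton, not_or]
    exact ⟨(eY z).2 ⟨k'.1, k.2⟩, (k'.2 true).2, (k'.2 false).2⟩
  · obtain ⟨q, hq, hz', hq', -⟩ := hs.at hz
    simp only [Finset.mem_sdiff, Finset.mem_insert, Finset.mem_singleton, not_or] at hz' hq'
    have k := (eY z).1 hz'.1
    have k1 := (eY q).1 hq'.1
    have k2 := (e2 q).1 k1.1
    have k3 := (e1 q).1 k2.1
    refine (eX z).2 ⟨(e3 z).2 ⟨k.1, fun δ => ⟨?_, by cases δ; exacts [hz'.2.2, hz'.2.1]⟩⟩, k.2⟩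
    rintro rfl
    rcases h.nb _ _ _ _ hq with m | m | m | m
    · cases δ; exacts [hq'.2.2 m, hq'.2.1 m]
    · exact (k1.2 δ).2 (by simpa using m)
    · exact (k3.2 δ).1 (by simpa using m)
    · exact (k2.2 δ).1 (by simpa using m)

end Pool.Agent.P.MP_c5202f_co
end

-- part Pool.Agent.P.MP_c5202f_co.Match
section

/-! In a paired position every long run of empty columns has a partner. -/

namespace Pool.Agent.P.MP_c5202f_co

def CF (F : Finset C) (b x : ℤ) : Prop := ∀ y, -b ≤ y → y ≤ b → (x, y) ∈ F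

def qq (c c' ε η : ℤ) : Bool → ℤ → ℤ → C
  | true, i, y => (c + i, y)
  | false, i, y => (c' + ε * i, η * y)

structure Loc (S : Set (Finset C)) (F : Finset C) (b c c' ε η : ℤ) : Prop where
  b1 : 1 ≤ b
  he : ε = 1 ∨ ε = -1
  hh : η = 1 ∨ η = -1
  mem : F ∈ S
  row : ∀ P ∈ S, ∀ u ∈ P, -b ≤ u.2 ∧ u.2 ≤ b
  cl : ∀ P ∈ S, ∀ d, Legal P d → ∃ s, Legal (P \ d) s ∧ (P \ d) \ s ∈ S
  rp : ∀ P ∈ S, ∀ δ i y i' y', Adj (i, y) (i', y') → -2 ≤ i → i ≤ 2 → -2 ≤ i' → i' ≤ 2 →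
    qq c c' ε η δ i y ∈ P → qq c c' ε η δ i' y' ∈ P →
    Legal (P \ {qq c c' ε η δ i y, qq c c' ε η δ i' y'})
      {qq c c' ε η (!δ) i y, qq c c' ε η (!δ) i' y'} ∧
    (P \ {qq c c' ε η δ i y, qq c c' ε η δ i' y'}) \
      {qq c c' ε η (!δ) i y, qq c c' ε η (!δ) i' y'} ∈ S
  fr : ∀ δ i y, -2 ≤ i → i ≤ 2 → -b ≤ y → y ≤ b → qq c c' ε η δ i y ∈ F

variable {S : Set (Finset C)} {F : Finset C} {b c c' ε η : ℤ}

theorem Loc.hs (h : Loc S F b c c' ε η) {β θ n Λ : ℤ} (hβ : β = 1 ∨ β = -1) (hθ : θ = 1 ∨ θ = -1)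
    (e : c' = c + β * θ * n) (n0 : 1 < n) (h2 : 2 ≤ Λ) (k1 : ε = 1 → Λ + 1 ≤ n)
    (k2 : ε = -1 → θ = 1 → 2 * Λ ≤ n) : HS S (fun δ l y => qq c c' ε η δ (β * l) y) b Λ := by
  have he := h.he
  have hh := h.hh
  refine ⟨h.b1, h2, h.cl, ?_, ?_, ?_, ?_, ?_, ?_, ?_⟩
  · intro δ l y l' y'
    rcases hβ with rfl | rfl <;> rcases he with rfl | rfl <;> rcases hh with rfl | rfl <;>
      cases δ <;> simp only [qq, adj_mk] <;> omega
  · intro δ l y z hz
    rcases hβ with rfl | rfl <;> rcases he with rfl | rfl <;> rcases hh with rfl | rfl <;>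
      cases δ <;> rcases hz.cases with rfl | rfl | rfl | rfl <;>
      simp only [qq, Prod.ext_iff, true_and, and_true, true_or, or_true] <;> omega
  · intro δ l y l' y'
    rcases hβ with rfl | rfl <;> rcases he with rfl | rfl <;> rcases hh with rfl | rfl <;>
      cases δ <;> simp only [qq, Prod.ext_iff] <;> omega
  · intro δ l y l' y' a1 a2 a3 a4 k
    have := congrArg Prod.fst k
    rcases hβ with rfl | rfl <;> rcases he with rfl | rfl <;> rcases hθ with rfl | rfl <;>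
      cases δ <;> simp only [qq, Bool.not_true, Bool.not_false] at this <;> omega
  · intro δ l y l' y' a1 a2 a3 a4 k
    have : ∀ u v : C, Adj u v → u.1 ≤ v.1 + 1 ∧ v.1 ≤ u.1 + 1 := fun u v k => by
      unfold Adj at k; omega
    have := this _ _ k
    rcases hβ with rfl | rfl <;> rcases he with rfl | rfl <;> rcases hθ with rfl | rfl <;>
      cases δ <;> simp only [qq, Bool.not_true, Bool.not_false] at this <;> omega
  · intro P hP δ l y k
    have := h.row P hP _ k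
    rcases hh with rfl | rfl <;> cases δ <;> simp only [qq] at this <;> omega
  · intro P hP δ l y l' y' a h1 h2 h3 h4 m1 m2
    refine (Finset.mem_sdiff.1 ((h.rp P hP δ (β * l) y (β * l') y' ?_ ?_ ?_ ?_ ?_ m1 m2).1.1
      (Finset.mem_insert_self _ _))).1 <;>
    rcases hβ with rfl | rfl <;> simp only [adj_mk] at a ⊢ <;> omega

theorem Loc.dir (h : Loc S F b c c' ε η) {β θ n ρ : ℤ} (hβ : β = 1 ∨ β = -1)
    (hθ : θ = 1 ∨ θ = -1) (e : c' = c + β * θ * n) (n9 : 9 ≤ n) (r0 : 0 ≤ ρ)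
    (f : ∀ l, 0 ≤ l → l < ρ → CF F b (c + β * l)) (g : ¬ CF F b (c + β * ρ)) :
    (∀ l, 0 ≤ l → l < ρ → CF F b (c' + ε * (β * l))) ∧ (θ = 1 → ρ < n) ∧
    ∀ y, ((c + β * ρ, y) ∈ F ↔ (c' + ε * (β * ρ), η * y) ∈ F) ∧
      ((c + β * ρ, y) ∈ F → (c' + ε * (β * ρ), η * y) ≠ (c + β * ρ, y)) := by
  have b1 := h.b1
  obtain ⟨μ, ⟨m0, m1⟩, m2⟩ := Int.exists_least_of_bdd
    (P := fun l => 0 ≤ l ∧ ¬ ∀ δ y, -b ≤ y → y ≤ b → qq c c' ε η δ (β * l) y ∈ F)
    ⟨0, fun z hz => hz.1⟩ ⟨ρ, r0, fun k => g (k true)⟩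
  have fr : ∀ ν, ν ≤ μ → Free (fun δ l y => qq c c' ε η δ (β * l) y) b F ν := by
    intro ν hν δ l y a1 a2 a3 a4
    by_contra k
    have := m2 l ⟨a1, fun k' => k (k' δ y a3 a4)⟩
    omega
  have m3 : 3 ≤ μ := by
    by_contra k
    refine m1 fun δ y a1 a2 => h.fr δ _ y ?_ ?_ a1 a2 <;> rcases hβ with rfl | rfl <;> omega
  have ok : (ε = 1 → μ + 1 ≤ n) ∧ (ε = -1 → θ = 1 → 2 * μ ≤ n) := by
    refine ⟨fun he => ?_, fun he ht => ?_⟩ <;> by_contra k
    · have H := h.hs (Λ := n - 1) hβ hθ e (by omega) (by omega) (by omega) (by omega)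
      obtain ⟨δ, hδ⟩ : ∃ δ : Bool, (θ = 1 ∧ δ = true) ∨ (θ = -1 ∧ δ = false) := by
        rcases hθ with rfl | rfl
        exacts [⟨true, by simp⟩, ⟨false, by simp⟩]
      have e1 : qq c c' ε η δ (β * (n - 2)) 0 = qq c c' ε η (!δ) (β * -2) 0 := by
        rcases hβ with rfl | rfl <;> rcases hδ with ⟨rfl, rfl⟩ | ⟨rfl, rfl⟩ <;>
          simp only [qq, he, Bool.not_true, Bool.not_false, Prod.ext_iff] <;> omega
      have e2 : qq c c' ε η δ (β * (n - 2 + 1)) 0 = qq c c' ε η (!δ) (β * -1) 0 := by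
        rcases hβ with rfl | rfl <;> rcases hδ with ⟨rfl, rfl⟩ | ⟨rfl, rfl⟩ <;>
          simp only [qq, he, Bool.not_true, Bool.not_false, Prod.ext_iff] <;> omega
      have a1 := fr μ le_rfl δ (n - 2) 0 (by omega) (by omega) (by omega) (by omega)
      have a2 := fr μ le_rfl δ (n - 2 + 1) 0 (by omega) (by omega) (by omega) (by omega)
      have R := h.rp F h.mem (!δ) (β * -2) 0 (β * -1) 0 (adj_mk.2 (by omega)) (by omega)
        (by omega) (by omega) (by omega) (e1 ▸ a1) (e2 ▸ a2)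
      rw [← e1, ← e2] at R
      have q := H.forced (l := n - 2) (by omega) (by omega) h.mem (fr _ (by omega)) a1 R.1 R.2
      have := q ▸ Finset.mem_insert_self (qq c c' ε η (!!δ) (β * -2) 0) _
      simp only [Finset.mem_insert, Finset.mem_singleton, Prod.ext_iff] at this
      rcases hβ with rfl | rfl <;> rcases hδ with ⟨rfl, rfl⟩ | ⟨rfl, rfl⟩ <;>
        simp only [qq, he, Bool.not_true, Bool.not_false] at this <;> omega
    · have H := h.hs (Λ := n / 2) hβ hθ e (by omega) (by omega) (by omega) (by omega)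
      rcases Int.emod_two_eq_zero_or_one n with k' | k'
      · refine (H.sym h.mem (μ := n / 2) (by omega) le_rfl (fr _ (by omega))
          (fr μ le_rfl true (n / 2) 0 (by omega) (by omega) (by omega) (by omega))).2 ?_
        rcases hβ with rfl | rfl <;> simp only [qq, he, ht, Bool.not_true, Prod.ext_iff] at e ⊢ <;>
          omega
      · refine H.todd (by omega) h.mem (fr _ (by omega)) ?_ fun y y' k => ?_
        · rcases hβ with rfl | rfl <;> simp only [qq, he, ht, adj_mk] at e ⊢ <;> omega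
        · have := congrArg Prod.fst k
          rcases hβ with rfl | rfl <;> simp only [qq, he, ht] at e this <;> omega
  have H := h.hs hβ hθ e (by omega) (by omega) ok.1 ok.2
  have sy := fun δ y => H.sym h.mem (μ := μ) (by omega) le_rfl (fr _ le_rfl) (δ := δ) (y := y)
  obtain rfl : μ = ρ := by
    have := m2 ρ ⟨r0, fun k => g (k true)⟩
    by_contra k
    refine m1 fun δ y a1 a2 => ?_
    have := f μ m0 (by omega) y a1 a2
    cases δ
    exacts [(sy true y this).1, this]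
  refine ⟨fun l a1 a2 y a3 a4 => ?_, fun k => by have := h.he; omega,
    fun y => ⟨⟨fun k => (sy true y k).1, fun k => (sy false y k).1⟩, fun k => (sy true y k).2⟩⟩
  rcases h.hh with rfl | rfl
  · simpa [qq] using fr μ le_rfl false l y a1 a2 a3 a4
  · simpa [qq] using fr μ le_rfl false l (-y) a1 a2 (by omega) (by omega)

theorem bandM (B : Finset ℤ) (c : ℤ) {M : ℤ} (hM : 0 < M) {n : ℕ} (h : B.card ≤ n) :
    ∃ i : ℤ, 0 ≤ i ∧ i ≤ n ∧ ∀ z ∈ B, z < c + M * i ∨ c + M * i + M ≤ z := by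
  obtain ⟨i, h1, h2⟩ := Finset.exists_mem_notMem_of_card_lt_card
    (s := B.image fun z => (z - c) / M) (t := Finset.Icc (0 : ℤ) n)
    (by have := Finset.card_image_le (s := B) (f := fun z => (z - c) / M); simp; omega)
  rw [Finset.mem_Icc] at h1
  refine ⟨i, h1.1, h1.2, fun z hz => ?_⟩
  by_contra k
  refine h2 (Finset.mem_image.2 ⟨z, hz, ?_⟩)
  rw [Int.ediv_eq_iff_of_pos hM]
  constructor <;> nlinarith [not_or.1 k]

def Gap (K : ℤ → Prop) (x z : ℤ) : Prop := x < z ∧ K x ∧ K z ∧ ∀ i, x < i → i < z → ¬ K i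

theorem Paired.loc {w : ℕ} (hp : Paired w F) (b1 : 1 ≤ b) (row : ∀ u ∈ F, -b ≤ u.2 ∧ u.2 ≤ b)
    {x z : ℤ} (hL : (2 * b + 33) * (w + 1) < z - x) (f : ∀ i, x < i → i < z → CF F b i) :
    ∃ S c c' ε η, x < c ∧ c < z ∧ (c' + 9 ≤ c ∨ c + 9 ≤ c') ∧ Loc S F b c c' ε η := by
  obtain ⟨W, r, S, w1, -, hS, cl⟩ := hp
  have leg : ∀ {P d : Finset C}, Legal (P \ W) d → Legal P d ∧ Disjoint d W := fun h =>
    ⟨⟨h.1.trans Finset.sdiff_subset, h.2⟩, (Finset.subset_sdiff.1 h.1).2⟩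
  have rep : Rep (F \ W) r := by
    constructor
    · intro d hd
      obtain ⟨s, hs, -, e⟩ := cl F hS d (leg hd).1
      obtain ⟨rfl, e⟩ := e (leg hd).2
      have := Finset.subset_sdiff.1 hs.1
      exact ⟨⟨Finset.subset_sdiff.2 ⟨this.1, e⟩, hs.2⟩, this.2.symm⟩
    · intro e d he hd h1 h2
      obtain ⟨s, -, hP, k⟩ := cl F hS e (leg he).1
      obtain ⟨rfl, -⟩ := k (leg he).2
      obtain ⟨s, hs, -, k⟩ := cl _ hP d ⟨Finset.subset_sdiff.2
        ⟨Finset.subset_sdiff.2 ⟨(leg hd).1.1, h1⟩, h2⟩, hd.2⟩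
      obtain ⟨rfl, -⟩ := k (leg hd).2
      have := Finset.subset_sdiff.1 (Finset.subset_sdiff.1 hs.1).1
      exact ⟨(Finset.subset_sdiff.1 this.1).2, this.2⟩
  obtain ⟨i, i0, i1, bi⟩ := bandM (W.image Prod.fst) (x + 1) (M := 2 * b + 33) (by omega) w1
  have i2 : 0 ≤ (2 * b + 33) * i := by positivity
  have i3 : (2 * b + 33) * i + (2 * b + 33) ≤ (2 * b + 33) * (w + 1) := by nlinarith
  generalize (2 * b + 33) * i = j at *
  generalize (2 * b + 33) * ((w : ℤ) + 1) = j' at *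
  have B : Blk (F \ W) b (x + 1 + j + (b + 16) - (b + 16)) (x + 1 + j + (b + 16) + (b + 16)) :=
    ⟨b1, fun u hu => row u (Finset.mem_sdiff.1 hu).1, fun u a1 a2 a3 a4 => Finset.mem_sdiff.2
      ⟨f u.1 (by omega) (by omega) u.2 a3 a4, fun k => by
        have := bi _ (Finset.mem_image_of_mem _ k); omega⟩⟩
  obtain ⟨c', ε, η, he, hh, far, T⟩ := B.loc rep
  set c := x + 1 + j + (b + 16) with hc
  have fr : ∀ δ i y, -2 ≤ i → i ≤ 2 → -b ≤ y → y ≤ b → qq c c' ε η δ i y ∈ F \ W := by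
    intro δ i y a1 a2 a3 a4
    cases δ
    · by_cases k : i = 2
      · exact (T i y (i - 1) y (adj_mk.2 (by omega)) a1 a2 (by omega) (by omega) a3 a4 a3 a4).2.2
      · exact (T i y (i + 1) y (adj_mk.2 (by omega)) a1 a2 (by omega) (by omega) a3 a4 a3 a4).2.2
    · exact B.fr _ (by simp only [qq]; omega) (by simp only [qq]; omega) a3 a4
  refine ⟨{P | P ∈ S ∧ P ⊆ F}, c, c', ε, η, by omega, by omega, far, b1, he, hh,
    ⟨hS, subset_rfl⟩, fun P hP u hu => row u (hP.2 hu), fun P hP d hd => ?_, ?_,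
    fun δ i y a1 a2 a3 a4 => (Finset.mem_sdiff.1 (fr δ i y a1 a2 a3 a4)).1⟩
  · obtain ⟨s, hs, k, -⟩ := cl P hP.1 d hd
    exact ⟨s, hs, k, Finset.sdiff_subset.trans (Finset.sdiff_subset.trans hP.2)⟩
  · intro P hP δ i y i' y' a a1 a2 a3 a4 m1 m2
    have r1 := row _ (hP.2 m1)
    have r2 := row _ (hP.2 m2)
    have yb : (-b ≤ y ∧ y ≤ b) ∧ -b ≤ y' ∧ y' ≤ b := by
      rcases hh with rfl | rfl <;> cases δ <;> simp only [qq] at r1 r2 <;> omega
    have ad : Adj (qq c c' ε η δ i y) (qq c c' ε η δ i' y') := by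
      rcases he with rfl | rfl <;> rcases hh with rfl | rfl <;> cases δ <;>
        simp only [qq, adj_mk] at a ⊢ <;> omega
    obtain ⟨s, hs, k, k'⟩ := cl P hP.1 _ (legal_pair ad m1 m2)
    obtain ⟨rfl, -⟩ := k' (by
      simp only [Finset.disjoint_insert_left, Finset.disjoint_singleton_left]
      exact ⟨(Finset.mem_sdiff.1 (fr δ i y a1 a2 yb.1.1 yb.1.2)).2,
        (Finset.mem_sdiff.1 (fr δ i' y' a3 a4 yb.2.1 yb.2.2)).2⟩)
    have t := T i y i' y' a a1 a2 a3 a4 yb.1.1 yb.1.2 yb.2.1 yb.2.2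
    have : r {qq c c' ε η δ i y, qq c c' ε η δ i' y'} =
        {qq c c' ε η (!δ) i y, qq c c' ε η (!δ) i' y'} := by
      cases δ
      exacts [t.2.1, t.1]
    rw [this] at hs k
    exact ⟨hs, k, Finset.sdiff_subset.trans (Finset.sdiff_subset.trans hP.2)⟩

theorem Paired.partner {w : ℕ} (hp : Paired w F) (b1 : 1 ≤ b) (row : ∀ u ∈ F, -b ≤ u.2 ∧ u.2 ≤ b)
    {x z : ℤ} (hL : (2 * b + 33) * (w + 1) < z - x) (g : Gap (fun i => ¬ CF F b i) x z) :
    (∃ x' z', Gap (fun i => ¬ CF F b i) x' z' ∧ z' - x' = z - x ∧ x' ≠ x) ∧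
    ∃ z' η, (η = 1 ∨ η = -1) ∧ ∀ y, ((z, y) ∈ F ↔ (z', η * y) ∈ F) ∧
      ((z, y) ∈ F → (z', η * y) ≠ (z, y)) := by
  have f : ∀ i, x < i → i < z → CF F b i := fun i a c => not_not.1 (g.2.2.2 i a c)
  obtain ⟨S, c, c', ε, η, h1, h2, far, h⟩ := hp.loc b1 row hL f
  obtain ⟨θ, n, hθ, n9, e⟩ : ∃ θ n : ℤ, (θ = 1 ∨ θ = -1) ∧ 9 ≤ n ∧ c' = c + 1 * θ * n := by
    rcases far with k | k
    exacts [⟨-1, c - c', by omega, by omega, by ring⟩, ⟨1, c' - c, by omega, by omega, by ring⟩]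
  obtain ⟨A1, A2, A3⟩ := h.dir (ρ := z - c) (Or.inl rfl) hθ e n9 (by omega)
    (fun l a1 a2 => f _ (by omega) (by omega)) (by simpa using g.2.2.1)
  obtain ⟨B1, B2, B3⟩ := h.dir (β := -1) (θ := -θ) (ρ := c - x) (Or.inr rfl) (by omega)
    (by rw [e]; ring) n9 (by omega) (fun l a1 a2 => f _ (by omega) (by omega))
    (by simpa using g.2.1)
  have tr : ∀ {p p' : ℤ}, (∀ y, ((p, y) ∈ F ↔ (p', η * y) ∈ F) ∧ ((p, y) ∈ F → (p', η * y) ≠ (p, y))) →
      ¬ CF F b p → ¬ CF F b p' := fun k n k' => n fun y a1 a2 => (k y).1.2 (k' _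
        (by rcases h.hh with rfl | rfl <;> omega) (by rcases h.hh with rfl | rfl <;> omega))
  have nA := tr A3 (by simpa using g.2.2.1)
  have nB := tr B3 (by simpa using g.2.1)
  refine ⟨?_, _, η, h.hh, by simpa using A3⟩
  have side : ∀ x', Gap (fun i => ¬ CF F b i) x' (x' + (z - x)) → x' < c' → c' < x' + (z - x) →
      ∃ x' z', Gap (fun i => ¬ CF F b i) x' z' ∧ z' - x' = z - x ∧ x' ≠ x := fun x' k a1 a2 =>
    ⟨x', _, k, by omega, by rcases hθ with rfl | rfl <;> omega⟩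
  rcases h.he with rfl | rfl
  · refine side (c' - (c - x)) ⟨by omega, ?_, ?_, fun i a1 a2 k => k ?_⟩ (by omega) (by omega)
    · exact (show c' + 1 * (-1 * (c - x)) = c' - (c - x) by ring) ▸ nB
    · exact (show c' + 1 * (1 * (z - c)) = c' - (c - x) + (z - x) by ring) ▸ nA
    · rcases le_total c' i with m | m
      · simpa using A1 (i - c') (by omega) (by omega)
      · simpa using B1 (c' - i) (by omega) (by omega)
  · refine side (c' - (z - c)) ⟨by omega, ?_, ?_, fun i a1 a2 k => k ?_⟩ (by omega) (by omega)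
    · exact (show c' + -1 * (1 * (z - c)) = c' - (z - c) by ring) ▸ nA
    · exact (show c' + -1 * (-1 * (c - x)) = c' - (z - c) + (z - x) by ring) ▸ nB
    · rcases le_total c' i with m | m
      · simpa using B1 (i - c') (by omega) (by omega)
      · simpa using A1 (c' - i) (by omega) (by omega)

end Pool.Agent.P.MP_c5202f_co
end

-- part Pool.Agent.P.MP_c5202f_co.Gaps
section

/-! Splitting runs of empty columns. -/

namespace Pool.Agent.P.MP_c5202f_co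

variable {K K1 K2 : ℤ → Prop} {L x z v v' p q u u' : ℤ}

theorem Gap.eq_or {x' z' : ℤ} (g : Gap K x z) (g' : Gap K x' z') :
    (x = x' ∧ z = z') ∨ z ≤ x' ∨ z' ≤ x := by
  have h1 := fun a c => g.2.2.2 x' a c g'.2.1
  have h2 := fun a c => g.2.2.2 z' a c g'.2.2.1
  have h3 := fun a c => g'.2.2.2 x a c g.2.1
  have h4 := fun a c => g'.2.2.2 z a c g.2.2.1
  have := g.1
  have := g'.1
  by_contra k
  rcases lt_trichotomy x x' with m | m | m
  · exact h1 m (by omega)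
  · rcases lt_trichotomy z z' with m' | m' | m'
    exacts [h4 (by omega) m', k (Or.inl ⟨m, m'⟩), h2 (by omega) m']
  · exact h3 m (by omega)

theorem exists_gap {lo hi i : ℤ} (h1 : K lo) (h2 : K hi) (a : lo < i) (c : i < hi) (n : ¬ K i) :
    ∃ p q, Gap K p q ∧ p < i ∧ i < q := by
  obtain ⟨p, p1, p2⟩ := Int.exists_greatest_of_bdd (P := fun j => j < i ∧ K j)
    ⟨i, fun j hj => hj.1.le⟩ ⟨lo, a, h1⟩
  obtain ⟨q, q1, q2⟩ := Int.exists_least_of_bdd (P := fun j => i < j ∧ K j)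
    ⟨i, fun j hj => hj.1.le⟩ ⟨hi, c, h2⟩
  refine ⟨p, q, ⟨by omega, p1.2, q1.2, fun j a c k => ?_⟩, p1.1, q1.1⟩
  rcases lt_trichotomy j i with m | rfl | m
  · have := p2 j ⟨m, k⟩; omega
  · exact n k
  · have := q2 j ⟨m, k⟩; omega

def Split (K K1 : ℤ → Prop) (p q u u' : ℤ) : Prop :=
  Gap K p q ∧ p < u ∧ u ≤ u' ∧ u' ≤ u + 1 ∧ u' < q ∧ ∀ i, K1 i ↔ K i ∨ i = u ∨ i = u'

theorem Split.left (s : Split K K1 p q u u') : Gap K1 p u := by
  obtain ⟨g, h1, h2, h3, h4, e⟩ := s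
  refine ⟨h1, (e _).2 (Or.inl g.2.1), (e _).2 (by simp), fun i a c k => ?_⟩
  rcases (e i).1 k with k | k
  exacts [g.2.2.2 i a (by omega) k, by omega]

theorem Split.right (s : Split K K1 p q u u') : Gap K1 u' q := by
  obtain ⟨g, h1, h2, h3, h4, e⟩ := s
  refine ⟨h4, (e _).2 (by simp), (e _).2 (Or.inl g.2.2.1), fun i a c k => ?_⟩
  rcases (e i).1 k with k | k
  exacts [g.2.2.2 i (by omega) c k, by omega]

theorem Split.of (s : Split K K1 p q u u') {p' q' : ℤ} (g' : Gap K1 p' q') (h : 2 ≤ q' - p') :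
    (Gap K p' q' ∧ p' ≠ p) ∨ (p' = p ∧ q' = u) ∨ (p' = u' ∧ q' = q) := by
  have e1 := g'.eq_or s.left
  have e2 := g'.eq_or s.right
  obtain ⟨g, h1, h2, h3, h4, e⟩ := s
  by_cases k : q' ≤ p ∨ q ≤ p'
  · exact Or.inl ⟨⟨g'.1, ((e _).1 g'.2.1).resolve_right (by omega),
      ((e _).1 g'.2.2.1).resolve_right (by omega),
      fun i a c m => g'.2.2.2 i a c ((e _).2 (Or.inl m))⟩, by omega⟩
  · right; omega

theorem Split.to (s : Split K K1 p q u u') {p' q' : ℤ} (g' : Gap K p' q') (h : p' ≠ p) :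
    Gap K1 p' q' := by
  obtain ⟨g, h1, h2, h3, h4, e⟩ := s
  have := g'.eq_or g
  refine ⟨g'.1, (e _).2 (Or.inl g'.2.1), (e _).2 (Or.inl g'.2.2.1), fun i a c k => ?_⟩
  rcases (e i).1 k with k | k
  exacts [g'.2.2.2 i a c k, by omega]

/-- some long run has a length of its own -/
def Uq (K : ℤ → Prop) (L : ℤ) : Prop :=
  ∃ x z, Gap K x z ∧ L ≤ z - x ∧ ∀ x' z', Gap K x' z' → z' - x' = z - x → x' = x

/-- no three long runs have the same length -/
def Tw (K : ℤ → Prop) (L : ℤ) : Prop :=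
  ∀ x1 z1 x2 z2 x3 z3, Gap K x1 z1 → Gap K x2 z2 → Gap K x3 z3 → L ≤ z1 - x1 →
    z2 - x2 = z1 - x1 → z3 - x3 = z1 - x1 → x1 = x2 ∨ x1 = x3 ∨ x2 = x3

theorem other (h : ¬ Uq K L) (g : Gap K x z) (hL : L ≤ z - x) :
    ∃ x' z', Gap K x' z' ∧ z' - x' = z - x ∧ x' ≠ x := by
  by_contra k
  exact h ⟨x, z, g, hL, fun x' z' a c => by_contra fun m => k ⟨x', z', a, c, m⟩⟩

/-- the data of a move of the spoiler -/
structure Gen (K K1 : ℤ → Prop) (L x z v v' : ℤ) : Prop where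
  L2 : 2 ≤ L
  sp : Split K K1 x z v v'
  gen : ∀ p q, Gap K p q → q - p ≤ z - x ∧ q - p ≠ v - x ∧ q - p ≠ z - v' ∧
    q - p ≠ z - v' - (v - x) ∧ q - p ≠ z - v' - (v - x) - 1
  lo : L ≤ v - x
  hi : 2 * (v - x) + 1 < z - v'

theorem Gen.step (h : Gen K K1 L x z v v') {Q : ℤ → ℤ → Prop}
    (s2 : (∀ i, K2 i ↔ K1 i) ∨ ∃ p q u u', Split K1 K2 p q u u' ∧ Q u u') (nU : ¬ Uq K2 L) :
    ∃ p q u u', Split K1 K2 p q u u' ∧ Q u u' ∧ Gap K p q ∧ p ≠ x ∧
      ((u - p = v - x ∧ q - u' = z - v') ∨ (u - p = z - v' ∧ q - u' = v - x)) := by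
  obtain ⟨L2, s1, gen, lo, hi⟩ := h
  have c1 : ∀ p q, Gap K1 p q → 2 ≤ q - p → (Gap K p q ∧ p ≠ x ∧ q - p ≠ v - x ∧
      q - p ≠ z - v' ∧ q - p ≠ z - v' - (v - x) ∧ q - p ≠ z - v' - (v - x) - 1) ∨
      (p = x ∧ q = v) ∨ (p = v' ∧ q = z) := fun p q g a =>
    (s1.of g a).imp_left fun k => ⟨k.1, k.2, (gen p q k.1).2⟩
  have b1 := s1.2.2.1
  rcases s2 with s2 | ⟨p, q, u, u', s2, hQ⟩
  · obtain rfl : K2 = K1 := funext fun i => propext (s2 i)
    obtain ⟨x', z', g, a, n⟩ := other nU s1.left lo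
    rcases c1 _ _ g (by omega) with k | k | k <;> omega
  have c2 : ∀ p' q', Gap K2 p' q' → 2 ≤ q' - p' → (p' ≠ p ∧ ((p' ≠ x ∧ q' - p' ≠ v - x ∧
      q' - p' ≠ z - v' ∧ q' - p' ≠ z - v' - (v - x) ∧ q' - p' ≠ z - v' - (v - x) - 1) ∨
      (p' = x ∧ q' = v) ∨ (p' = v' ∧ q' = z))) ∨ (p' = p ∧ q' = u) ∨ (p' = u' ∧ q' = q) :=
    fun p' q' g a => (s2.of g a).imp_left fun k => ⟨k.2, (c1 _ _ k.1 a).imp_left fun m => m.2⟩
  have b2 : p < u ∧ u ≤ u' ∧ u' ≤ u + 1 ∧ u' < q := ⟨s2.2.1, s2.2.2.1, s2.2.2.2.1, s2.2.2.2.2.1⟩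
  by_cases e : p = v'
  · exfalso
    have := s2.1.eq_or s1.right
    obtain ⟨x', z', g, a, n⟩ := other nU (s2.to s1.left (by omega)) lo
    have k := c2 _ _ g (by omega)
    by_cases m : u - p = v - x
    · obtain ⟨x'', z'', g', a', n'⟩ := other nU s2.right (by omega)
      have := c2 _ _ g' (by omega)
      omega
    · obtain ⟨x'', z'', g', a', n'⟩ := other nU s2.left (by omega)
      have := c2 _ _ g' (by omega)
      omega
  · obtain ⟨x', z', g, a, n⟩ := other nU (s2.to s1.right (Ne.symm e)) (by omega)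
    have k := c2 _ _ g (by omega)
    have k1 := (c1 _ _ s2.1 (by omega)).resolve_right (by omega)
    obtain ⟨x'', z'', g', a', n'⟩ := other nU (s2.to s1.left k1.2.1.symm) lo
    have := c2 _ _ g' (by omega)
    exact ⟨p, q, u, u', s2, hQ, k1.1, k1.2.1, by omega⟩

theorem Gen.cls (h : Gen K K1 L x z v v') (s2 : Split K1 K2 p q u u') {p' q' : ℤ}
    (g : Gap K2 p' q') (a : 2 ≤ q' - p') :
    (Gap K p' q' ∧ p' ≠ x ∧ q' - p' ≠ v - x ∧ q' - p' ≠ z - v') ∨ (p' = x ∧ q' = v) ∨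
      (p' = v' ∧ q' = z) ∨ (p' = p ∧ q' = u) ∨ (p' = u' ∧ q' = q) := by
  rcases s2.of g a with k | k
  · rcases h.sp.of k.1 a with m | m
    · have := h.gen _ _ m.1
      exact Or.inl ⟨m.1, m.2, this.2.1, this.2.2.1⟩
    · right; omega
  · right; omega

theorem Gen.stepU (h : Gen K K1 L x z v v) {Q : ℤ → ℤ → Prop} (hU : Uq K L)
    (s2 : (∀ i, K2 i ↔ K1 i) ∨ ∃ p q u u', Split K1 K2 p q u u' ∧ Q u u') : Uq K2 L := by
  by_contra nU
  obtain ⟨p, q, u, u', s2, -, g, n, e⟩ := h.step s2 nU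
  obtain ⟨x0, z0, g0, l0, u0⟩ := hU
  have b2 := s2.2.2.1
  have k1 := (h.gen _ _ g).1
  have k0 := h.gen _ _ g0
  have n0 : z0 - x0 ≠ z - x := fun k => n ((u0 _ _ g (by omega)).trans (u0 _ _ h.sp.1 k.symm).symm)
  have e1 := g0.eq_or h.sp.1
  have e2 := g0.eq_or g
  have := g0.1
  have := g.1
  have := h.sp.1.1
  have := h.L2
  refine nU ⟨x0, z0, s2.to (h.sp.to g0 (by omega)) (by omega), l0, fun x' z' g' a => ?_⟩
  rcases h.cls s2 g' (by omega) with k | k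
  exacts [u0 _ _ k.1 a, by omega]

theorem Gen.stepT (h : Gen K K1 L x z v (v + 1)) {Q : ℤ → ℤ → Prop} (hU : ¬ Uq K L) (hT : Tw K L)
    (s2 : (∀ i, K2 i ↔ K1 i) ∨ ∃ p q u u', Split K1 K2 p q u u' ∧ Q u u') (nU : ¬ Uq K2 L) :
    Tw K2 L ∧ ∃ p q u, Gap K1 p q ∧ Q u (u + 1) ∧ L ≤ u - p ∧ L ≤ q - (u + 1) := by
  obtain ⟨p, q, u, u', s2, hQ, g, n, e⟩ := h.step s2 nU
  have b2 := s2.2.2.1
  have b3 := s2.2.2.2.1
  have := h.L2
  have := h.lo
  have := h.hi
  rcases b3.eq_or_lt with rfl | b3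
  · refine ⟨fun x1 z1 x2 z2 x3 z3 g1 g2 g3 a1 a2 a3 => ?_, p, q, u, s2.1, hQ, by omega, by omega⟩
    rcases h.cls s2 g1 (by omega) with k1 | k1
    · rcases h.cls s2 g2 (by omega) with k2 | k2
      · rcases h.cls s2 g3 (by omega) with k3 | k3
        · exact hT _ _ _ _ _ _ k1.1 k2.1 k3.1 a1 a2 a3
        · omega
      · omega
    · have k2 := (h.cls s2 g2 (by omega)).resolve_left (by omega)
      have k3 := (h.cls s2 g3 (by omega)).resolve_left (by omega)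
      rcases k1 with k1 | k1 | k1 | k1 <;> rcases k2 with k2 | k2 | k2 | k2 <;> omega
  · exfalso
    obtain ⟨x1, z1, g1, a, n1⟩ := other hU h.sp.1 (by omega)
    have e2 := g1.eq_or g
    have := g.1
    refine nU ⟨x1, z1, s2.to (h.sp.to g1 n1) (by omega), by omega, fun x' z' g' a' => ?_⟩
    rcases h.cls s2 g' (by omega) with k | k
    · have := hT _ _ _ _ _ _ h.sp.1 g1 k.1 (by omega) a (by omega)
      omega
    · omega

end Pool.Agent.P.MP_c5202f_co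
end

-- part Pool.Agent.P.MP_c5202f_co.Run
section

/-! An unmatched square can be driven away from the centre row. -/

namespace Pool.Agent.P.MP_c5202f_co

def sg (ε x y : ℤ) : C := (ε * x, ε * y)

def Pm (ε : ℤ) : Prop := ε = 1 ∨ ε = -1

theorem Pm.neg {ε : ℤ} (h : Pm ε) : Pm (-ε) := by unfold Pm at *; omega

/-- a family of second-player wins in which the replies in two rows are mirror images -/
structure Fam (S : Set (Finset C)) (xl xr Y : ℤ) : Prop where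
  pos : 0 < Y
  cl : ∀ P ∈ S, ∀ d, Legal P d → ∃ s, Legal (P \ d) s ∧ (P \ d) \ s ∈ S
  tm : ∀ P ∈ S, ∀ ε x y x' y', Pm ε → Adj (x, y) (x', y') → xl ≤ x → x ≤ xr → Y ≤ y → y ≤ Y + 1 →
    xl ≤ x' → x' ≤ xr → Y ≤ y' → y' ≤ Y + 1 → sg ε x y ∈ P → sg ε x' y' ∈ P → sg (-ε) x y ∈ P

structure Runner (P : Finset C) (xl xr Y ε x y : ℤ) : Prop where
  pm : Pm ε
  y0 : 0 ≤ y
  y1 : y ≤ Y
  l : xl ≤ x - (Y + 2 - y)
  r : x + (Y + 2 - y) ≤ xr
  mem : sg ε x y ∈ P
  nmem : sg (-ε) x y ∉ P ∨ (x = 0 ∧ y = 0)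
  cone : ∀ δ x' y', Pm δ → y < y' → y' ≤ Y + 1 → x - (y' - y) ≤ x' → x' ≤ x + (y' - y) →
    sg δ x' y' ∈ P

def In (Y vx vy : ℤ) (z : C) : Prop :=
  ∃ δ x y, Pm δ ∧ z = sg δ x y ∧ vy < y ∧ y ≤ Y + 1 ∧ vx - (y - vy) ≤ x ∧ x ≤ vx + (y - vy)

variable {S : Set (Finset C)} {xl xr Y : ℤ} {P : Finset C}

theorem Fam.hit (h : Fam S xl xr Y) (hP : P ∈ S) {vx vy : ℤ} (h0 : 0 ≤ vy)
    (hl : xl ≤ vx - (Y + 2 - vy)) (hr : vx + (Y + 2 - vy) ≤ xr)
    (ih : ∀ ε x y, vy < y → ¬ Runner P xl xr Y ε x y) {q : C} {δ x y : ℤ} (hδ : Pm δ)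
    (ha : Adj (sg δ x y) q) (hp : sg δ x y ∉ P)
    (hf : ∀ δ' x' y', Pm δ' → vy < y' → y' ≤ Y + 1 → vx - (y' - vy) - 1 ≤ x' →
      x' ≤ vx + (y' - vy) + 1 → sg δ' x' y' ∈ P ∨ sg δ' x' y' = sg δ x y ∨ sg δ' x' y' = q)
    (h1 : vy < y) (h2 : y ≤ Y + 1) (h3 : vx - (y - vy) ≤ x) (h4 : x ≤ vx + (y - vy))
    (hq : ∀ δ' x' y', Pm δ' → q = sg δ' x' y' → y < y' → y' ≤ Y + 1 → vx - (y' - vy) ≤ x' →
      x' ≤ vx + (y' - vy) → False) : False := by
  have other : ∀ x', vx - (y - vy) - 1 ≤ x' → x' ≤ vx + (y - vy) + 1 → sg (-δ) x' y ∈ P := by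
    intro x' a b
    rcases hf (-δ) x' y hδ.neg h1 h2 a b with k | k | k
    · exact k
    · exfalso
      rcases hδ with rfl | rfl <;> simp only [sg, Prod.ext_iff] at k <;> omega
    · exfalso
      subst k
      rcases hδ with rfl | rfl <;> simp only [sg, Adj] at ha <;> omega
  by_cases hy : y ≤ Y
  · refine ih (-δ) x y h1 ⟨hδ.neg, by omega, hy, by omega, by omega,
      other x (by omega) (by omega), Or.inl (by rwa [neg_neg]), fun δ' x' y' a b c d e => ?_⟩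
    rcases hf δ' x' y' a (by omega) c (by omega) (by omega) with k | k | k
    · exact k
    · exfalso
      rcases hδ with rfl | rfl <;> rcases a with rfl | rfl <;>
        simp only [sg, Prod.ext_iff] at k <;> omega
    · exact (hq δ' x' y' a k.symm b c (by omega) (by omega)).elim
  · have := h.tm P hP (-δ) x y (x + 1) y hδ.neg (by simp [Adj]) (by omega) (by omega) (by omega)
      (by omega) (by omega) (by omega) (by omega) (by omega) (other x (by omega) (by omega))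
      (other (x + 1) (by omega) (by omega))
    rw [neg_neg] at this
    exact hp this

theorem Fam.hit' (h : Fam S xl xr Y) (hP : P ∈ S) {vx vy : ℤ} (h0 : 0 ≤ vy)
    (hl : xl ≤ vx - (Y + 2 - vy)) (hr : vx + (Y + 2 - vy) ≤ xr)
    (ih : ∀ ε x y, vy < y → ¬ Runner P xl xr Y ε x y) {p q : C} (ha : Adj p q) (hp : p ∉ P)
    (hq : q ∉ P)
    (hf : ∀ δ' x' y', Pm δ' → vy < y' → y' ≤ Y + 1 → vx - (y' - vy) - 1 ≤ x' →
      x' ≤ vx + (y' - vy) + 1 → sg δ' x' y' ∈ P ∨ sg δ' x' y' = p ∨ sg δ' x' y' = q) :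
    ¬ In Y vx vy p := by
  rintro ⟨δ, x, y, hδ, rfl, h1, h2, h3, h4⟩
  refine h.hit hP h0 hl hr ih hδ ha hp hf h1 h2 h3 h4 ?_
  rintro δ' x' y' hδ' rfl k1 k2 k3 k4
  refine h.hit hP h0 hl hr ih hδ' ha.symm hq
    (fun a b c d e f g i => (hf a b c d e f g i).imp_right Or.symm) (by omega) k2 k3 k4 ?_
  intro δ'' x'' y'' hδ'' e m1 _ _ _
  rcases hδ with rfl | rfl <;> rcases hδ'' with rfl | rfl <;>
    simp only [sg, Prod.ext_iff] at e <;> omega

theorem Fam.run (h : Fam S xl xr Y) (n : ℕ) :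
    ∀ P ∈ S, ∀ ε x y, Y - y ≤ n → ¬ Runner P xl xr Y ε x y := by
  have top : ∀ P ∈ S, ∀ ε x, ¬ Runner P xl xr Y ε x Y := fun P hP ε x R => by
    have := h.pos
    have := R.l
    have := R.r
    have k := h.tm P hP ε x Y x (Y + 1) R.pm (by simp [Adj]) (by omega) (by omega) (by omega)
      (by omega) (by omega) (by omega) (by omega) (by omega) R.mem
      (R.cone ε x (Y + 1) R.pm (by omega) (by omega) (by omega) (by omega))
    rcases R.nmem with m | m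
    · exact m k
    · omega
  induction n with
  | zero =>
    intro P hP ε x y hn R
    obtain rfl : y = Y := by have := R.y1; omega
    exact top P hP ε x R
  | succ n ih =>
    intro P hP ε x y hn R
    rcases R.y1.eq_or_lt with rfl | hy
    · exact top P hP ε x R
    have hε := R.pm
    have y0 := R.y0
    have hl := R.l
    have hr := R.r
    have ad : Adj (sg ε x y) (sg ε x (y + 1)) := by
      rcases hε with rfl | rfl <;> simp [sg, Adj]
    obtain ⟨s, hs, hP'⟩ := h.cl P hP _ (legal_pair ad R.mem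
      (R.cone ε x (y + 1) hε (by omega) (by omega) (by omega) (by omega)))
    have ih' : ∀ ε' x' y', y < y' → ¬ Runner ((P \ {sg ε x y, sg ε x (y + 1)}) \ s) xl xr Y
        ε' x' y' := fun ε' x' y' k => ih _ hP' ε' x' y' (by push_cast at hn; omega)
    have free : ∀ δ x' y', Pm δ → y < y' → y' ≤ Y + 1 → x - (y' - y) ≤ x' → x' ≤ x + (y' - y) →
        sg δ x' y' ≠ sg ε x (y + 1) → sg δ x' y' ∉ s →
        sg δ x' y' ∈ (P \ {sg ε x y, sg ε x (y + 1)}) \ s := by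
      intro δ x' y' a b c d e f g
      simp only [Finset.mem_sdiff, Finset.mem_insert, Finset.mem_singleton, not_or]
      refine ⟨⟨R.cone δ x' y' a b c d e, fun k => ?_, f⟩, g⟩
      rcases hε with rfl | rfl <;> rcases a with rfl | rfl <;>
        simp only [sg, Prod.ext_iff] at k <;> omega
    have high : ∀ δ x' y', Pm δ → y + 1 < y' → sg δ x' y' ≠ sg ε x (y + 1) := by
      intro δ x' y' a b k
      rcases hε with rfl | rfl <;> rcases a with rfl | rfl <;>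
        simp only [sg, Prod.ext_iff] at k <;> omega
    have miss : ∀ p ∈ s, ¬ In Y x (y + 1) p := by
      intro p hp
      obtain ⟨q, hpq, -, -, e⟩ := hs.at hp
      refine h.hit' hP' (by omega) (by omega) (by omega) (fun a b c d => ih' a b c (by omega)) hpq
        (fun k => (Finset.mem_sdiff.1 k).2 hp) (fun k => (Finset.mem_sdiff.1 k).2 (by simp [e])) ?_
      intro δ x' y' a b c d e'
      by_cases k : sg δ x' y' ∈ s
      · rw [e] at k
        exact Or.inr (by simpa using k)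
      · exact Or.inl (free δ x' y' a (by omega) c (by omega) (by omega) (high δ x' y' a b) k)
    by_cases ht : sg (-ε) x (y + 1) ∈ s
    · obtain ⟨z, hz, -, hzP, e⟩ := hs.at ht
      have cs : z = sg (-ε) x (y + 2) ∨ z = sg (-ε) x y ∨
          ∃ x', z = sg (-ε) x' (y + 1) ∧ (x' = x + 1 ∨ x' = x - 1) := by
        have : z = sg (-ε) x (y + 2) ∨ z = sg (-ε) x y ∨ z = sg (-ε) (x + 1) (y + 1) ∨
            z = sg (-ε) (x - 1) (y + 1) := by
          rcases hε with rfl | rfl <;> simp only [sg, Adj, Prod.ext_iff] at hz ⊢ <;> omega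
        rcases this with k | k | k | k
        exacts [Or.inl k, Or.inr (Or.inl k), Or.inr (Or.inr ⟨_, k, Or.inl rfl⟩),
          Or.inr (Or.inr ⟨_, k, Or.inr rfl⟩)]
      rcases cs with k | k | ⟨x', k, hx'⟩
      · exact miss z (by simp [e]) ⟨-ε, x, y + 2, hε.neg, k, by omega, by omega, by omega, by omega⟩
      · rw [k, Finset.mem_sdiff] at hzP
        rcases R.nmem with m | ⟨rfl, rfl⟩
        · exact m hzP.1
        · exact hzP.2 (by simp [sg])
      · refine ih' ε x' (y + 1) (by omega) ⟨hε, by omega, by omega, by omega, by omega,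
          free ε x' (y + 1) hε (by omega) (by omega) (by omega) (by omega) ?_ ?_,
          Or.inl fun m => (Finset.mem_sdiff.1 m).2 (by simp [e, k]), fun δ x'' y'' a b c d f =>
          free δ x'' y'' a (by omega) c (by omega) (by omega) (high δ x'' y'' a b) ?_⟩
        · intro m
          rcases hε with rfl | rfl <;> simp only [sg, Prod.ext_iff] at m <;> omega
        · rw [e, k]
          rcases hε with rfl | rfl <;>
            simp only [sg, Prod.ext_iff, Finset.mem_insert, Finset.mem_singleton] <;> omega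
        · rw [e, k]
          rcases hε with rfl | rfl <;> rcases a with rfl | rfl <;>
            simp only [sg, Prod.ext_iff, Finset.mem_insert, Finset.mem_singleton] <;> omega
    · refine ih' (-ε) x (y + 1) (by omega) ⟨hε.neg, by omega, by omega, by omega, by omega,
        free (-ε) x (y + 1) hε.neg (by omega) (by omega) (by omega) (by omega) ?_ ht,
        Or.inl fun m => ?_, fun δ x'' y'' a b c d f =>
        free δ x'' y'' a (by omega) c (by omega) (by omega) (high δ x'' y'' a b) fun m =>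
          miss _ m ⟨δ, x'', y'', a, rfl, b, c, d, f⟩⟩
      · intro m
        rcases hε with rfl | rfl <;> simp only [sg, Prod.ext_iff] at m <;> omega
      · rw [neg_neg] at m
        exact (Finset.mem_sdiff.1 (Finset.mem_sdiff.1 m).1).2 (by simp)

theorem Fam.start {X : ℤ} (h : Fam S (X - (Y + 3)) (X + (Y + 3)) Y) (hP : P ∈ S) {p q : C}
    (ha : Adj p q) (hp : p ∉ P) (hq : q ∉ P)
    (hf : ∀ δ x y, Pm δ → 0 ≤ y → y ≤ Y + 1 → X - (Y + 3) ≤ x → x ≤ X + (Y + 3) →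
      sg δ x y ∈ P ∨ sg δ x y = p ∨ sg δ x y = q) (hX : X = 0 ∨ q = (X, 1)) : False := by
  have pos := h.pos
  have no : ∀ ε x y, ¬ Runner P (X - (Y + 3)) (X + (Y + 3)) Y ε x y := fun ε x y =>
    h.run (Y - y).toNat P hP ε x y (by omega)
  have m1 : ¬ In Y X 0 p := h.hit' hP le_rfl (by omega) (by omega) (fun a b c _ => no a b c) ha
    hp hq fun δ x y a b c d e => hf δ x y a (by omega) c (by omega) (by omega)
  have m2 : ¬ In Y X 0 q := h.hit' hP le_rfl (by omega) (by omega) (fun a b c _ => no a b c)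
    ha.symm hq hp fun δ x y a b c d e =>
      (hf δ x y a (by omega) c (by omega) (by omega)).imp_right Or.symm
  rcases hX with rfl | rfl
  swap
  · exact m2 ⟨1, X, 1, Or.inl rfl, by simp [sg], by omega, by omega, by omega, by omega⟩
  have side : ∀ {p q : C}, Adj p q → q ∉ P → ¬ In Y 0 0 q → sg 1 0 0 = p →
      (∀ δ x y, Pm δ → 0 ≤ y → y ≤ Y + 1 → 0 - (Y + 3) ≤ x → x ≤ 0 + (Y + 3) →
        sg δ x y ∈ P ∨ sg δ x y = p ∨ sg δ x y = q) → False := by
    intro p q ha hq m e hf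
    subst e
    have cs : ∃ ε, Pm ε ∧ q = sg (-ε) 1 0 := by
      rcases ha.cases with rfl | rfl | rfl | rfl
      · exact ⟨-1, Or.inr rfl, by simp [sg]⟩
      · exact ⟨1, Or.inl rfl, by simp [sg]⟩
      · exact (m ⟨1, 0, 1, Or.inl rfl, by simp [sg], by omega, by omega, by omega, by omega⟩).elim
      · exact (m ⟨-1, 0, 1, Or.inr rfl, by simp [sg], by omega, by omega, by omega, by omega⟩).elim
    obtain ⟨ε, hε, rfl⟩ := cs
    refine no ε 1 0 ⟨hε, le_rfl, by omega, by omega, by omega, ?_, Or.inl hq,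
      fun δ x y a b c d e => ?_⟩
    · rcases hf ε 1 0 hε le_rfl (by omega) (by omega) (by omega) with k | k | k
      · exact k
      all_goals
        exfalso
        rcases hε with rfl | rfl <;> simp only [sg, Prod.ext_iff] at k <;> omega
    · rcases hf δ x y a (by omega) c (by omega) (by omega) with k | k | k
      · exact k
      all_goals
        exfalso
        rcases hε with rfl | rfl <;> rcases a with rfl | rfl <;>
          simp only [sg, Prod.ext_iff] at k <;> omega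
  rcases hf 1 0 0 (Or.inl rfl) le_rfl (by omega) (by omega) (by omega) with k | k | k
  · refine no 1 0 0 ⟨Or.inl rfl, le_rfl, by omega, by omega, by omega, k, Or.inr ⟨rfl, rfl⟩,
      fun δ x y a b c d e => ?_⟩
    rcases hf δ x y a (by omega) c (by omega) (by omega) with k | k | k
    · exact k
    · exact (m1 ⟨δ, x, y, a, k.symm, b, c, d, e⟩).elim
    · exact (m2 ⟨δ, x, y, a, k.symm, b, c, d, e⟩).elim
  · exact side ha hq m2 k hf
  · exact side ha.symm hp m1 k fun a b c d e f g i => (hf a b c d e f g i).imp_right Or.symm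

end Pool.Agent.P.MP_c5202f_co
end

-- part Pool.Agent.P.MP_c5202f_co.Main
section

/-! No player can force a paired position in few rounds. -/

namespace Pool.Agent.P.MP_c5202f_co

theorem band (B : Finset ℤ) (c : ℤ) {M : ℕ} (h : B.card ≤ M) :
    ∃ i : ℕ, i ≤ M ∧ ∀ z ∈ B, z < c + 10 * i ∨ c + 10 * i + 9 < z := by
  by_contra hc
  have k : ∀ i : ℕ, ∃ z, i ≤ M → z ∈ B ∧ c + 10 * i ≤ z ∧ z ≤ c + 10 * i + 9 := fun i => by
    by_contra h'
    push Not at h'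
    refine hc ⟨i, (h' 0).1, fun z hz => ?_⟩
    have := (h' z).2 hz
    omega
  choose f hf using k
  have := Finset.card_le_card_of_injOn (s := Finset.range (M + 1)) (t := B) f
    (fun i hi => (hf i (by simpa [Nat.lt_succ_iff] using hi)).1) fun i hi j hj e => by
      have h1 := hf i (by simpa [Nat.lt_succ_iff] using hi)
      have h2 := hf j (by simpa [Nat.lt_succ_iff] using hj)
      omega
  simp only [Finset.card_range] at this
  omega

/-- the columns at distance at most `H` from `X` or `-X` hold at most one domino -/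
def Wit (a b : ℕ) (H X : ℤ) (F : Finset C) : Prop :=
  ∃ p q, Adj p q ∧ p ∉ F ∧ q ∉ F ∧ (X = 0 ∨ q = (X, 1)) ∧ ∀ u ∈ board a b,
    (X - H ≤ u.1 ∧ u.1 ≤ X + H) ∨ (-X - H ≤ u.1 ∧ u.1 ≤ -X + H) → u ∈ F ∨ u = p ∨ u = q

theorem card_two (B : Finset ℤ) (x y : ℤ) {w : ℕ} (h : B.card ≤ w) :
    (insert x (insert y B)).card ≤ w + 2 :=
  (Finset.card_insert_le _ _).trans (by have := Finset.card_insert_le y B; omega)

theorem not_paired {w a b N : ℕ} {X : ℤ} {F : Finset C} (hF : F ⊆ board a b)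
    (hN : (board a b \ F).card ≤ N) (ha : -(a : ℤ) < X - (10 * w + 34) ∧ X + (10 * w + 34) < a)
    (hb : 10 * (N + w) + 40 ≤ b) (hW : Wit a b (10 * w + 34) X F) : ¬ Paired w F := by
  rintro ⟨W, r, S, w1, w2, hS, cl⟩
  obtain ⟨p, q, hpq, hp, hq, hX, free⟩ := hW
  have leg : ∀ {P d : Finset C}, Legal (P \ W) d → Legal P d ∧ Disjoint d W := fun h =>
    ⟨⟨h.1.trans Finset.sdiff_subset, h.2⟩, (Finset.subset_sdiff.1 h.1).2⟩
  have rep : Rep (F \ W) r := by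
    constructor
    · intro d hd
      obtain ⟨s, hs, -, e⟩ := cl F hS d (leg hd).1
      obtain ⟨rfl, e⟩ := e (leg hd).2
      have := Finset.subset_sdiff.1 hs.1
      exact ⟨⟨Finset.subset_sdiff.2 ⟨this.1, e⟩, hs.2⟩, this.2.symm⟩
    · intro e d he hd h1 h2
      obtain ⟨s, -, hP, k⟩ := cl F hS e (leg he).1
      obtain ⟨rfl, -⟩ := k (leg he).2
      obtain ⟨s, hs, -, k⟩ := cl _ hP d ⟨Finset.subset_sdiff.2
        ⟨Finset.subset_sdiff.2 ⟨(leg hd).1.1, h1⟩, h2⟩, hd.2⟩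
      obtain ⟨rfl, -⟩ := k (leg hd).2
      have := Finset.subset_sdiff.1 (Finset.subset_sdiff.1 hs.1).1
      exact ⟨(Finset.subset_sdiff.1 this.1).2, this.2⟩
  have hF' : F \ W ⊆ board a b := Finset.sdiff_subset.trans hF
  obtain ⟨σ, inv, pr⟩ := rep.exists_inv
  obtain ⟨i, hi, bi⟩ := band ((board a b \ F).image Prod.snd ∪ W.image Prod.snd) 0 (M := N + w)
    ((Finset.card_union_le _ _).trans (add_le_add (Finset.card_image_le.trans hN) w2))
  obtain ⟨j, hj, bj⟩ := band _ (X - 4) (card_two _ p.1 q.1 w1)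
  obtain ⟨l, hl, bl⟩ := band _ 2 (card_two _ p.2 q.2 w2)
  have gi : ∀ x y : ℤ, -(a : ℤ) + 1 ≤ x → x ≤ a - 1 → 10 * i + 3 ≤ y → y ≤ 10 * i + 5 →
      Good (F \ W) r (x, y) := by
    intro x y h1 h2 h3 h4
    refine rep.good hF' (by omega) (by omega) fun u hu _ _ k1 k2 => Finset.mem_sdiff.2 ⟨?_, ?_⟩
    · by_contra k
      have := bi u.2 (Finset.mem_union_left _
        (Finset.mem_image_of_mem _ (Finset.mem_sdiff.2 ⟨hu, k⟩)))
      omega
    · intro k
      have := bi u.2 (Finset.mem_union_right _ (Finset.mem_image_of_mem _ k))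
      omega
  have gj : ∀ x y : ℤ, -(b : ℤ) + 1 ≤ y → y ≤ b - 1 → X + 10 * j - 1 ≤ x → x ≤ X + 10 * j + 2 →
      Good (F \ W) r (x, y) := by
    intro x y h1 h2 h3 h4
    refine rep.good hF' (by omega) (by omega) fun u hu k1 k2 _ _ => Finset.mem_sdiff.2 ⟨?_, ?_⟩
    · rcases free u hu (Or.inl (by omega)) with k | rfl | rfl
      · exact k
      · have := bj u.1 (by simp); omega
      · have := bj u.1 (by simp); omega
    · intro k
      have := bj u.1 (Finset.mem_insert_of_mem (Finset.mem_insert_of_mem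
        (Finset.mem_image_of_mem _ k)))
      omega
  have gl : ∀ x y : ℤ, X - (10 * w + 31) ≤ x → x ≤ X + (10 * w + 31) → 10 * l + 5 ≤ y →
      y ≤ 10 * l + 8 → Good (F \ W) r (x, y) := by
    intro x y h1 h2 h3 h4
    refine rep.good hF' (by omega) (by omega) fun u hu m1 m2 k1 k2 => Finset.mem_sdiff.2 ⟨?_, ?_⟩
    · rcases free u hu (Or.inl (by omega)) with k | rfl | rfl
      · exact k
      · have := bl u.2 (by simp); omega
      · have := bl u.2 (by simp); omega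
    · intro k
      have := bl u.2 (Finset.mem_insert_of_mem (Finset.mem_insert_of_mem
        (Finset.mem_image_of_mem _ k)))
      omega
  have c0 := inv.cross (a := a) (b := b) (x0 := X + 10 * j) (y0 := 10 * i + 4)
    (fun v hv => hv.bound hF') (by omega) (by omega)
    (fun x y h1 h2 h3 h4 => gi x y h1 h2 (by omega) (by omega))
    fun x y h1 h2 h3 h4 => gj x y h1 h2 (by omega) (by omega)
  have c1 := inv.cross (a := a) (b := b) (x0 := X + 10 * j + 1) (y0 := 10 * i + 4)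
    (fun v hv => hv.bound hF') (by omega) (by omega)
    (fun x y h1 h2 h3 h4 => gi x y h1 h2 (by omega) (by omega))
    fun x y h1 h2 h3 h4 => gj x y h1 h2 (by omega) (by omega)
  have zone : ∀ x y : ℤ, X - (10 * w + 31) ≤ x → x ≤ X + (10 * w + 31) → 10 * l + 6 ≤ y →
      y ≤ 10 * l + 7 → σ (x, y) = (-x, -y) := fun x y h1 h2 h3 h4 =>
    inv.line (x0 := X + 10 * j) (fun x y' k1 k2 k3 k4 => gl x y' k1 k2 (by omega) (by omega))
      (by omega) (by omega) (c0 y (by omega) (by omega)) (c1 y (by omega) (by omega)) x h1 h2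
  have zone' : ∀ ε x y : ℤ, Pm ε → X - (10 * w + 31) ≤ x → x ≤ X + (10 * w + 31) →
      10 * l + 6 ≤ y → y ≤ 10 * l + 7 →
      Good (F \ W) r (sg ε x y) ∧ σ (sg ε x y) = sg (-ε) x y := by
    intro ε x y hε h1 h2 h3 h4
    have g := gl x y h1 h2 (by omega) (by omega)
    have z := zone x y h1 h2 h3 h4
    rcases hε with rfl | rfl
    · simpa [sg] using ⟨g, z⟩
    · have g' := inv.mem _ g
      have z' := inv.inv _ g
      rw [z] at g' z'
      simpa [sg] using ⟨g', z'⟩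
  have fam : Fam S (X - (10 * l + 6 + 3)) (X + (10 * l + 6 + 3)) (10 * l + 6) := by
    refine ⟨by omega, fun P hP d hd => (cl P hP d hd).imp fun s hs => ⟨hs.1, hs.2.1⟩, ?_⟩
    intro P hP ε x y x' y' hε had h1 h2 h3 h4 h5 h6 h7 h8 m1 m2
    obtain ⟨g1, z1⟩ := zone' ε x y hε (by omega) (by omega) (by omega) (by omega)
    obtain ⟨g2, z2⟩ := zone' ε x' y' hε (by omega) (by omega) (by omega) (by omega)
    have ad : Adj (sg ε x y) (sg ε x' y') := by
      rcases hε with rfl | rfl <;> simp only [sg, Adj] at had ⊢ <;> omega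
    obtain ⟨s, hs, -, k⟩ := cl P hP _ (legal_pair ad m1 m2)
    obtain ⟨rfl, -⟩ := k (by
      simp only [Finset.disjoint_insert_left, Finset.disjoint_singleton_left]
      exact ⟨(Finset.mem_sdiff.1 g1.1).2, (Finset.mem_sdiff.1 g2.1).2⟩)
    rw [pr _ _ g1 g2 ad, z1] at hs
    exact (Finset.mem_sdiff.1 (hs.1 (by simp))).1
  refine fam.start hS hpq hp hq (fun δ x y hδ h1 h2 h3 h4 => free _ (mem_board.2 ?_) ?_) hX
  · rcases hδ with rfl | rfl <;> simp only [sg] <;> omega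
  · rcases hδ with rfl | rfl <;> simp only [sg] <;> omega

theorem strip_eq {H : ℤ} (hH : 0 ≤ H) {t t' : ℕ} {x x' : ℤ} (h : x - x' ≤ 1 ∧ x' - x ≤ 1)
    (h1 : (-((2 * H + 2) * t) - H ≤ x ∧ x ≤ -((2 * H + 2) * t) + H) ∨
      (- -((2 * H + 2) * t) - H ≤ x ∧ x ≤ - -((2 * H + 2) * t) + H))
    (h2 : (-((2 * H + 2) * t') - H ≤ x' ∧ x' ≤ -((2 * H + 2) * t') + H) ∨
      (- -((2 * H + 2) * t') - H ≤ x' ∧ x' ≤ - -((2 * H + 2) * t') + H)) : t = t' := by
  have key : ∀ s s' : ℕ, s < s' → (2 * H + 2) * s + (2 * H + 2) ≤ (2 * H + 2) * s' := by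
    intro s s' k
    have : (s : ℤ) + 1 ≤ s' := by exact_mod_cast k
    nlinarith
  have p1 : 0 ≤ (2 * H + 2) * (t : ℤ) := by positivity
  have p2 : 0 ≤ (2 * H + 2) * (t' : ℤ) := by positivity
  rcases lt_trichotomy t t' with k | k | k
  · have := key _ _ k; omega
  · exact k
  · have := key _ _ k; omega

theorem Wit.step {a b : ℕ} {H X : ℤ} {F d : Finset C} (h : Wit a b H X F)
    (hd : ∀ u ∈ d, ¬ ((X - H ≤ u.1 ∧ u.1 ≤ X + H) ∨ (-X - H ≤ u.1 ∧ u.1 ≤ -X + H))) :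
    Wit a b H X (F \ d) := by
  obtain ⟨p, q, hpq, hp, hq, hX, free⟩ := h
  exact ⟨p, q, hpq, fun k => hp (Finset.mem_sdiff.1 k).1, fun k => hq (Finset.mem_sdiff.1 k).1, hX,
    fun u hu k => (free u hu k).imp_left fun m => Finset.mem_sdiff.2 ⟨m, fun m' => hd u m' k⟩⟩

theorem Legal.card_step {B F d : Finset C} (h : Legal F d) :
    (B \ (F \ d)).card ≤ (B \ F).card + 2 := by
  obtain ⟨u, v, -, -, -, rfl⟩ := legal_iff.1 h
  refine (Finset.card_le_card (t := (B \ F) ∪ {u, v}) fun z hz => ?_).trans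
    ((Finset.card_union_le _ _).trans (by have := Finset.card_le_two (a := u) (b := v); omega))
  simp only [Finset.mem_sdiff, Finset.mem_union] at hz ⊢
  tauto

theorem not_force {w a b N : ℕ} {H : ℤ} (hH : H = 10 * w + 34)
    (ha : (2 * H + 2) * (N + 1) + H < a) (hb : 10 * (N + w) + 40 ≤ b) (k : ℕ) :
    ∀ F : Finset C, F ⊆ board a b → (board a b \ F).card + 4 * k ≤ N →
      (∃ t : ℕ, t ≤ N + 1 ∧ Wit a b H (-((2 * H + 2) * t)) F) → ¬ Force w k F := by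
  have H0 : 0 ≤ H := by omega
  have rng : ∀ t : ℕ, t ≤ N + 1 → 0 ≤ (2 * H + 2) * (t : ℤ) ∧ (2 * H + 2) * (t : ℤ) + H < a := by
    intro t ht
    have : (t : ℤ) ≤ N + 1 := by exact_mod_cast ht
    exact ⟨by positivity, by nlinarith⟩
  have np : ∀ F : Finset C, F ⊆ board a b → (board a b \ F).card ≤ N →
      (∃ t : ℕ, t ≤ N + 1 ∧ Wit a b H (-((2 * H + 2) * t)) F) → ¬ Paired w F := by
    rintro F hF hN ⟨t, ht, hW⟩
    have := rng t ht
    exact not_paired (X := -((2 * H + 2) * t)) hF hN (by omega) hb (hH ▸ hW)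
  induction k with
  | zero => exact fun F hF hN hW => np F hF (by omega) hW
  | succ k ih =>
    rintro F hF hN ⟨t, ht, hW⟩ (hP | hP)
    · exact np F hF (by omega) ⟨t, ht, hW⟩ hP
    have fresh : ∃ t' : ℕ, 1 ≤ t' ∧ t' ≤ N + 1 ∧ ∀ u ∈ board a b,
        (-((2 * H + 2) * t') - H ≤ u.1 ∧ u.1 ≤ -((2 * H + 2) * t') + H) ∨
        (- -((2 * H + 2) * t') - H ≤ u.1 ∧ u.1 ≤ - -((2 * H + 2) * t') + H) → u ∈ F := by
      by_contra hc
      have k' : ∀ t' : ℕ, ∃ u : C, 1 ≤ t' → t' ≤ N + 1 → u ∈ board a b \ F ∧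
          ((-((2 * H + 2) * t') - H ≤ u.1 ∧ u.1 ≤ -((2 * H + 2) * t') + H) ∨
          (- -((2 * H + 2) * t') - H ≤ u.1 ∧ u.1 ≤ - -((2 * H + 2) * t') + H)) := fun t' => by
        by_contra h'
        refine hc ⟨t', ?_, ?_, fun u hu m => ?_⟩
        · by_contra m; exact h' ⟨(0, 0), fun m' => absurd m' m⟩
        · by_contra m; exact h' ⟨(0, 0), fun _ m' => absurd m' m⟩
        · by_contra m'; exact h' ⟨u, fun _ _ => ⟨Finset.mem_sdiff.2 ⟨hu, m'⟩, m⟩⟩
      choose f hf using k'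
      have := Finset.card_le_card_of_injOn (s := Finset.Icc 1 (N + 1)) (t := board a b \ F) f
        (fun i hi => by
          have := Finset.mem_Icc.1 (Finset.mem_coe.1 hi)
          exact (hf i this.1 this.2).1) fun i hi j hj e => by
          have m1 := Finset.mem_Icc.1 (Finset.mem_coe.1 hi)
          have m2 := Finset.mem_Icc.1 (Finset.mem_coe.1 hj)
          exact strip_eq H0 (by rw [e]; omega) (hf i m1.1 m1.2).2 (hf j m2.1 m2.2).2
      simp only [Nat.card_Icc] at this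
      omega
    obtain ⟨t', t1, t2, free⟩ := fresh
    have r' := rng t' t2
    have b0 : ((-((2 * H + 2) * t'), 0) : C) ∈ board a b := mem_board.2 (by simp only; omega)
    have b1 : ((-((2 * H + 2) * t'), 1) : C) ∈ board a b := mem_board.2 (by simp only; omega)
    have ad : Adj (-((2 * H + 2) * t'), 0) (-((2 * H + 2) * t'), 1) := by simp [Adj]
    have hd := legal_pair ad (free _ b0 (Or.inl (by simp only; omega)))
      (free _ b1 (Or.inl (by simp only; omega)))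
    have ne : t ≠ t' := by
      rintro rfl
      obtain ⟨p, q, -, -, hq, hX, -⟩ := hW
      rcases hX with m | rfl
      · have : (1 : ℤ) ≤ t := by exact_mod_cast t1
        nlinarith
      · exact hq (free _ b1 (Or.inl (by simp only; omega)))
    have w1 : Wit a b H (-((2 * H + 2) * t)) (F \ {(-((2 * H + 2) * t'), 0),
        (-((2 * H + 2) * t'), 1)}) := hW.step fun u hu m => by
      simp only [Finset.mem_insert, Finset.mem_singleton] at hu
      refine ne (strip_eq H0 (x' := -((2 * H + 2) * t')) ?_ m (Or.inl (by omega)))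
      rcases hu with rfl | rfl <;> simp
    have w2 : Wit a b H (-((2 * H + 2) * t')) (F \ {(-((2 * H + 2) * t'), 0),
        (-((2 * H + 2) * t'), 1)}) := by
      refine ⟨_, _, ad, by simp, by simp, Or.inr rfl, fun u hu m => ?_⟩
      have := free u hu m
      simp only [Finset.mem_sdiff, Finset.mem_insert, Finset.mem_singleton]
      tauto
    obtain ⟨s, hs, hf⟩ := hP _ hd
    have c1 := hd.card_step (B := board a b)
    have c2 := hs.card_step (B := board a b)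
    refine ih _ (Finset.sdiff_subset.trans (Finset.sdiff_subset.trans hF)) (by omega) ?_ hf
    by_cases m : ∃ u ∈ s, (-((2 * H + 2) * t') - H ≤ u.1 ∧ u.1 ≤ -((2 * H + 2) * t') + H) ∨
        (- -((2 * H + 2) * t') - H ≤ u.1 ∧ u.1 ≤ - -((2 * H + 2) * t') + H)
    · obtain ⟨u, hu, m⟩ := m
      refine ⟨t, ht, w1.step fun v hv m' => ne (strip_eq H0 ?_ m' m)⟩
      obtain ⟨c, hc, -, -, e⟩ := hs.at hu
      rw [e] at hv
      simp only [Finset.mem_insert, Finset.mem_singleton] at hv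
      rcases hv with rfl | rfl
      · omega
      · simp only [Adj] at hc; omega
    · exact ⟨t', t2, w2.step fun u hu m' => m ⟨u, hu, m'⟩⟩

theorem main (k w a b : ℕ) (ha : 300 * (k + 1) * (w + 1) ≤ a) (hb : 300 * (k + 1) * (w + 1) ≤ b) :
    ¬ Force w k (board a b) ∧ ∀ s, Legal (board a b) s → ¬ Force w k (board a b \ s) := by
  have h1 : (2 * (10 * (w : ℤ) + 34) + 2) * (((4 * k + 2 : ℕ) : ℤ) + 1) + (10 * w + 34) < a := by
    have : ((300 * (k + 1) * (w + 1) : ℕ) : ℤ) ≤ a := by exact_mod_cast ha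
    push_cast at this ⊢
    have : (0 : ℤ) ≤ k * w := by positivity
    nlinarith
  have h2 : 10 * (4 * k + 2 + w) + 40 ≤ b := by nlinarith [Nat.zero_le (k * w)]
  have key := not_force rfl h1 h2 k
  refine ⟨key _ subset_rfl (by simp) ⟨0, by omega, ((a : ℤ) + 1, 0), ((a : ℤ) + 1, 1),
    by simp [Adj], by simp [mem_board], by simp [mem_board], Or.inl (by simp),
    fun u hu _ => Or.inl hu⟩, fun s hs => key _ Finset.sdiff_subset ?_ ?_⟩
  · have := hs.card_step (B := board a b)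
    simp only [sdiff_self, Finset.bot_eq_empty, Finset.card_empty] at this
    omega
  · obtain ⟨p, q, hpq, -, -, rfl⟩ := legal_iff.1 hs
    refine ⟨0, by omega, p, q, hpq, by simp, by simp, Or.inl (by simp), fun u hu _ => ?_⟩
    simp only [Finset.mem_sdiff, Finset.mem_insert, Finset.mem_singleton]
    tauto

end Pool.Agent.P.MP_c5202f_co
end

-- part Pool.Agent.P.MP_c5202f_co.Game
section

/-! Long boards of small height. -/

namespace Pool.Agent.P.MP_c5202f_co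

variable {F : Finset C} {a b : ℕ} {L : ℤ}

/-- the columns that are not empty -/
def KK (F : Finset C) (b : ℕ) : ℤ → Prop := fun i => ¬ CF F b i

theorem KK.out (hF : F ⊆ board a b) {i : ℤ} (h : i < -a ∨ a < i) : KK F b i := fun k => by
  have := mem_board.1 (hF (k 0 (by omega) (by omega)))
  simp only at this
  omega

theorem KK.sdiff (hF : F ⊆ board a b) {s : Finset C} (hs : s ⊆ F) (i : ℤ) :
    KK (F \ s) b i ↔ KK F b i ∨ ∃ c ∈ s, c.1 = i := by
  constructor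
  · intro k
    by_contra m
    rw [not_or] at m
    exact k fun y h1 h2 => Finset.mem_sdiff.2
      ⟨not_not.1 m.1 y h1 h2, fun n => m.2 ⟨_, n, rfl⟩⟩
  · rintro (k | ⟨c, hc, rfl⟩) m
    · exact k fun y h1 h2 => (Finset.mem_sdiff.1 (m y h1 h2)).1
    · have := mem_board.1 (hF (hs hc))
      exact (Finset.mem_sdiff.1 (m c.2 (by omega) (by omega))).2 hc

theorem move (hF : F ⊆ board a b) {s : Finset C} (hs : Legal F s) :
    (∀ i, KK (F \ s) b i ↔ KK F b i) ∨ ∃ p q u u', Split (KK F b) (KK (F \ s) b) p q u u' ∧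
      ((u' = u + 1 ∧ ∃ y, s = {(u, y), (u + 1, y)}) ∨ (u' = u ∧ ((∃ y, s = {(u, y), (u, y + 1)}) ∨
        ∃ i, -(a : ℤ) ≤ i ∧ i ≤ a ∧ KK F b i))) := by
  have e := KK.sdiff hF hs.1
  have gp : ∀ c ∈ s, ¬ KK F b c.1 → ∃ p q, Gap (KK F b) p q ∧ p < c.1 ∧ c.1 < q := by
    intro c hc n
    have := mem_board.1 (hF (hs.1 hc))
    exact exists_gap (KK.out hF (i := -a - 1) (by omega)) (KK.out hF (i := a + 1) (by omega))
      (by omega) (by omega) n
  have one : ∀ c ∈ s, (∀ i, KK (F \ s) b i ↔ KK F b i ∨ i = c.1) →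
      (∀ i, KK (F \ s) b i ↔ KK F b i) ∨ ∃ p q, Split (KK F b) (KK (F \ s) b) p q c.1 c.1 := by
    intro c hc k
    by_cases n : KK F b c.1
    · exact Or.inl fun i => (k i).trans ⟨fun m => m.elim id fun m => m ▸ n, Or.inl⟩
    · obtain ⟨p, q, g, h1, h2⟩ := gp c hc n
      exact Or.inr ⟨p, q, g, h1, le_rfl, by omega, h2, by simpa using k⟩
  obtain ⟨x, y, rfl | rfl⟩ := hs.2
  · have e' : ∀ i, KK (F \ {(x, y), (x + 1, y)}) b i ↔ KK F b i ∨ i = x ∨ i = x + 1 := fun i => by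
      simpa [eq_comm] using e i
    have m1 := mem_board.1 (hF (hs.1 (Finset.mem_insert_self _ _)))
    have m2 := mem_board.1 (hF (hs.1 (Finset.mem_insert_of_mem (Finset.mem_singleton_self _))))
    simp only at m1 m2
    by_cases n1 : KK F b x
    · refine (one (x + 1, y) (by simp) fun i => (e' i).trans ?_).imp_right fun ⟨p, q, k⟩ =>
        ⟨p, q, _, _, k, Or.inr ⟨rfl, Or.inr ⟨x, by omega, by omega, n1⟩⟩⟩
      exact ⟨fun m => m.elim Or.inl fun m => m.elim (fun m => Or.inl (m ▸ n1)) Or.inr,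
        fun m => m.imp_right Or.inr⟩
    by_cases n2 : KK F b (x + 1)
    · refine (one (x, y) (by simp) fun i => (e' i).trans ?_).imp_right fun ⟨p, q, k⟩ =>
        ⟨p, q, _, _, k, Or.inr ⟨rfl, Or.inr ⟨x + 1, by omega, by omega, n2⟩⟩⟩
      exact ⟨fun m => m.elim Or.inl fun m => m.elim Or.inr fun m => Or.inl (m ▸ n2),
        fun m => m.imp_right Or.inl⟩
    obtain ⟨p, q, g, h1, h2⟩ := gp (x, y) (by simp) n1
    have : x + 1 ≠ q := fun k => n2 (k ▸ g.2.2.1)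
    exact Or.inr ⟨p, q, x, x + 1, ⟨g, h1, by omega, le_rfl, by simp only at h2; omega, e'⟩,
      Or.inl ⟨rfl, y, rfl⟩⟩
  · exact (one (x, y) (by simp) fun i => by simpa [eq_comm] using e i).imp_right
      fun ⟨p, q, k⟩ => ⟨p, q, _, _, k, Or.inr ⟨rfl, Or.inl ⟨y, rfl⟩⟩⟩

/-- the middle column holds one vertical domino, the other columns at most one covered square -/
def Cen (F : Finset C) (a b : ℕ) (L : ℤ) : Prop :=
  ∃ y0 : ℤ, -(b : ℤ) ≤ y0 ∧ y0 + 1 ≤ b ∧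
    (∀ y : ℤ, -(b : ℤ) ≤ y → y ≤ b → ((0, y) ∈ F ↔ y ≠ y0 ∧ y ≠ y0 + 1)) ∧
    (∀ x y y', x ≠ 0 → (x, y) ∈ board a b → (x, y') ∈ board a b → (x, y) ∉ F → (x, y') ∉ F →
      y = y') ∧ ∀ i, -L < i → i < 0 → CF F b i

theorem Cen.zero (h : Cen F a b L) : KK F b 0 := fun k => by
  obtain ⟨y0, h1, h2, h3, -⟩ := h
  exact ((h3 y0 h1 (by omega)).1 (k y0 h1 (by omega))).1 rfl

theorem Cen.step (h : Cen F a b L) {p q u y : ℤ} (g : Gap (KK F b) p q) (L1 : 1 ≤ L)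
    (h1 : L ≤ u - p) (h2 : L ≤ q - (u + 1)) : Cen (F \ {(u, y), (u + 1, y)}) a b L := by
  have z : ¬ (p < 0 ∧ 0 < q) := fun k => g.2.2.2 0 k.1 k.2 h.zero
  have c1 : CF F b u := not_not.1 (g.2.2.2 u (by omega) (by omega))
  have c2 : CF F b (u + 1) := not_not.1 (g.2.2.2 (u + 1) (by omega) (by omega))
  obtain ⟨y0, k1, k2, k3, k4, k5⟩ := h
  refine ⟨y0, k1, k2, fun y' a1 a2 => ?_, fun x y1 y2 n m1 m2 n1 n2 => ?_,
    fun i a1 a2 y' a3 a4 => ?_⟩
  · rw [← k3 y' a1 a2]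
    simp only [Finset.mem_sdiff, Finset.mem_insert, Finset.mem_singleton, Prod.ext_iff]
    exact and_iff_left (by omega)
  · have b1 := mem_board.1 m1
    have b2 := mem_board.1 m2
    simp only [Finset.mem_sdiff, Finset.mem_insert, Finset.mem_singleton, Prod.ext_iff, not_and,
      not_not] at n1 n2 b1 b2
    by_cases k : x = u ∨ x = u + 1
    · have c : CF F b x := by rcases k with rfl | rfl <;> assumption
      have := n1 (c y1 (by omega) (by omega))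
      have := n2 (c y2 (by omega) (by omega))
      omega
    · exact k4 x y1 y2 n m1 m2 (fun m => by have := n1 m; omega) fun m => by have := n2 m; omega
  · simp only [Finset.mem_sdiff, Finset.mem_insert, Finset.mem_singleton, Prod.ext_iff]
    exact ⟨k5 i a1 a2 y' a3 a4, by omega⟩

theorem thin_np {w : ℕ} (hF : F ⊆ board a b) (b1 : 1 ≤ b) (hL : (2 * (b : ℤ) + 33) * (w + 1) < L)
    (h : Uq (KK F b) L ∨ Cen F a b L) : ¬ Paired w F := by
  intro hp
  have pt := fun x z => hp.partner (b := b) (x := x) (z := z) (by omega)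
    fun u hu => (mem_board.1 (hF hu)).2.2
  rcases h with ⟨x, z, g, l, u⟩ | h
  · obtain ⟨x', z', g', e, n⟩ := (pt x z (by omega) g).1
    exact n (u _ _ g' e)
  have z := h.zero
  obtain ⟨y0, k1, k2, k3, k4, k5⟩ := h
  have L2 : 2 ≤ L := by nlinarith
  obtain ⟨p, q, g, h1, h2⟩ := exists_gap (i := -1) (KK.out hF (i := -a - 2) (by omega)) z
    (by omega) (by omega) (not_not.2 (k5 _ (by omega) (by omega)))
  obtain rfl : q = 0 := by
    by_contra k
    exact g.2.2.2 0 (by omega) (by omega) z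
  have : p ≤ -L := by
    by_contra k
    exact g.2.1 (k5 p (by omega) (by omega))
  obtain ⟨z', η, hη, k⟩ := (pt p 0 (by omega) g).2
  obtain ⟨y1, m1, m2, m3⟩ : ∃ y1 : ℤ, -(b : ℤ) ≤ y1 ∧ y1 ≤ b ∧ y1 ≠ y0 ∧ y1 ≠ y0 + 1 := by
    by_cases m : y0 + 1 = b
    exacts [⟨-b, by omega⟩, ⟨b, by omega⟩]
  have f1 := (k3 y1 m1 m2).2 m3
  have f2 := mem_board.1 (hF ((k y1).1.1 f1))
  have f3 := ne_iff.1 ((k y1).2 f1)
  have n1 : (z', η * y0) ∉ F := fun m => ((k3 y0 k1 (by omega)).1 ((k y0).1.2 m)).1 rfl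
  have n2 : (z', η * (y0 + 1)) ∉ F :=
    fun m => ((k3 (y0 + 1) (by omega) k2).1 ((k (y0 + 1)).1.2 m)).2 rfl
  simp only at f2 f3
  by_cases e : z' = 0
  · subst e
    rcases hη with rfl | rfl
    · omega
    · rw [k3 _ (by omega) (by omega)] at n1 n2
      omega
  · have := k4 z' _ _ e (mem_board.2 (by rcases hη with rfl | rfl <;> simp only <;> omega))
      (mem_board.2 (by rcases hη with rfl | rfl <;> simp only <;> omega)) n1 n2
    rcases hη with rfl | rfl <;> omega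

theorem fresh {N : ℕ} (hF : F ⊆ board a b) (hN : (board a b \ F).card ≤ N) (L2 : 2 ≤ L)
    (ha : (3 * (L + 3 * (N + 1)) + 2) * (N + 1) ≤ 2 * a + 1) {κ : ℤ} (hκ : κ = 0 ∨ κ = 1) :
    ∃ x z v, Gap (KK F b) x z ∧ x < v ∧ v + κ < z ∧
      ∀ K1, Split (KK F b) K1 x z v (v + κ) → Gen (KK F b) K1 L x z v (v + κ) := by
  have col : ∀ i : ℤ, -(a : ℤ) ≤ i → i ≤ a → KK F b i → i ∈ (board a b \ F).image Prod.fst := by
    intro i h1 h2 k
    by_contra m
    exact k fun y h3 h4 => by_contra fun n => m (Finset.mem_image.2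
      ⟨(i, y), Finset.mem_sdiff.2 ⟨mem_board.2 ⟨h1, h2, h3, h4⟩, n⟩, rfl⟩)
  have rng : ∀ p q, Gap (KK F b) p q → 2 ≤ q - p → -(a : ℤ) - 1 ≤ p ∧ q ≤ a + 1 := by
    intro p q g h
    have h1 := mt (KK.out hF) (g.2.2.2 (p + 1) (by omega) (by omega))
    have h2 := mt (KK.out hF) (g.2.2.2 (q - 1) (by omega) (by omega))
    omega
  have hB := (Finset.card_image_le (s := board a b \ F) (f := Prod.fst)).trans hN
  generalize hM : 3 * (L + 3 * ((N : ℤ) + 1)) + 2 = M at ha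
  obtain ⟨i, i0, i1, bi⟩ := bandM _ (-(a : ℤ)) (M := M) (by omega) hB
  have i2 : 0 ≤ M * i := mul_nonneg (by omega) i0
  have i3 : M * i + M ≤ M * (N + 1) := by nlinarith
  generalize M * i = j at *
  generalize M * ((N : ℤ) + 1) = j' at *
  have free : ∀ t, -(a : ℤ) + j ≤ t → t < -a + j + M → ¬ KK F b t := fun t h1 h2 k => by
    have := bi t (col t (by omega) (by omega) k); omega
  obtain ⟨p0, q0, g0, h1, h2⟩ := exists_gap (KK.out hF (i := -a - 1) (by omega))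
    (KK.out hF (i := a + 1) (by omega)) (by omega) (by omega) (free _ le_rfl (by omega))
  have h3 : -(a : ℤ) + j + M ≤ q0 := by
    by_contra k
    exact free q0 (by omega) (by omega) g0.2.2.1
  obtain ⟨s, ⟨x, z, g, rfl⟩, mx⟩ := Int.exists_greatest_of_bdd
    (P := fun s => ∃ x z, Gap (KK F b) x z ∧ z - x = s)
    ⟨2 * a + 2, fun s ⟨x, z, g, e⟩ => by have := rng x z g; omega⟩ ⟨_, p0, q0, g0, rfl⟩
  have h4 := mx _ ⟨p0, q0, g0, rfl⟩
  have h0 : ∀ p, ∃ q, ∀ q', Gap (KK F b) p q' → q' = q := fun p => by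
    by_cases k : ∃ q, Gap (KK F b) p q
    · obtain ⟨q, k⟩ := k
      exact ⟨q, fun q' k' => by have := k.eq_or k'; have := k.1; have := k'.1; omega⟩
    · exact ⟨0, fun q' k' => absurd ⟨q', k'⟩ k⟩
  choose nx hnx using h0
  obtain ⟨E, hE, mE⟩ : ∃ E : Finset ℤ, E.card ≤ N + 1 ∧
      ∀ p q, Gap (KK F b) p q → 2 ≤ q - p → q - p ∈ E := by
    refine ⟨(insert (-(a : ℤ) - 1) ((board a b \ F).image Prod.fst)).image fun p => nx p - p,
      Finset.card_image_le.trans ((Finset.card_insert_le _ _).trans (by omega)), fun p q k m => ?_⟩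
    refine Finset.mem_image.2 ⟨p, ?_, by rw [hnx p q k]⟩
    have := rng p q k m
    by_cases n : p = -a - 1
    · simp [n]
    · exact Finset.mem_insert_of_mem (col p (by omega) (by omega) k.2.1)
  obtain ⟨t, t0, t1, bt⟩ := bandM (E ∪ E.image (fun m => z - x - κ - m) ∪
      E.image fun m => (z - x - κ - m) / 2) L (M := 1) (n := 3 * (N + 1)) one_pos (by
    have := Finset.card_union_le (E ∪ E.image fun m => z - x - κ - m)
      (E.image fun m => (z - x - κ - m) / 2)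
    have := Finset.card_union_le E (E.image fun m => z - x - κ - m)
    have := Finset.card_image_le (s := E) (f := fun m => z - x - κ - m)
    have := Finset.card_image_le (s := E) (f := fun m => (z - x - κ - m) / 2)
    omega)
  push_cast at t1
  refine ⟨x, z, x + (L + t), g, by omega, by omega, fun K1 sp => ⟨L2, sp, fun p q k => ?_,
    by omega, by omega⟩⟩
  have := mx _ ⟨p, q, k, rfl⟩
  by_cases m : 2 ≤ q - p
  · have e := mE p q k m
    have := bt _ (Finset.mem_union_left _ (Finset.mem_union_left _ e))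
    have := bt _ (Finset.mem_union_left _ (Finset.mem_union_right _ (Finset.mem_image_of_mem _ e)))
    have := bt _ (Finset.mem_union_right _ (Finset.mem_image_of_mem _ e))
    omega
  · omega

theorem thin_nf {w N : ℕ} (b1 : 1 ≤ b) (hL : (2 * (b : ℤ) + 33) * (w + 1) < L)
    (ha : (3 * (L + 3 * (N + 1)) + 2) * (N + 1) ≤ 2 * a + 1) (k : ℕ) :
    ∀ F : Finset C, F ⊆ board a b → (board a b \ F).card + 4 * k ≤ N →
      (Uq (KK F b) L ∨ (Cen F a b L ∧ Tw (KK F b) L)) → ¬ Force w k F := by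
  have L2 : 2 ≤ L := by nlinarith
  induction k with
  | zero => exact fun F hF _ h => thin_np hF b1 hL (h.imp_right And.left)
  | succ k ih =>
    rintro F hF hN h (hP | hP)
    · exact thin_np hF b1 hL (h.imp_right And.left) hP
    have fin : ∀ d, Legal F d → (∀ s, Legal (F \ d) s → Uq (KK ((F \ d) \ s) b) L ∨
        (Cen ((F \ d) \ s) a b L ∧ Tw (KK ((F \ d) \ s) b) L)) → False := by
      intro d hd m
      obtain ⟨s, hs, hf⟩ := hP d hd
      have c1 := hd.card_step (B := board a b)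
      have c2 := hs.card_step (B := board a b)
      exact ih _ (Finset.sdiff_subset.trans (Finset.sdiff_subset.trans hF)) (by omega) (m s hs) hf
    by_cases hU : Uq (KK F b) L
    · obtain ⟨x, z, v, g, h1, h2, G⟩ := fresh hF (by omega) L2 ha (Or.inl rfl)
      rw [add_zero] at h2 G
      have c : CF F b v := not_not.1 (g.2.2.2 v h1 h2)
      have hd := legal_pair (F := F) (u := (v, 0)) (v := (v, 1)) (adj_mk.2 (by omega))
        (c 0 (by omega) (by omega)) (c 1 (by omega) (by omega))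
      exact fin _ hd fun s hs => Or.inl ((G _ ⟨g, h1, le_rfl, by omega, h2, fun i => by
        simpa [eq_comm] using KK.sdiff hF hd.1 i⟩).stepU hU
        (move (Finset.sdiff_subset.trans hF) hs))
    · obtain ⟨hC, hT⟩ := h.resolve_left hU
      obtain ⟨x, z, v, g, h1, h2, G⟩ := fresh hF (by omega) L2 ha (Or.inr rfl)
      have c : CF F b v := not_not.1 (g.2.2.2 v h1 (by omega))
      have c' : CF F b (v + 1) := not_not.1 (g.2.2.2 (v + 1) (by omega) h2)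
      have hd := legal_pair (F := F) (u := (v, 0)) (v := (v + 1, 0)) (adj_mk.2 (by omega))
        (c 0 (by omega) (by omega)) (c' 0 (by omega) (by omega))
      have G' := G _ ⟨g, h1, by omega, le_rfl, h2, fun i => by
        simpa [eq_comm] using KK.sdiff hF hd.1 i⟩
      refine fin _ hd fun s hs => or_iff_not_imp_left.2 fun nU => ?_
      obtain ⟨t, p, q, u, g', hQ, l1, l2⟩ := G'.stepT hU hT
        (move (Finset.sdiff_subset.trans hF) hs) nU
      obtain ⟨-, y, rfl⟩ := hQ.resolve_right (by omega)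
      have := G'.lo
      have := G'.hi
      exact ⟨(hC.step g (by omega) G'.lo (by omega)).step g' (by omega) l1 l2, t⟩

theorem thin {w k : ℕ} (b1 : 1 ≤ b) (hL : (2 * (b : ℤ) + 33) * (w + 1) < L)
    (ha : (3 * (L + 3 * ((4 * k + 2 : ℕ) + 1)) + 2) * ((4 * k + 2 : ℕ) + 1) ≤ 2 * a + 1) :
    ¬ Force w k (board a b) ∧ ∀ s, Legal (board a b) s → ¬ Force w k (board a b \ s) := by
  have L2 : 2 ≤ L := by nlinarith
  have La : L ≤ a := by
    have : (0 : ℤ) ≤ ((4 * k + 2 : ℕ) : ℤ) := by positivity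
    nlinarith
  have key := thin_nf b1 hL ha k
  have cf : ∀ i : ℤ, -(a : ℤ) ≤ i → i ≤ a → CF (board a b) b i :=
    fun i h1 h2 y h3 h4 => mem_board.2 ⟨h1, h2, h3, h4⟩
  have g0 : Gap (KK (board a b) b) (-a - 1) (a + 1) := ⟨by omega, KK.out subset_rfl (by omega),
    KK.out subset_rfl (by omega), fun i h1 h2 => not_not.2 (cf i (by omega) (by omega))⟩
  have u0 : ∀ p q, Gap (KK (board a b) b) p q → 2 ≤ q - p → p = -a - 1 ∧ q = a + 1 := by
    intro p q g h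
    have h1 := mt (KK.out subset_rfl) (g.2.2.2 (p + 1) (by omega) (by omega))
    have := g.eq_or g0
    omega
  have U0 : Uq (KK (board a b) b) L :=
    ⟨_, _, g0, by omega, fun p q g e => (u0 p q g (by omega)).1⟩
  refine ⟨key _ subset_rfl (by simp) (Or.inl U0), fun s hs => key _ Finset.sdiff_subset ?_ ?_⟩
  · have := hs.card_step (B := board a b)
    simp only [sdiff_self, Finset.bot_eq_empty, Finset.card_empty] at this
    omega
  rcases move subset_rfl hs with m | ⟨p, q, u, u', sp, hQ⟩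
  · exact Or.inl (by rwa [show KK (board a b \ s) b = KK (board a b) b from
      funext fun i => propext (m i)])
  have b2 : p < u ∧ u ≤ u' ∧ u' ≤ u + 1 ∧ u' < q := ⟨sp.2.1, sp.2.2.1, sp.2.2.2.1, sp.2.2.2.2.1⟩
  obtain ⟨rfl, rfl⟩ := u0 p q sp.1 (by omega)
  have cls : ∀ p q, Gap (KK (board a b \ s) b) p q → 2 ≤ q - p →
      (p = -a - 1 ∧ q = u) ∨ (p = u' ∧ q = a + 1) := fun p q g h =>
    (sp.of g h).resolve_left fun k => k.2 (u0 p q k.1 h).1
  rcases lt_trichotomy (u + u') 0 with m | m | m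
  · exact Or.inl ⟨_, _, sp.right, by omega, fun p q g e => by have := cls p q g (by omega); omega⟩
  · obtain rfl : u = 0 := by omega
    obtain ⟨y, rfl⟩ := (hQ.resolve_left (by omega)).2.resolve_right
      fun ⟨i, h1, h2, k⟩ => k (cf i h1 h2)
    have m1 := mem_board.1 (hs.1 (Finset.mem_insert_self _ _))
    have m2 := mem_board.1 (hs.1 (Finset.mem_insert_of_mem (Finset.mem_singleton_self _)))
    simp only at m1 m2
    refine Or.inr ⟨⟨y, by omega, by omega, fun y' h1 h2 => ?_, fun x y1 y2 n k1 k2 n1 n2 => ?_,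
      fun i h1 h2 y' h3 h4 => ?_⟩, fun x1 z1 x2 z2 x3 z3 g1 g2 g3 h1 h2 h3 => ?_⟩
    · simp [mem_board, h1, h2]
    · exact (n1 (by simp [k1, n])).elim
    · simp only [Finset.mem_sdiff, mem_board, Finset.mem_insert, Finset.mem_singleton,
        Prod.ext_iff]
      omega
    · have := cls _ _ g1 (by omega)
      have := cls _ _ g2 (by omega)
      have := cls _ _ g3 (by omega)
      omega
  · exact Or.inl ⟨_, _, sp.left, by omega, fun p q g e => by have := cls p q g (by omega); omega⟩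

theorem long (k w a b : ℕ) (hb : 1 ≤ b) (ha : 4000 * (k + 1) ^ 2 * (w + 1) ^ 2 ≤ a) :
    ¬ Force w k (board a b) ∧ ∀ s, Legal (board a b) s → ¬ Force w k (board a b \ s) := by
  have h1 : 1 ≤ (k + 1) * (w + 1) := Nat.succ_le_of_lt (by positivity)
  rcases le_total (300 * (k + 1) * (w + 1)) b with h | h
  · exact main k w a b (by nlinarith) h
  refine thin (L := (2 * (b : ℤ) + 33) * (w + 1) + 1) hb (by omega) ?_
  have e : (3 * ((2 * b + 33) * (w + 1) + 1 + 3 * (4 * k + 2 + 1)) + 2) * (4 * k + 2 + 1) ≤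
      2 * a + 1 := by
    obtain ⟨X, hX⟩ : ∃ X, X = (k + 1) * (w + 1) := ⟨_, rfl⟩
    have a1 : 2 * b + 33 ≤ 633 * X := by nlinarith
    have a2 : k + 1 ≤ X * (w + 1) := by nlinarith [Nat.zero_le (k * w), Nat.zero_le (X * w)]
    have a3 : (2 * b + 33) * (w + 1) ≤ 633 * (X * (w + 1)) := by nlinarith
    have a4 : 3 * ((2 * b + 33) * (w + 1) + 1 + 3 * (4 * k + 2 + 1)) + 2 ≤ 2000 * (X * (w + 1)) := by
      omega
    have a5 : 4000 * (k + 1) ^ 2 * (w + 1) ^ 2 = 4000 * ((X * (w + 1)) * (k + 1)) := by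
      rw [hX]; ring
    calc _ ≤ 2000 * (X * (w + 1)) * (4 * (k + 1)) := Nat.mul_le_mul a4 (by omega)
      _ = 2 * (4000 * ((X * (w + 1)) * (k + 1))) := by ring
      _ ≤ 2 * a + 1 := by omega
  exact_mod_cast e

end Pool.Agent.P.MP_c5202f_co
end

-- part Pool.Agent.P.MP_c5202f_co.All
section

/-! Exchanging rows and columns. -/

namespace Pool.Agent.P.MP_c5202f_co

def sw (F : Finset C) : Finset C := F.map (Equiv.prodComm ℤ ℤ).toEmbedding

theorem mem_sw {F : Finset C} {u : C} : u ∈ sw F ↔ u.swap ∈ F := by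
  simp [sw, Finset.mem_map_equiv]

theorem sw_sw (F : Finset C) : sw (sw F) = F := by ext u; simp [mem_sw]

theorem sw_sdiff (F d : Finset C) : sw (F \ d) = sw F \ sw d := by ext u; simp [mem_sw]

theorem Legal.sw {F d : Finset C} (h : Legal F d) : Legal (sw F) (sw d) := by
  refine ⟨fun u hu => mem_sw.2 (h.1 (mem_sw.1 hu)), ?_⟩
  obtain ⟨x, y, rfl | rfl⟩ := h.2
  · exact ⟨y, x, Or.inr (by simp [MP_c5202f_co.sw])⟩
  · exact ⟨y, x, Or.inl (by simp [MP_c5202f_co.sw])⟩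

theorem sw_dis {s t : Finset C} (h : Disjoint s t) : Disjoint (sw s) (sw t) :=
  Finset.disjoint_left.2 fun _ a c => dis h _ (mem_sw.1 a) (mem_sw.1 c)

theorem Paired.sw {w : ℕ} {F : Finset C} (h : Paired w F) : Paired w (sw F) := by
  obtain ⟨W, r, S, w1, w2, hS, cl⟩ := h
  refine ⟨MP_c5202f_co.sw W, fun d => MP_c5202f_co.sw (r (MP_c5202f_co.sw d)),
    {P | MP_c5202f_co.sw P ∈ S}, ?_, ?_, by simpa [sw_sw] using hS, fun P hP d hd => ?_⟩
  · rwa [show (MP_c5202f_co.sw W).image Prod.fst = W.image Prod.snd by ext; simp [mem_sw]]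
  · rwa [show (MP_c5202f_co.sw W).image Prod.snd = W.image Prod.fst by ext; simp [mem_sw]]
  · obtain ⟨s, h1, h2, h3⟩ := cl _ hP _ hd.sw
    refine ⟨MP_c5202f_co.sw s, by simpa [sw_sdiff, sw_sw] using h1.sw,
      by simpa [sw_sdiff, sw_sw] using h2, fun k => ?_⟩
    obtain ⟨rfl, k'⟩ := h3 (by simpa [sw_sw] using sw_dis k)
    exact ⟨rfl, sw_dis k'⟩

theorem Force.sw {w k : ℕ} : ∀ {F : Finset C}, Force w k F → Force w k (sw F) := by
  induction k with
  | zero => exact fun h => Paired.sw h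
  | succ k ih =>
    refine fun h => h.imp Paired.sw fun h d hd => ?_
    obtain ⟨s, h1, h2⟩ := h (MP_c5202f_co.sw d) (by simpa [sw_sw] using hd.sw)
    exact ⟨MP_c5202f_co.sw s, by simpa [sw_sdiff, sw_sw] using h1.sw,
      by simpa [sw_sdiff, sw_sw] using ih h2⟩

theorem sw_board (a b : ℕ) : sw (board a b) = board b a := by
  ext u; simp only [mem_sw, mem_board, Prod.fst_swap, Prod.snd_swap]; omega

theorem all (k w a b : ℕ) (ha : 1 ≤ a) (hb : 1 ≤ b)
    (h : 4000 * (k + 1) ^ 2 * (w + 1) ^ 2 ≤ max a b) :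
    ¬ Force w k (board a b) ∧ ∀ s, Legal (board a b) s → ¬ Force w k (board a b \ s) := by
  rcases le_max_iff.1 h with h | h
  · exact long k w a b hb h
  · obtain ⟨h1, h2⟩ := long k w b a ha h
    exact ⟨fun m => h1 (sw_board a b ▸ m.sw), fun s hs m => h2 (sw s) (sw_board a b ▸ hs.sw)
      (by simpa [sw_sdiff, sw_board] using m.sw)⟩

end Pool.Agent.P.MP_c5202f_co
end
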